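import Pool.Agent.W263.BSD.Euler2

/-!
# Moments of a function and the Taylor coefficients of its Laplace transform
-/

set_option autoImplicit false
set_option maxHeartbeats 1000000

open MeasureTheory Complex Set Filter Topology Metric
open Pool.Agent.W263.BSD (LInt lap pow_LInt pow_lap)

namespace Pool.Agent.V8H22.BSW

/-- measurable, of growth at most `B exp (2 u)` -/
structure Gw (f : ℝ → ℝ) (B : ℝ) : Prop where
  meas : Measurable f
  bd : ∀ u, 0 < u → |f u| ≤ B * Real.exp (2 * u)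

/-- the complex moments -/
noncomputable def U (f : ℝ → ℝ) (k : ℕ) (z : ℂ) : ℂ :=
  ∫ u in Ioi (0:ℝ), ((f u * u ^ k : ℝ) : ℂ) * cexp (-(z * u))

lemma gam_int (k : ℕ) {w : ℝ} (hw : 0 < w) :
    IntegrableOn (fun u : ℝ => u ^ k * Real.exp (-(w * u))) (Ioi 0) := pow_LInt k hw

lemma gam_val (k : ℕ) {w : ℝ} (hw : 0 < w) :
    ∫ u in Ioi (0:ℝ), u ^ k * Real.exp (-(w * u)) = k.factorial / w ^ (k + 1) := pow_lap k hw

variable {f : ℝ → ℝ} {B : ℝ}

lemma Gw.B_nonneg (h : Gw f B) : 0 ≤ B := by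
  have h1 := (abs_nonneg _).trans (h.bd 1 one_pos)
  have h2 := Real.exp_pos (2 * 1)
  by_contra hB
  push Not at hB
  nlinarith

lemma Gw.abs_le (h : Gw f B) (k : ℕ) (x : ℝ) {u : ℝ} (hu : 0 < u) :
    |f u| * u ^ k * Real.exp (-(x * u)) ≤ B * (u ^ k * Real.exp (-((x - 2) * u))) := by
  have h1 := h.bd u hu
  calc |f u| * u ^ k * Real.exp (-(x * u))
      ≤ (B * Real.exp (2 * u)) * u ^ k * Real.exp (-(x * u)) := by gcongr
    _ = B * (u ^ k * (Real.exp (2 * u) * Real.exp (-(x * u)))) := by ring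
    _ = _ := by rw [← Real.exp_add]; ring_nf

lemma Gw.int_abs (h : Gw f B) (k : ℕ) {x : ℝ} (hx : 2 < x) :
    IntegrableOn (fun u : ℝ => |f u| * u ^ k * Real.exp (-(x * u))) (Ioi 0) := by
  refine Integrable.mono' ((gam_int k (show 0 < x - 2 by linarith)).const_mul B) ?_ ?_
  · exact ((h.meas.norm.mul (by fun_prop)).mul (by fun_prop)).aestronglyMeasurable
  · refine (ae_restrict_iff' measurableSet_Ioi).2 (Eventually.of_forall fun u hu => ?_)
    have hu' : 0 < u := hu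
    rw [Real.norm_eq_abs, abs_of_nonneg (by positivity)]
    exact h.abs_le k x hu'

lemma Gw.int_real (h : Gw f B) (k : ℕ) {x : ℝ} (hx : 2 < x) :
    IntegrableOn (fun u : ℝ => f u * u ^ k * Real.exp (-(x * u))) (Ioi 0) := by
  refine Integrable.mono' (h.int_abs k hx) ?_ ?_
  · exact ((h.meas.mul (by fun_prop)).mul (by fun_prop)).aestronglyMeasurable
  · refine (ae_restrict_iff' measurableSet_Ioi).2 (Eventually.of_forall fun u hu => ?_)
    have hu' : 0 < u := hu
    rw [Real.norm_eq_abs, abs_mul, abs_mul, abs_of_nonneg (pow_nonneg hu'.le k),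
      abs_of_pos (Real.exp_pos _)]

lemma norm_kern (k : ℕ) (z : ℂ) {u : ℝ} (hu : 0 < u) :
    ‖((f u * u ^ k : ℝ) : ℂ) * cexp (-(z * u))‖ = |f u| * u ^ k * Real.exp (-(z.re * u)) := by
  rw [norm_mul, Complex.norm_real, Real.norm_eq_abs, Complex.norm_exp, abs_mul,
    abs_of_nonneg (pow_nonneg hu.le k)]
  simp

lemma kern_meas {f : ℝ → ℝ} {B : ℝ} (h : Gw f B) (k : ℕ) (z : ℂ) :
    AEStronglyMeasurable (fun u : ℝ => ((f u * u ^ k : ℝ) : ℂ) * cexp (-(z * u)))
      (volume.restrict (Ioi 0)) :=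
  ((Complex.measurable_ofReal.comp (h.meas.mul (by fun_prop))).mul (by fun_prop)).aestronglyMeasurable

lemma Gw.int_cpx (h : Gw f B) (k : ℕ) {z : ℂ} (hz : 2 < z.re) :
    IntegrableOn (fun u : ℝ => ((f u * u ^ k : ℝ) : ℂ) * cexp (-(z * u))) (Ioi 0) := by
  refine Integrable.mono' (h.int_abs k hz) (kern_meas h k z) ?_
  refine (ae_restrict_iff' measurableSet_Ioi).2 (Eventually.of_forall fun u hu => ?_)
  exact (norm_kern k z hu).le

lemma norm_U_le (f : ℝ → ℝ) (k : ℕ) (z : ℂ) :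
    ‖U f k z‖ ≤ ∫ u in Ioi (0:ℝ), |f u| * u ^ k * Real.exp (-(z.re * u)) := by
  unfold U
  refine (norm_integral_le_integral_norm _).trans (le_of_eq ?_)
  exact setIntegral_congr_fun measurableSet_Ioi fun u hu => norm_kern k z hu

lemma U_real (k : ℕ) (x : ℝ) :
    U f k x = ((∫ u in Ioi (0:ℝ), f u * u ^ k * Real.exp (-(x * u)) : ℝ) : ℂ) := by
  unfold U
  rw [← integral_complex_ofReal]
  congr 1
  funext u
  push_cast
  rfl

/-- differentiation of the moments -/
lemma Gw.hasDerivAt_U (h : Gw f B) (k : ℕ) {z : ℂ} (hz : 2 < z.re) :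
    HasDerivAt (U f k) (-U f (k + 1) z) z := by
  set r : ℝ := (z.re - 2) / 2 with hr
  have hr0 : 0 < r := by rw [hr]; linarith
  have hd := hasDerivAt_integral_of_dominated_loc_of_deriv_le (μ := volume.restrict (Ioi (0:ℝ)))
    (F := fun (w : ℂ) (u : ℝ) => ((f u * u ^ k : ℝ) : ℂ) * cexp (-(w * u)))
    (F' := fun (w : ℂ) (u : ℝ) => ((f u * u ^ k : ℝ) : ℂ) * (cexp (-(w * u)) * (-u)))
    (x₀ := z) (s := ball z r)
    (bound := fun u => B * (u ^ (k + 1) * Real.exp (-(r * u))))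
    (ball_mem_nhds z hr0)
    (Eventually.of_forall fun w => kern_meas h k w)
    (h.int_cpx k hz)
    ((Complex.measurable_ofReal.comp (h.meas.mul (by fun_prop))).mul (by fun_prop)).aestronglyMeasurable
    ?_ ((gam_int (k + 1) hr0).const_mul B) (Eventually.of_forall fun t w _ => ?_)
  · have h1 := hd.2
    have e : (∫ u in Ioi (0:ℝ), ((f u * u ^ k : ℝ) : ℂ) * (cexp (-(z * u)) * (-u))) =
        -U f (k + 1) z := by
      unfold U
      rw [← integral_neg]
      congr 1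
      funext u
      push_cast
      ring
    rw [e] at h1
    exact h1
  · refine (ae_restrict_iff' measurableSet_Ioi).2 (Eventually.of_forall fun u hu w hw => ?_)
    have hu' : 0 < u := hu
    have hw' : z.re - r ≤ w.re := by
      have h2 : ‖w - z‖ < r := by rwa [← dist_eq_norm]
      have h3 := Complex.abs_re_le_norm (w - z)
      rw [Complex.sub_re] at h3
      have := neg_abs_le (w.re - z.re)
      linarith
    have e1 : ‖((f u * u ^ k : ℝ) : ℂ) * (cexp (-(w * u)) * (-u))‖ =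
        (|f u| * u ^ k * Real.exp (-(w.re * u))) * u := by
      rw [← mul_assoc, norm_mul, norm_kern k w hu', norm_neg, Complex.norm_real,
        Real.norm_of_nonneg hu'.le]
    rw [e1]
    calc (|f u| * u ^ k * Real.exp (-(w.re * u))) * u
        ≤ (|f u| * u ^ k * Real.exp (-((r + 2) * u))) * u := by
          gcongr
          rw [hr]; linarith
      _ ≤ (B * (u ^ k * Real.exp (-((r + 2 - 2) * u)))) * u :=
          mul_le_mul_of_nonneg_right (h.abs_le k (r + 2) hu') hu'.le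
      _ = _ := by rw [pow_succ]; ring_nf
  · have h5 : HasDerivAt (fun w : ℂ => -(w * (t:ℂ))) (-(t:ℂ)) w := by
      have h := (hasDerivAt_id w).mul_const (t:ℂ)
      rw [one_mul] at h
      exact h.neg
    exact (h5.cexp).const_mul _

/-- The data: `Φ` is entire, `G` is holomorphic for `Re z > -η`, and `Φ = exp (G - z lap f)` for `Re z > 2`. -/
structure WD (f : ℝ → ℝ) (B : ℝ) (Φ G : ℂ → ℂ) (η : ℝ) : Prop where
  gw : Gw f B
  hη : 0 < η
  hΦ : Differentiable ℂ Φ
  hG : ∀ z : ℂ, -η < z.re → DifferentiableAt ℂ G z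
  eq : ∀ z : ℂ, 2 < z.re → Φ z = cexp (G z - z * U f 0 z)

variable {Φ G : ℂ → ℂ} {η : ℝ}

/-- the logarithmic derivative -/
noncomputable def Q (Φ G : ℂ → ℂ) (z : ℂ) : ℂ := deriv Φ z / Φ z - deriv G z

lemma isOpen_re (x : ℝ) : IsOpen {z : ℂ | x < z.re} := isOpen_lt continuous_const Complex.continuous_re

lemma WD.ne_zero (D : WD f B Φ G η) {z : ℂ} (hz : 2 < z.re) : Φ z ≠ 0 := by
  rw [D.eq z hz]; exact Complex.exp_ne_zero _

lemma WD.Q_eq (D : WD f B Φ G η) {z : ℂ} (hz : 2 < z.re) :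
    Q Φ G z = z * U f 1 z - U f 0 z := by
  have hη := D.hη
  have h1 : HasDerivAt (fun w => G w - w * U f 0 w)
      (deriv G z - (1 * U f 0 z + z * -U f (0 + 1) z)) z :=
    (D.hG z (by linarith)).hasDerivAt.sub ((hasDerivAt_id z).mul (D.gw.hasDerivAt_U 0 hz))
  have h2 := h1.cexp
  have h3 : Φ =ᶠ[𝓝 z] fun w => cexp (G w - w * U f 0 w) := by
    filter_upwards [(isOpen_re 2).mem_nhds hz] with w hw using D.eq w hw
  have h4 := (h2.congr_of_eventuallyEq h3).deriv
  unfold Q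
  rw [h4, D.eq z hz]
  have := Complex.exp_ne_zero (G z - z * U f 0 z)
  field_simp
  ring

lemma WD.iter (D : WD f B Φ G η) (k : ℕ) : ∀ z : ℂ, 2 < z.re →
    iteratedDeriv k (Q Φ G) z = (-1) ^ k * (z * U f (k + 1) z - (k + 1) * U f k z) := by
  induction k with
  | zero =>
    intro z hz
    rw [iteratedDeriv_zero, D.Q_eq hz]
    simp
  | succ k ih =>
    intro z hz
    rw [iteratedDeriv_succ]
    have h1 : iteratedDeriv k (Q Φ G) =ᶠ[𝓝 z]
        fun w => (-1) ^ k * (w * U f (k + 1) w - (k + 1) * U f k w) := by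
      filter_upwards [(isOpen_re 2).mem_nhds hz] with w hw using ih w hw
    rw [h1.deriv_eq]
    have h2 : HasDerivAt (fun w => (-1) ^ k * (w * U f (k + 1) w - (k + 1) * U f k w))
        ((-1) ^ k * ((1 * U f (k + 1) z + z * -U f (k + 1 + 1) z) - (k + 1) * -U f (k + 1) z)) z :=
      (((hasDerivAt_id z).mul (D.gw.hasDerivAt_U (k + 1) hz)).sub
        ((D.gw.hasDerivAt_U k hz).const_mul _)).const_mul _
    rw [h2.deriv, pow_succ]
    push_cast
    ring

lemma iter_pole (k m : ℕ) (z1 c : ℂ) :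
    iteratedDeriv k (fun z : ℂ => (m:ℂ) * (z - z1)⁻¹) c =
      (-1) ^ k * (m * k.factorial / (c - z1) ^ (k + 1)) := by
  rw [iteratedDeriv_const_mul_field, iteratedDeriv_eq_iterate]
  have h := iter_deriv_inv_linear_sub (𝕜 := ℂ) k 1 z1
  simp only [one_mul, one_pow, mul_one] at h
  rw [h]
  show (m:ℂ) * ((-1) ^ k * k.factorial * (c - z1) ^ (-1 - (k:ℤ))) = _
  rw [show (-1 - (k:ℤ)) = -((k + 1 : ℕ) : ℤ) by push_cast; ring, zpow_neg, zpow_natCast]
  ring

lemma WD.analyticAt_G (D : WD f B Φ G η) {z : ℂ} (hz : -η < z.re) : AnalyticAt ℂ G z :=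
  DifferentiableOn.analyticAt (s := {z : ℂ | -η < z.re}) (fun w hw =>
    (D.hG w hw).differentiableWithinAt) ((isOpen_re (-η)).mem_nhds hz)

lemma WD.analyticAt_Q (D : WD f B Φ G η) {Φ1 : ℂ → ℂ} (hΦ1 : Differentiable ℂ Φ1) {z : ℂ}
    (hz : -η < z.re) (hne : Φ1 z ≠ 0) : AnalyticAt ℂ (Q Φ1 G) z :=
  ((hΦ1.analyticAt z).deriv.div (hΦ1.analyticAt z) hne).sub (D.analyticAt_G hz).deriv

/-- the Taylor coefficients of the regular part -/
theorem WD.star_eq (D : WD f B Φ G η) {c z1 : ℂ} {m : ℕ} {Φ1 : ℂ → ℂ} (hc : 2 < c.re)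
    (hΦ1 : Differentiable ℂ Φ1) (hfac : ∀ z, Φ z = (z - z1) ^ m * Φ1 z) (hne : Φ1 c ≠ 0)
    (hcz : c ≠ z1) (k : ℕ) :
    iteratedDeriv k (Q Φ1 G) c = (-1) ^ k *
      (c * U f (k + 1) c - (k + 1) * U f k c - m * k.factorial / (c - z1) ^ (k + 1)) := by
  have hη := D.hη
  have hev : Q Φ G =ᶠ[𝓝 c] fun z => (m:ℂ) * (z - z1)⁻¹ + Q Φ1 G z := by
    have h1 : ∀ᶠ z in 𝓝 c, Φ1 z ≠ 0 := (hΦ1 c).continuousAt.eventually_ne hne
    have h2 : ∀ᶠ z in 𝓝 c, z ≠ z1 := isOpen_ne.mem_nhds hcz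
    filter_upwards [h1, h2] with z h3 h4
    have h5 : z - z1 ≠ 0 := sub_ne_zero.2 h4
    have h6 : HasDerivAt Φ ((m * (z - z1) ^ (m - 1) * 1) * Φ1 z + (z - z1) ^ m * deriv Φ1 z) z := by
      have e : Φ = fun z => (z - z1) ^ m * Φ1 z := funext hfac
      rw [e]
      exact (((hasDerivAt_id z).sub_const z1).pow m).mul (hΦ1 z).hasDerivAt
    unfold Q
    rw [h6.deriv, hfac z]
    rcases Nat.eq_zero_or_pos m with hm | hm
    · subst hm
      simp
    · obtain ⟨n, rfl⟩ : ∃ n, m = n + 1 := ⟨m - 1, by omega⟩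
      rw [Nat.add_sub_cancel]
      field_simp
      ring
  have h2 := D.iter k c hc
  have hA : ContDiffAt ℂ k (fun z : ℂ => (m:ℂ) * (z - z1)⁻¹) c := by
    refine contDiffAt_const.mul (ContDiffAt.inv (contDiffAt_id.sub contDiffAt_const) ?_)
    exact sub_ne_zero.2 hcz
  have hB : ContDiffAt ℂ k (Q Φ1 G) c := (D.analyticAt_Q hΦ1 (by linarith) hne).contDiffAt
  rw [hev.iteratedDeriv_eq, iteratedDeriv_fun_add hA hB, iter_pole] at h2
  linear_combination h2

/-- **Taylor coefficients.** If `Φ = (z - z1)^m Φ1` with `Φ1` without zeros in the closed disc about `c` of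
radius `R`, the moments at `c` are determined by `z1` up to `O(k! / R ^ k)`. -/
theorem WD.star (D : WD f B Φ G η) {c z1 : ℂ} {m : ℕ} {Φ1 : ℂ → ℂ} {R : ℝ} (hc : 2 < c.re)
    (hR : 0 < R) (hRc : R < c.re + η) (hΦ1 : Differentiable ℂ Φ1)
    (hfac : ∀ z, Φ z = (z - z1) ^ m * Φ1 z) (hne : ∀ z ∈ closedBall c R, Φ1 z ≠ 0) (hcz : c ≠ z1) :
    ∃ M : ℝ, 0 ≤ M ∧ ∀ k : ℕ,
      ‖c * U f (k + 1) c - (k + 1) * U f k c - m * k.factorial / (c - z1) ^ (k + 1)‖ ≤
        M * k.factorial / R ^ k := by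
  have hre : ∀ z ∈ closedBall c R, -η < z.re := by
    intro z hz
    have h1 : ‖z - c‖ ≤ R := by rwa [← dist_eq_norm]
    have h2 := Complex.abs_re_le_norm (z - c)
    rw [Complex.sub_re] at h2
    have := neg_abs_le (z.re - c.re)
    linarith
  have hd : ∀ z ∈ closedBall c R, DifferentiableAt ℂ (Q Φ1 G) z := fun z hz =>
    (D.analyticAt_Q hΦ1 (hre z hz) (hne z hz)).differentiableAt
  have hcl : DiffContOnCl ℂ (Q Φ1 G) (ball c R) := by
    refine DifferentiableOn.diffContOnCl fun z hz => ?_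
    exact (hd z (closure_ball_subset_closedBall hz)).differentiableWithinAt
  obtain ⟨M, hM⟩ := (isCompact_sphere c R).exists_bound_of_continuousOn (f := Q Φ1 G)
    (fun z hz => (hd z (sphere_subset_closedBall hz)).continuousAt.continuousWithinAt)
  refine ⟨|M|, abs_nonneg M, fun k => ?_⟩
  have h1 := Complex.norm_iteratedDeriv_le_of_forall_mem_sphere_norm_le (n := k) hR hcl
    (fun z hz => (hM z hz).trans (le_abs_self M))
  rw [D.star_eq hc hΦ1 hfac (hne c (mem_closedBall_self hR.le)) hcz k, norm_mul, norm_pow, norm_neg,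
    norm_one, one_pow, one_mul] at h1
  refine h1.trans (le_of_eq (by ring))

end Pool.Agent.V8H22.BSW
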