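import Pool.Agent.V8H22.BSW.A1

/-!
# The tails of the moments, and windows
-/

set_option autoImplicit false
set_option maxHeartbeats 1000000

open MeasureTheory Complex Set Filter Topology Metric

namespace Pool.Agent.V8H22.BSW

/-- the parameter `λ` -/
noncomputable def la (δ : ℝ) : ℝ := 16 / δ

/-- the lower bound for the abscissa -/
noncomputable def s0 (δ : ℝ) : ℝ := la δ ^ 2 + la δ + 4

lemma la_ge {δ : ℝ} (h0 : 0 < δ) (h1 : δ ≤ 1) : 16 ≤ la δ := by
  unfold la
  rw [le_div_iff₀ h0]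
  linarith

lemma la_mul {δ : ℝ} (h0 : 0 < δ) : la δ * δ = 16 := by
  unfold la
  field_simp

/-- the range of the parameters -/
structure Par (δ σ r V : ℝ) (j : ℕ) : Prop where
  h0 : 0 < δ
  h1 : δ ≤ 1
  hσ : s0 δ ≤ σ
  hr1 : σ - 3 ≤ r
  hr2 : r ≤ σ
  hV : 0 ≤ V
  hj1 : r * V * (1 + δ / 2) ≤ j
  hj2 : (j:ℝ) ≤ r * V * (1 + δ / 2) + 2

lemma s0_ge {δ : ℝ} (h0 : 0 < δ) (h1 : δ ≤ 1) : 276 ≤ s0 δ := by
  have := la_ge h0 h1
  unfold s0
  nlinarith

lemma low_exp {δ σ r V : ℝ} {j : ℕ} (P : Par δ σ r V j) :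
    Real.exp (la δ * V) * (r / (σ - 2 + la δ)) ^ (j + 1) ≤ Real.exp (-V) := by
  obtain ⟨h0, h1, hσ, hr1, hr2, hV, hj1, -⟩ := P
  have hl := la_ge h0 h1
  have hld := la_mul h0
  set l := la δ with hl'
  have hs0 : 276 ≤ σ := (s0_ge h0 h1).trans hσ
  have hσl : l ^ 2 + l + 4 ≤ σ := hσ
  have hr : 0 < r := by linarith
  have hd : 0 < σ - 2 + l := by linarith
  have hq : 0 < r / (σ - 2 + l) := by positivity
  have hlog : Real.log (r / (σ - 2 + l)) ≤ -((l - 2) / (σ - 2 + l)) := by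
    refine (Real.log_le_sub_one_of_pos hq).trans ?_
    rw [← sub_nonneg]
    have e : -((l - 2) / (σ - 2 + l)) - (r / (σ - 2 + l) - 1) = (σ - r) / (σ - 2 + l) := by
      field_simp; ring
    rw [e]
    exact div_nonneg (by linarith) hd.le
  have e1 : (r / (σ - 2 + l)) ^ (j + 1) = Real.exp (((j + 1 : ℕ) : ℝ) * Real.log (r / (σ - 2 + l))) := by
    rw [Real.exp_nat_mul, Real.exp_log hq]
  rw [e1, ← Real.exp_add]
  refine Real.exp_le_exp.2 ?_
  have hc : 0 ≤ (l - 2) / (σ - 2 + l) := div_nonneg (by linarith) hd.le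
  have h2 : ((j + 1 : ℕ) : ℝ) * Real.log (r / (σ - 2 + l)) ≤
      -(r * V * (1 + δ / 2) * ((l - 2) / (σ - 2 + l))) := by
    have h3 : ((j + 1 : ℕ) : ℝ) * Real.log (r / (σ - 2 + l)) ≤
        ((j + 1 : ℕ) : ℝ) * -((l - 2) / (σ - 2 + l)) :=
      mul_le_mul_of_nonneg_left hlog (by positivity)
    refine h3.trans ?_
    rw [mul_neg, neg_le_neg_iff]
    refine mul_le_mul_of_nonneg_right ?_ hc
    push_cast
    linarith
  have h4 : l + 1 ≤ r * (1 + δ / 2) * ((l - 2) / (σ - 2 + l)) := by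
    rw [mul_div_assoc', le_div_iff₀ hd]
    have h5 : (1 + δ / 2) * (l - 2) = l + 6 - δ := by linear_combination hld / 2
    calc (l + 1) * (σ - 2 + l) ≤ (σ - 3) * (l + 5) := by nlinarith
      _ ≤ r * (l + 6 - δ) := by
          refine mul_le_mul hr1 (by linarith) (by linarith) hr.le
      _ = r * (1 + δ / 2) * (l - 2) := by rw [← h5]; ring
  have h6 : r * V * (1 + δ / 2) * ((l - 2) / (σ - 2 + l)) =
      V * (r * (1 + δ / 2) * ((l - 2) / (σ - 2 + l))) := by ring
  rw [h6] at h2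
  nlinarith [mul_le_mul_of_nonneg_left h4 hV]

lemma high_exp {δ σ r V : ℝ} {j : ℕ} (P : Par δ σ r V j) :
    Real.exp (-(la δ * ((1 + δ) * V))) * (r / (σ - 2 - la δ)) ^ (j + 1) ≤ Real.exp (1 - V) := by
  obtain ⟨h0, h1, hσ, hr1, hr2, hV, hj1, hj2⟩ := P
  have hl := la_ge h0 h1
  have hld := la_mul h0
  set l := la δ with hl'
  have hs0 : 276 ≤ σ := (s0_ge h0 h1).trans hσ
  have hσl : l ^ 2 + l + 4 ≤ σ := hσ
  have hr : 0 < r := by linarith
  have hd : 0 < σ - 2 - l := by nlinarith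
  have hq : 0 < r / (σ - 2 - l) := by positivity
  have hlog : Real.log (r / (σ - 2 - l)) ≤ (l + 2) / (σ - 2 - l) := by
    refine (Real.log_le_sub_one_of_pos hq).trans ?_
    rw [← sub_nonneg]
    have e : (l + 2) / (σ - 2 - l) - (r / (σ - 2 - l) - 1) = (σ - r) / (σ - 2 - l) := by
      field_simp; ring
    rw [e]
    exact div_nonneg (by linarith) hd.le
  have e1 : (r / (σ - 2 - l)) ^ (j + 1) = Real.exp (((j + 1 : ℕ) : ℝ) * Real.log (r / (σ - 2 - l))) := by
    rw [Real.exp_nat_mul, Real.exp_log hq]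
  rw [e1, ← Real.exp_add]
  refine Real.exp_le_exp.2 ?_
  have hc : 0 ≤ (l + 2) / (σ - 2 - l) := div_nonneg (by linarith) hd.le
  have hrV : 0 ≤ r * V * (1 + δ / 2) := by positivity
  have h2 : ((j + 1 : ℕ) : ℝ) * Real.log (r / (σ - 2 - l)) ≤
      (σ * V * (1 + δ / 2) + 3) * ((l + 2) / (σ - 2 - l)) := by
    have h3 : ((j + 1 : ℕ) : ℝ) * Real.log (r / (σ - 2 - l)) ≤
        ((j + 1 : ℕ) : ℝ) * ((l + 2) / (σ - 2 - l)) :=
      mul_le_mul_of_nonneg_left hlog (by positivity)
    refine h3.trans (mul_le_mul_of_nonneg_right ?_ hc)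
    push_cast
    have : r * V * (1 + δ / 2) ≤ σ * V * (1 + δ / 2) := by gcongr
    linarith
  have h4 : σ * (1 + δ / 2) * ((l + 2) / (σ - 2 - l)) ≤ l + 15 := by
    rw [mul_div_assoc', div_le_iff₀ hd]
    have h5 : (1 + δ / 2) * (l + 2) = l + 10 + δ := by linear_combination hld / 2
    calc σ * (1 + δ / 2) * (l + 2) = σ * (l + 10 + δ) := by rw [← h5]; ring
      _ ≤ σ * (l + 11) := by
          refine mul_le_mul_of_nonneg_left (by linarith) (by linarith)
      _ ≤ (l + 15) * (σ - 2 - l) := by nlinarith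
  have h5 : 3 * ((l + 2) / (σ - 2 - l)) ≤ 1 := by
    rw [mul_div_assoc', div_le_one hd]
    nlinarith
  have h6 : (σ * V * (1 + δ / 2) + 3) * ((l + 2) / (σ - 2 - l)) =
      V * (σ * (1 + δ / 2) * ((l + 2) / (σ - 2 - l))) + 3 * ((l + 2) / (σ - 2 - l)) := by ring
  rw [h6] at h2
  have h7 : l * ((1 + δ) * V) = (l + 16) * V := by linear_combination V * hld
  rw [h7]
  nlinarith [mul_le_mul_of_nonneg_left h4 hV]

/-- the majorant outside the window -/
noncomputable def tau (δ σ V : ℝ) (j : ℕ) (u : ℝ) : ℝ :=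
  Real.exp (la δ * V) * (u ^ j * Real.exp (-((σ - 2 + la δ) * u))) +
    Real.exp (-(la δ * ((1 + δ) * V))) * (u ^ j * Real.exp (-((σ - 2 - la δ) * u)))

lemma tau_nonneg (δ σ V : ℝ) (j : ℕ) {u : ℝ} (hu : 0 < u) : 0 ≤ tau δ σ V j u := by
  unfold tau; positivity

lemma tau_ge {δ σ V : ℝ} (h0 : 0 < δ) (h1 : δ ≤ 1) (j : ℕ) {u : ℝ} (hu : 0 < u)
    (h : u < V ∨ (1 + δ) * V < u) :
    u ^ j * Real.exp (-((σ - 2) * u)) ≤ tau δ σ V j u := by
  have hl := la_ge h0 h1
  have huj : 0 ≤ u ^ j := by positivity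
  unfold tau
  rcases h with h | h
  · have h2 : u ^ j * Real.exp (-((σ - 2) * u)) ≤
        Real.exp (la δ * V) * (u ^ j * Real.exp (-((σ - 2 + la δ) * u))) := by
      rw [mul_left_comm, ← Real.exp_add]
      refine mul_le_mul_of_nonneg_left (Real.exp_le_exp.2 ?_) huj
      nlinarith
    have h3 : 0 ≤ Real.exp (-(la δ * ((1 + δ) * V))) * (u ^ j * Real.exp (-((σ - 2 - la δ) * u))) := by
      positivity
    linarith
  · have h2 : u ^ j * Real.exp (-((σ - 2) * u)) ≤
        Real.exp (-(la δ * ((1 + δ) * V))) * (u ^ j * Real.exp (-((σ - 2 - la δ) * u))) := by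
      rw [mul_left_comm, ← Real.exp_add]
      refine mul_le_mul_of_nonneg_left (Real.exp_le_exp.2 ?_) huj
      nlinarith
    have h3 : 0 ≤ Real.exp (la δ * V) * (u ^ j * Real.exp (-((σ - 2 + la δ) * u))) := by
      positivity
    linarith

lemma s0_pos {δ σ : ℝ} (h0 : 0 < δ) (h1 : δ ≤ 1) (hσ : s0 δ ≤ σ) : 0 < σ - 2 - la δ := by
  have hl := la_ge h0 h1
  unfold s0 at hσ
  nlinarith

lemma tau_int {δ σ : ℝ} (h0 : 0 < δ) (h1 : δ ≤ 1) (hσ : s0 δ ≤ σ) (V : ℝ) (j : ℕ) :
    IntegrableOn (tau δ σ V j) (Ioi 0) := by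
  have hl := la_ge h0 h1
  have h2 := s0_pos h0 h1 hσ
  exact ((gam_int j (show 0 < σ - 2 + la δ by linarith)).const_mul _).add
    ((gam_int j h2).const_mul _)

/-- the mass of the majorant -/
lemma tau_val {δ σ r V : ℝ} {j : ℕ} (P : Par δ σ r V j) :
    ∫ u in Ioi (0:ℝ), tau δ σ V j u ≤ 4 * Real.exp (-V) * (j.factorial / r ^ (j + 1)) := by
  have hlow := low_exp P
  have hhigh := high_exp P
  obtain ⟨h0, h1, hσ, hr1, hr2, hV, hj1, hj2⟩ := P
  have hl := la_ge h0 h1
  have h2 := s0_pos h0 h1 hσ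
  have h3 : 0 < σ - 2 + la δ := by linarith
  have hr : 0 < r := by have := s0_ge h0 h1; linarith
  unfold tau
  rw [integral_add ((gam_int j h3).const_mul _) ((gam_int j h2).const_mul _), integral_const_mul,
    integral_const_mul, gam_val j h3, gam_val j h2]
  have e1 : Real.exp (la δ * V) * (j.factorial / (σ - 2 + la δ) ^ (j + 1)) =
      (Real.exp (la δ * V) * (r / (σ - 2 + la δ)) ^ (j + 1)) * (j.factorial / r ^ (j + 1)) := by
    rw [div_pow]; field_simp
  have e2 : Real.exp (-(la δ * ((1 + δ) * V))) * (j.factorial / (σ - 2 - la δ) ^ (j + 1)) =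
      (Real.exp (-(la δ * ((1 + δ) * V))) * (r / (σ - 2 - la δ)) ^ (j + 1)) *
        (j.factorial / r ^ (j + 1)) := by
    rw [div_pow]; field_simp
  rw [e1, e2]
  have h4 : 0 ≤ (j.factorial : ℝ) / r ^ (j + 1) := by positivity
  have h5 : Real.exp (1 - V) ≤ 3 * Real.exp (-V) := by
    rw [sub_eq_add_neg, Real.exp_add]
    have := Real.exp_one_lt_d9
    nlinarith [Real.exp_pos (-V)]
  calc _ ≤ Real.exp (-V) * (j.factorial / r ^ (j + 1)) +
        Real.exp (1 - V) * (j.factorial / r ^ (j + 1)) :=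
        add_le_add (mul_le_mul_of_nonneg_right hlow h4) (mul_le_mul_of_nonneg_right hhigh h4)
    _ ≤ Real.exp (-V) * (j.factorial / r ^ (j + 1)) +
        (3 * Real.exp (-V)) * (j.factorial / r ^ (j + 1)) := by gcongr
    _ = _ := by ring

/-- real moments -/
noncomputable def mo (f : ℝ → ℝ) (j : ℕ) (x : ℝ) : ℝ :=
  ∫ u in Ioi (0:ℝ), f u * u ^ j * Real.exp (-(x * u))

lemma U_eq_mo (f : ℝ → ℝ) (j : ℕ) (x : ℝ) : U f j x = ((mo f j x : ℝ) : ℂ) := U_real j x

/-- one-sided bound on the window, moments -/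
lemma win_le {f : ℝ → ℝ} {B : ℝ} (h : Gw f B) {δ σ r V : ℝ} {j : ℕ} (P : Par δ σ r V j) {s : ℝ}
    (hs : |s| = 1) {θ : ℝ} (hθ : θ < σ)
    (hf : ∀ u, V ≤ u → u ≤ (1 + δ) * V → s * f u ≤ Real.exp (θ * u)) :
    s * mo f j σ ≤ j.factorial / (σ - θ) ^ (j + 1) +
      B * (4 * Real.exp (-V) * (j.factorial / r ^ (j + 1))) := by
  have hB := h.B_nonneg
  have hσ2 : 2 < σ := by have := s0_ge P.h0 P.h1; have := P.hσ; linarith
  have h1 : s * mo f j σ = ∫ u in Ioi (0:ℝ), s * (f u * u ^ j * Real.exp (-(σ * u))) := by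
    unfold mo; rw [integral_const_mul]
  rw [h1]
  have hi1 := (h.int_real j hσ2).const_mul s
  have hi2 := gam_int j (show 0 < σ - θ by linarith)
  have hi3 := (tau_int P.h0 P.h1 P.hσ V j).const_mul B
  calc ∫ u in Ioi (0:ℝ), s * (f u * u ^ j * Real.exp (-(σ * u)))
      ≤ ∫ u in Ioi (0:ℝ), (u ^ j * Real.exp (-((σ - θ) * u)) + B * tau δ σ V j u) := by
        refine setIntegral_mono_on hi1 (hi2.add hi3) measurableSet_Ioi fun u hu => ?_
        have hu' : 0 < u := hu
        have htau := tau_nonneg δ σ V j hu'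
        by_cases hw : V ≤ u ∧ u ≤ (1 + δ) * V
        · have h2 := hf u hw.1 hw.2
          have h3 : s * (f u * u ^ j * Real.exp (-(σ * u))) ≤
              Real.exp (θ * u) * (u ^ j * Real.exp (-(σ * u))) := by
            have := mul_le_mul_of_nonneg_right h2
              (show 0 ≤ u ^ j * Real.exp (-(σ * u)) by positivity)
            linarith
          have h4 : Real.exp (θ * u) * (u ^ j * Real.exp (-(σ * u))) =
              u ^ j * Real.exp (-((σ - θ) * u)) := by
            rw [mul_left_comm, ← Real.exp_add]; ring_nf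
          have h5 : 0 ≤ B * tau δ σ V j u := by positivity
          linarith
        · have hout : u < V ∨ (1 + δ) * V < u := by
            by_contra hcon
            push Not at hcon
            exact hw ⟨hcon.1, hcon.2⟩
          have h2 := tau_ge (σ := σ) P.h0 P.h1 j hu' hout
          have h3 := h.abs_le j σ hu'
          have h4 : s * (f u * u ^ j * Real.exp (-(σ * u))) ≤ |f u| * u ^ j * Real.exp (-(σ * u)) := by
            refine (le_abs_self _).trans (le_of_eq ?_)
            rw [abs_mul, hs, one_mul, abs_mul, abs_mul, abs_of_nonneg (pow_nonneg hu'.le j),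
              abs_of_pos (Real.exp_pos _)]
          have h5 : B * (u ^ j * Real.exp (-((σ - 2) * u))) ≤ B * tau δ σ V j u :=
            mul_le_mul_of_nonneg_left h2 hB
          have h6 : 0 ≤ u ^ j * Real.exp (-((σ - θ) * u)) := by positivity
          linarith
    _ = j.factorial / (σ - θ) ^ (j + 1) + B * ∫ u in Ioi (0:ℝ), tau δ σ V j u := by
        rw [integral_add hi2 hi3, integral_const_mul, gam_val j (by linarith)]
    _ ≤ _ := by
        have := mul_le_mul_of_nonneg_left (tau_val P) hB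
        linarith

/-- one-sided bound on the window, absolute moments -/
lemma win_abs {f : ℝ → ℝ} {B : ℝ} (h : Gw f B) {δ σ r V : ℝ} {j : ℕ} (P : Par δ σ r V j) {s : ℝ}
    (hs : |s| = 1) {θ : ℝ} (hθ : θ < σ)
    (hf : ∀ u, V ≤ u → u ≤ (1 + δ) * V → s * f u ≤ Real.exp (θ * u)) {z : ℂ} (hz : z.re = σ) :
    ‖U f j z‖ ≤ 2 * (j.factorial / (σ - θ) ^ (j + 1)) + |mo f j σ| +
      2 * B * (4 * Real.exp (-V) * (j.factorial / r ^ (j + 1))) := by
  have hB := h.B_nonneg
  have hσ2 : 2 < σ := by have := s0_ge P.h0 P.h1; have := P.hσ; linarith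
  refine (norm_U_le f j z).trans ?_
  rw [hz]
  have hi1 := (h.int_real j hσ2).const_mul (-s)
  have hi2 := (gam_int j (show 0 < σ - θ by linarith)).const_mul 2
  have hi3 := (tau_int P.h0 P.h1 P.hσ V j).const_mul (2 * B)
  have hi4 : IntegrableOn (fun u : ℝ => 2 * (u ^ j * Real.exp (-((σ - θ) * u))) +
      -s * (f u * u ^ j * Real.exp (-(σ * u)))) (Ioi 0) := hi2.add hi1
  calc ∫ u in Ioi (0:ℝ), |f u| * u ^ j * Real.exp (-(σ * u))
      ≤ ∫ u in Ioi (0:ℝ), ((2 * (u ^ j * Real.exp (-((σ - θ) * u))) +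
          -s * (f u * u ^ j * Real.exp (-(σ * u)))) + 2 * B * tau δ σ V j u) := by
        refine setIntegral_mono_on (h.int_abs j hσ2) (hi4.add hi3) measurableSet_Ioi
          fun u hu => ?_
        have hu' : 0 < u := hu
        have htau := tau_nonneg δ σ V j hu'
        have hsf : |f u| = |s * f u| := by rw [abs_mul, hs, one_mul]
        have hwt : 0 ≤ u ^ j * Real.exp (-(σ * u)) := by positivity
        have h4 : Real.exp (θ * u) * (u ^ j * Real.exp (-(σ * u))) =
            u ^ j * Real.exp (-((σ - θ) * u)) := by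
          rw [mul_left_comm, ← Real.exp_add]; ring_nf
        by_cases hw : V ≤ u ∧ u ≤ (1 + δ) * V
        · have h2 := hf u hw.1 hw.2
          have hpos := Real.exp_pos (θ * u)
          have h3 : |f u| ≤ 2 * Real.exp (θ * u) - s * f u := by
            rw [hsf]
            rcases abs_cases (s * f u) with ⟨h5, h6⟩ | ⟨h5, h6⟩ <;> rw [h5] <;> linarith
          have h5 : |f u| * (u ^ j * Real.exp (-(σ * u))) ≤
              (2 * Real.exp (θ * u) - s * f u) * (u ^ j * Real.exp (-(σ * u))) :=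
            mul_le_mul_of_nonneg_right h3 hwt
          have h6 : 0 ≤ 2 * B * tau δ σ V j u := by positivity
          rw [← h4]
          linarith
        · have hout : u < V ∨ (1 + δ) * V < u := by
            by_contra hcon
            push Not at hcon
            exact hw ⟨hcon.1, hcon.2⟩
          have h2 := tau_ge (σ := σ) P.h0 P.h1 j hu' hout
          have h3 := h.abs_le j σ hu'
          have h5 : B * (u ^ j * Real.exp (-((σ - 2) * u))) ≤ B * tau δ σ V j u :=
            mul_le_mul_of_nonneg_left h2 hB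
          have h6 : 0 ≤ u ^ j * Real.exp (-((σ - θ) * u)) := by positivity
          have h7 : s * f u * (u ^ j * Real.exp (-(σ * u))) ≤
              |f u| * (u ^ j * Real.exp (-(σ * u))) := by
            refine mul_le_mul_of_nonneg_right ?_ hwt
            rw [hsf]
            exact le_abs_self _
          linarith
    _ = 2 * (j.factorial / (σ - θ) ^ (j + 1)) + -s * mo f j σ +
        2 * B * ∫ u in Ioi (0:ℝ), tau δ σ V j u := by
        rw [integral_add hi4 hi3, integral_add hi2 hi1, integral_const_mul,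
          integral_const_mul, integral_const_mul, gam_val j (by linarith)]
        rfl
    _ ≤ _ := by
        have h8 := mul_le_mul_of_nonneg_left (tau_val P) (show 0 ≤ 2 * B by positivity)
        have h9 : -s * mo f j σ ≤ |mo f j σ| := by
          refine (le_abs_self _).trans (le_of_eq ?_)
          rw [abs_mul, abs_neg, hs, one_mul]
        linarith

end Pool.Agent.V8H22.BSW
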