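import Pool.Agent.V8H22.BSW.A2

/-!
# Growth of the real moments; the two cases
-/

set_option autoImplicit false
set_option maxHeartbeats 1000000

open MeasureTheory Complex Set Filter Topology Metric

namespace Pool.Agent.V8H22.BSW

variable {f : ℝ → ℝ} {B : ℝ} {Φ G : ℂ → ℂ} {η : ℝ}

/-- normalised real moments -/
noncomputable def T (f : ℝ → ℝ) (σ : ℝ) (k : ℕ) : ℝ := σ ^ (k + 1) * mo f k σ / k.factorial

lemma mo_eq {σ : ℝ} (hσ : σ ≠ 0) (k : ℕ) : mo f k σ = k.factorial * T f σ k / σ ^ (k + 1) := by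
  have : (k.factorial : ℝ) ≠ 0 := by exact_mod_cast k.factorial_ne_zero
  unfold T
  field_simp

/-- the increments of the normalised moments -/
theorem WD.inc (D : WD f B Φ G η) {σ x R : ℝ} {m : ℕ} {Φ1 : ℂ → ℂ} (hσ : 2 < σ) (hR : 0 < R)
    (hRσ : R < σ + η) (hΦ1 : Differentiable ℂ Φ1) (hfac : ∀ z, Φ z = (z - x) ^ m * Φ1 z)
    (hne : ∀ z ∈ closedBall (σ:ℂ) R, Φ1 z ≠ 0) (hx : x < σ) : ∃ M : ℝ, 0 ≤ M ∧ ∀ k : ℕ,
      |T f σ (k + 1) - T f σ k - m / (k + 1) * (σ / (σ - x)) ^ (k + 1)| ≤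
        M / (k + 1) * (σ / R) ^ k := by
  obtain ⟨M, hM, h⟩ := D.star (c := (σ:ℂ)) (z1 := (x:ℂ)) (m := m) (Φ1 := Φ1) (R := R) (by simpa using hσ)
    hR (by simpa using hRσ) hΦ1 hfac hne (by
      intro he
      exact hx.ne (by exact_mod_cast he.symm))
  refine ⟨M * σ, by nlinarith, fun k => ?_⟩
  have h1 := h k
  rw [U_eq_mo, U_eq_mo] at h1
  have e : (σ:ℂ) * ((mo f (k + 1) σ : ℝ) : ℂ) - (k + 1) * ((mo f k σ : ℝ) : ℂ) -
      m * k.factorial / ((σ:ℂ) - x) ^ (k + 1) =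
      ((σ * mo f (k + 1) σ - (k + 1) * mo f k σ - m * k.factorial / (σ - x) ^ (k + 1) : ℝ) : ℂ) := by
    push_cast; ring
  rw [e, Complex.norm_real, Real.norm_eq_abs] at h1
  have hσ0 : 0 < σ := by linarith
  have hk0 : (0:ℝ) < k.factorial := by exact_mod_cast k.factorial_pos
  have hsx : 0 < σ - x := by linarith
  have e2 : T f σ (k + 1) - T f σ k - m / (k + 1) * (σ / (σ - x)) ^ (k + 1) =
      σ ^ (k + 1) / ((k + 1) * k.factorial) *
        (σ * mo f (k + 1) σ - (k + 1) * mo f k σ - m * k.factorial / (σ - x) ^ (k + 1)) := by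
    unfold T
    rw [Nat.factorial_succ, div_pow]
    push_cast
    field_simp
    ring
  rw [e2, abs_mul, abs_of_pos (show 0 < σ ^ (k + 1) / ((k + 1) * k.factorial) by positivity)]
  calc σ ^ (k + 1) / ((k + 1) * k.factorial) * _
      ≤ σ ^ (k + 1) / ((k + 1) * k.factorial) * (M * k.factorial / R ^ k) :=
        mul_le_mul_of_nonneg_left h1 (by positivity)
    _ = M * σ / (k + 1) * (σ / R) ^ k := by
        rw [div_pow, pow_succ]
        field_simp

/-- no zeros in the disc of radius `R < σ`: the moments are at most `C k! / R ^ k` -/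
theorem WD.mo_small (D : WD f B Φ G η) {σ R : ℝ} (hσ : 2 < σ) (hR : 0 < R) (hRσ : R < σ)
    (hne : ∀ z ∈ closedBall (σ:ℂ) R, Φ z ≠ 0) : ∃ C : ℝ, 0 ≤ C ∧ ∀ k : ℕ,
      |mo f k σ| ≤ C * (k.factorial / R ^ k) := by
  obtain ⟨M, hM, h⟩ := D.inc (x := 0) (m := 0) (Φ1 := Φ) hσ hR (by linarith [D.hη]) D.hΦ
    (fun z => by simp) hne (by linarith)
  have hσ0 : 0 < σ := by linarith
  set y := σ / R with hy
  have hy1 : 1 < y := by rw [hy, one_lt_div hR]; exact hRσ
  have h1 : ∀ k : ℕ, |T f σ k| ≤ (|T f σ 0| + M / (y - 1)) * y ^ k - M / (y - 1) := by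
    intro k
    induction k with
    | zero => simp
    | succ k ih =>
      have h2 := h k
      simp only [Nat.cast_zero, zero_div, zero_mul, sub_zero] at h2
      have h3 : |T f σ (k + 1)| ≤ |T f σ k| + |T f σ (k + 1) - T f σ k| := by
        have := abs_add_le (T f σ k) (T f σ (k + 1) - T f σ k)
        rwa [add_sub_cancel] at this
      have h4 : M / (k + 1) * y ^ k ≤ M * y ^ k := by
        refine mul_le_mul_of_nonneg_right (div_le_self hM ?_) (by positivity)
        have : (0:ℝ) ≤ k := Nat.cast_nonneg k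
        linarith
      have h5 : (|T f σ 0| + M / (y - 1)) * y ^ (k + 1) =
          (|T f σ 0| + M / (y - 1)) * y ^ k + (|T f σ 0| * (y - 1) + M) * y ^ k := by
        have : y - 1 ≠ 0 := by linarith
        rw [pow_succ]
        field_simp
        ring
      have h6 : 0 ≤ |T f σ 0| * (y - 1) * y ^ k := by
        have : 0 ≤ y - 1 := by linarith
        positivity
      nlinarith
  refine ⟨(|T f σ 0| + M / (y - 1)) / σ, by
    have : 0 ≤ y - 1 := by linarith
    positivity, fun k => ?_⟩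
  have hk0 : (0:ℝ) < k.factorial := by exact_mod_cast k.factorial_pos
  rw [mo_eq hσ0.ne', abs_div, abs_mul, abs_of_pos hk0, abs_of_pos (show 0 < σ ^ (k + 1) by positivity)]
  have h7 : |T f σ k| ≤ (|T f σ 0| + M / (y - 1)) * y ^ k := by
    have h8 := h1 k
    have : 0 ≤ M / (y - 1) := div_nonneg hM (by linarith)
    linarith
  calc k.factorial * |T f σ k| / σ ^ (k + 1) ≤
      k.factorial * ((|T f σ 0| + M / (y - 1)) * y ^ k) / σ ^ (k + 1) := by gcongr
    _ = _ := by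
        rw [hy, div_pow, pow_succ]
        field_simp

/-- a zero on the real axis: the moments are large and positive -/
theorem WD.mo_large (D : WD f B Φ G η) {σ x R : ℝ} {m : ℕ} {Φ1 : ℂ → ℂ} (hσ : 2 < σ) (hR : σ - x < R)
    (hRσ : R < σ) (hΦ1 : Differentiable ℂ Φ1) (hfac : ∀ z, Φ z = (z - x) ^ m * Φ1 z) (hm : 1 ≤ m)
    (hne : ∀ z ∈ closedBall (σ:ℂ) R, Φ1 z ≠ 0) (hx : x < σ) : ∃ C : ℝ, 0 ≤ C ∧ ∀ᶠ k : ℕ in atTop,
      k.factorial / (σ - x) ^ k * (1 / (2 * σ * k)) - C * (k.factorial / σ ^ k) ≤ mo f k σ := by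
  have hsx : 0 < σ - x := by linarith
  have hR0 : 0 < R := by linarith
  obtain ⟨M, hM, h⟩ := D.inc hσ hR0 (by linarith [D.hη]) hΦ1 hfac hne hx
  have hσ0 : 0 < σ := by linarith
  set y := σ / (σ - x) with hy
  set y' := σ / R with hy'
  have hy'0 : 0 < y' := by positivity
  have hyy : y' < y := by
    rw [hy, hy']
    exact div_lt_div_of_pos_left hσ0 hsx hR
  have hy0 : 0 < y := by positivity
  -- the main term dominates
  have hlim : Tendsto (fun k : ℕ => M * (y' / y) ^ k) atTop (𝓝 (M * 0)) :=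
    (tendsto_pow_atTop_nhds_zero_of_lt_one (by positivity) (by rw [div_lt_one hy0]; exact hyy)).const_mul M
  rw [mul_zero] at hlim
  have hev : ∀ᶠ k : ℕ in atTop, M * (y' / y) ^ k < y / 2 := hlim.eventually (gt_mem_nhds (by positivity))
  obtain ⟨k0, hk0⟩ := eventually_atTop.1 hev
  have hstep : ∀ k, k0 ≤ k → T f σ k + y ^ (k + 1) / (2 * (k + 1)) ≤ T f σ (k + 1) := by
    intro k hk
    have h1 := (abs_le.1 (h k)).1
    have h2 := hk0 k hk
    have hk1 : (0:ℝ) < (k:ℝ) + 1 := by positivity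
    have h3 : M * y' ^ k ≤ y ^ (k + 1) / 2 := by
      rw [div_pow, mul_div_assoc', div_lt_iff₀ (by positivity)] at h2
      rw [pow_succ]
      linarith
    have h4 : M / (k + 1) * y' ^ k ≤ y ^ (k + 1) / (2 * (k + 1)) := by
      rw [div_mul_eq_mul_div, div_le_div_iff₀ hk1 (by positivity)]
      nlinarith
    have h5 : y ^ (k + 1) / (k + 1) ≤ m / (k + 1) * y ^ (k + 1) := by
      have : (1:ℝ) ≤ m := by exact_mod_cast hm
      rw [div_mul_eq_mul_div]
      gcongr
      exact le_mul_of_one_le_left (by positivity) this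
    have h6 : y ^ (k + 1) / (k + 1) = 2 * (y ^ (k + 1) / (2 * (k + 1))) := by field_simp
    linarith
  have hmono : ∀ k, k0 ≤ k → T f σ k0 ≤ T f σ k := by
    intro k hk
    induction k, hk using Nat.le_induction with
    | base => exact le_rfl
    | succ k hk ih =>
      have h1 := hstep k hk
      have h2 : 0 ≤ y ^ (k + 1) / (2 * ((k:ℝ) + 1)) := by positivity
      linarith
  refine ⟨|T f σ k0| / σ, by positivity, ?_⟩
  filter_upwards [eventually_ge_atTop (k0 + 1)] with k hk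
  obtain ⟨j, rfl⟩ : ∃ j, k = j + 1 := ⟨k - 1, by omega⟩
  have h1 := hstep j (by omega)
  have h2 := hmono j (by omega)
  have h3 := neg_abs_le (T f σ k0)
  have hf0 : (0:ℝ) < (j + 1).factorial := by exact_mod_cast (j + 1).factorial_pos
  rw [mo_eq (f := f) hσ0.ne' (j + 1)]
  have h4 : y ^ (j + 1) / (2 * (j + 1)) - |T f σ k0| ≤ T f σ (j + 1) := by linarith
  calc ((j + 1).factorial : ℝ) / (σ - x) ^ (j + 1) * (1 / (2 * σ * ((j + 1 : ℕ) : ℝ))) -
        |T f σ k0| / σ * ((j + 1).factorial / σ ^ (j + 1))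
      = (j + 1).factorial * (y ^ (j + 1) / (2 * (j + 1)) - |T f σ k0|) / σ ^ (j + 1 + 1) := by
        rw [hy, div_pow, pow_succ σ (j + 1)]
        push_cast
        field_simp
    _ ≤ _ := by gcongr

/-- the index belonging to `V` -/
noncomputable def kV (δ r V : ℝ) : ℕ := ⌈r * V * (1 + δ / 2)⌉₊

lemma kV_le {δ r V : ℝ} (h : 0 ≤ r * V * (1 + δ / 2)) : (kV δ r V : ℝ) ≤ r * V * (1 + δ / 2) + 1 :=
  (Nat.ceil_lt_add_one h).le

lemma kV_tendsto {δ r : ℝ} (hδ : 0 < δ) (hr : 0 < r) : Tendsto (kV δ r) atTop atTop := by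
  refine tendsto_nat_ceil_atTop.comp ?_
  have : Tendsto (fun V : ℝ => V * (r * (1 + δ / 2))) atTop atTop :=
    tendsto_id.atTop_mul_const (by positivity)
  refine this.congr fun V => by ring

lemma kV_par {δ σ r V : ℝ} (h0 : 0 < δ) (h1 : δ ≤ 1) (hσ : s0 δ ≤ σ) (hr1 : σ - 3 ≤ r) (hr2 : r ≤ σ)
    (hV : 0 ≤ V) : Par δ σ r V (kV δ r V) ∧ Par δ σ r V (kV δ r V + 1) := by
  have hr : 0 < r := by have := s0_ge h0 h1; linarith
  have hn : 0 ≤ r * V * (1 + δ / 2) := by positivity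
  have h2 := kV_le hn
  have h3 := Nat.le_ceil (r * V * (1 + δ / 2))
  refine ⟨⟨h0, h1, hσ, hr1, hr2, hV, h3, by linarith⟩, ⟨h0, h1, hσ, hr1, hr2, hV, ?_, ?_⟩⟩
  · push_cast
    unfold kV
    linarith
  · push_cast
    linarith

lemma lin_pow {q : ℝ} (h0 : 0 ≤ q) (h1 : q < 1) :
    Tendsto (fun k : ℕ => ((k:ℝ) + 1) * q ^ k) atTop (𝓝 0) := by
  have h2 := tendsto_self_mul_const_pow_of_lt_one h0 h1
  have h3 := tendsto_pow_atTop_nhds_zero_of_lt_one h0 h1
  have := h2.add h3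
  rw [add_zero] at this
  refine this.congr fun k => by ring

lemma kV_exp {δ r : ℝ} (hδ : 0 < δ) (hr : 0 < r) :
    Tendsto (fun V : ℝ => ((kV δ r V : ℝ) + 1) * Real.exp (-V)) atTop (𝓝 0) := by
  have h1 : Tendsto (fun V : ℝ => V * Real.exp (-V)) atTop (𝓝 0) := by
    have := Real.tendsto_pow_mul_exp_neg_atTop_nhds_zero 1
    simpa using this
  have h2 : Tendsto (fun V : ℝ => Real.exp (-V)) atTop (𝓝 0) := Real.tendsto_exp_neg_atTop_nhds_zero
  have h3 : Tendsto (fun V : ℝ => (r * (1 + δ / 2)) * (V * Real.exp (-V)) + 2 * Real.exp (-V)) atTop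
      (𝓝 0) := by
    have := (h1.const_mul (r * (1 + δ / 2))).add (h2.const_mul 2)
    simpa using this
  refine squeeze_zero' (Eventually.of_forall fun V => by positivity) ?_ h3
  filter_upwards [eventually_ge_atTop 0] with V hV
  have hn : 0 ≤ r * V * (1 + δ / 2) := by positivity
  have := kV_le hn
  calc ((kV δ r V : ℝ) + 1) * Real.exp (-V) ≤ (r * V * (1 + δ / 2) + 2) * Real.exp (-V) :=
        mul_le_mul_of_nonneg_right (by linarith) (Real.exp_pos _).le
    _ = _ := by ring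

/-- **Case A**: a zero near the line, no real zeros nearby. -/
theorem WD.caseA (D : WD f B Φ G η) {δ : ℝ} (h0 : 0 < δ) (h1 : δ ≤ 1) {s : ℝ} (hs : |s| = 1)
    {c z1 : ℂ} {m : ℕ} {Φ1 : ℂ → ℂ} {r R R' θ : ℝ} (hc : s0 δ ≤ c.re) (hr : ‖c - z1‖ = r)
    (hr1 : c.re - 3 ≤ r) (hr2 : r ≤ c.re) (hR : r < R) (hRc : R < c.re + η)
    (hΦ1 : Differentiable ℂ Φ1) (hfac : ∀ z, Φ z = (z - z1) ^ m * Φ1 z) (hm : 1 ≤ m)
    (hne : ∀ z ∈ closedBall c R, Φ1 z ≠ 0)
    (hR' : r < R') (hRc' : R' < c.re) (hne' : ∀ z ∈ closedBall (c.re:ℂ) R', Φ z ≠ 0)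
    (hθ : r < c.re - θ) :
    ∀ᶠ V : ℝ in atTop, ∃ v, V ≤ v ∧ v ≤ (1 + δ) * V ∧ Real.exp (θ * v) < s * f v := by
  have hc276 := (s0_ge h0 h1).trans hc
  have hr0 : 0 < r := by linarith
  have hc2 : 2 < c.re := by linarith
  have hB := D.gw.B_nonneg
  have hcz : c ≠ z1 := by
    intro h
    rw [h, sub_self, norm_zero] at hr
    linarith
  obtain ⟨M, hM, hstar⟩ := D.star (m := m) hc2 (by linarith) hRc hΦ1 hfac hne hcz
  obtain ⟨C, hC, hsm⟩ := D.mo_small hc2 (by linarith) hRc' hne'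
  set ρ := c.re - θ with hρ
  have hρ0 : 0 < ρ := by linarith
  have hRp : 0 < R := by linarith
  have hRp' : 0 < R' := by linarith
  set L := ‖c‖ + 1 with hL
  have hL0 : 0 < L := by positivity
  -- the limit
  have hk := kV_tendsto h0 hr0
  have t1 := (lin_pow (q := r / R) (by positivity) (by rw [div_lt_one (by linarith)]; exact hR)).comp hk
  have t2 := (lin_pow (q := r / ρ) (by positivity) (by rw [div_lt_one hρ0]; exact hθ)).comp hk
  have t3 := (lin_pow (q := r / R') (by positivity) (by rw [div_lt_one (by linarith)]; exact hR')).comp hk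
  have t4 := kV_exp h0 hr0
  have t5 := (((t1.const_mul (M * r)).add (t2.const_mul (2 * L * (r / ρ) * (1 + 1 / ρ)))).add
    (t3.const_mul (C * L * r * (1 + 1 / R')))).add (t4.const_mul (8 * B * L * (1 + 1 / r)))
  simp only [mul_zero, add_zero] at t5
  filter_upwards [t5.eventually (gt_mem_nhds one_pos), eventually_ge_atTop 0] with V hV1 hV0
  by_contra hcon
  push Not at hcon
  have hf : ∀ u, V ≤ u → u ≤ (1 + δ) * V → s * f u ≤ Real.exp (θ * u) := fun u a b => hcon u a b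
  obtain ⟨P1, P2⟩ := kV_par h0 h1 hc hr1 hr2 hV0
  set k := kV δ r V with hkdef
  have hθ' : θ < c.re := by linarith
  have a1 := win_abs D.gw P1 hs hθ' hf (z := c) rfl
  have a2 := win_abs D.gw P2 hs hθ' hf (z := c) rfl
  have b1 := hsm k
  have b2 := hsm (k + 1)
  have hkf : (0:ℝ) < k.factorial := by exact_mod_cast k.factorial_pos
  have hR0 : 0 < R := by linarith
  have hR'0 : 0 < R' := by linarith
  have c1 : ‖U f k c‖ ≤ k.factorial * (2 / ρ ^ (k + 1) + C / R' ^ k +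
      8 * B * Real.exp (-V) / r ^ (k + 1)) := by
    refine (a1.trans (add_le_add (add_le_add le_rfl b1) le_rfl)).trans (le_of_eq ?_)
    rw [← hρ]
    field_simp
    ring
  have c2 : ‖U f (k + 1) c‖ ≤ (k + 1) * k.factorial * (2 / ρ ^ (k + 2) + C / R' ^ (k + 1) +
      8 * B * Real.exp (-V) / r ^ (k + 2)) := by
    refine (a2.trans (add_le_add (add_le_add le_rfl b2) le_rfl)).trans (le_of_eq ?_)
    rw [← hρ, Nat.factorial_succ]
    push_cast
    field_simp
    ring
  have d1 : (m * k.factorial / r ^ (k + 1) : ℝ) ≤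
      ‖c‖ * ‖U f (k + 1) c‖ + (k + 1) * ‖U f k c‖ + M * k.factorial / R ^ k := by
    have e1 : ‖(m * k.factorial / (c - z1) ^ (k + 1) : ℂ)‖ = m * k.factorial / r ^ (k + 1) := by
      rw [norm_div, norm_mul, norm_pow, hr, Complex.norm_natCast, Complex.norm_natCast]
    rw [← e1]
    have e2 : (m * k.factorial / (c - z1) ^ (k + 1) : ℂ) = c * U f (k + 1) c - (k + 1) * U f k c -
        (c * U f (k + 1) c - (k + 1) * U f k c - m * k.factorial / (c - z1) ^ (k + 1)) := by ring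
    rw [e2]
    refine (norm_sub_le _ _).trans (add_le_add ((norm_sub_le _ _).trans (add_le_add ?_ ?_)) (hstar k))
    · rw [norm_mul]
    · rw [norm_mul]
      refine le_of_eq ?_
      congr 1
      have : ((k:ℂ) + 1) = ((k + 1 : ℕ) : ℂ) := by push_cast; ring
      rw [this, Complex.norm_natCast]
      push_cast
      ring
  have hm1 : (1:ℝ) ≤ m := by exact_mod_cast hm
  have d2 : (1:ℝ) ≤ r ^ (k + 1) / k.factorial *
      (‖c‖ * ‖U f (k + 1) c‖ + (k + 1) * ‖U f k c‖ + M * k.factorial / R ^ k) := by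
    calc (1:ℝ) ≤ m := hm1
      _ = r ^ (k + 1) / k.factorial * (m * k.factorial / r ^ (k + 1)) := by field_simp
      _ ≤ _ := mul_le_mul_of_nonneg_left d1 (by positivity)
  have hk1 : (0:ℝ) ≤ (k:ℝ) + 1 := by positivity
  set E0 := 2 / ρ ^ (k + 1) + C / R' ^ k + 8 * B * Real.exp (-V) / r ^ (k + 1) with hE0
  set E1 := 2 / ρ ^ (k + 2) + C / R' ^ (k + 1) + 8 * B * Real.exp (-V) / r ^ (k + 2) with hE1
  have hE00 : 0 ≤ E0 := by positivity
  have hE10 : 0 ≤ E1 := by positivity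
  have d3 : r ^ (k + 1) / k.factorial *
      (‖c‖ * ‖U f (k + 1) c‖ + (k + 1) * ‖U f k c‖ + M * k.factorial / R ^ k) ≤
      (k + 1) * (L * r ^ (k + 1) * (E0 + E1)) + M * r * (r / R) ^ k := by
    calc r ^ (k + 1) / k.factorial *
          (‖c‖ * ‖U f (k + 1) c‖ + (k + 1) * ‖U f k c‖ + M * k.factorial / R ^ k)
        ≤ r ^ (k + 1) / k.factorial * (‖c‖ * ((k + 1) * k.factorial * E1) +
          (k + 1) * (k.factorial * E0) + M * k.factorial / R ^ k) := by gcongr
      _ = (k + 1) * (r ^ (k + 1) * (‖c‖ * E1 + E0)) + M * r * (r / R) ^ k := by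
          rw [div_pow, pow_succ r k]
          field_simp
      _ ≤ (k + 1) * (L * r ^ (k + 1) * (E0 + E1)) + M * r * (r / R) ^ k := by
          have hcn : 0 ≤ ‖c‖ := norm_nonneg c
          have : ‖c‖ * E1 + E0 ≤ L * (E0 + E1) := by rw [hL]; nlinarith
          have h5 : r ^ (k + 1) * (‖c‖ * E1 + E0) ≤ L * r ^ (k + 1) * (E0 + E1) := by
            calc r ^ (k + 1) * (‖c‖ * E1 + E0) ≤ r ^ (k + 1) * (L * (E0 + E1)) :=
                  mul_le_mul_of_nonneg_left this (by positivity)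
              _ = _ := by ring
          have h6 := mul_le_mul_of_nonneg_left h5 hk1
          linarith
  have d4 : L * r ^ (k + 1) * (E0 + E1) = 2 * L * (r / ρ) * (1 + 1 / ρ) * (r / ρ) ^ k +
      C * L * r * (1 + 1 / R') * (r / R') ^ k + 8 * B * L * (1 + 1 / r) * Real.exp (-V) := by
    rw [hE0, hE1, div_pow, div_pow, pow_succ r k, pow_succ ρ k, pow_succ R' k]
    rw [show k + 2 = k + 1 + 1 by ring, pow_succ ρ (k + 1), pow_succ r (k + 1), pow_succ ρ k, pow_succ r k]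
    field_simp
    ring
  rw [d4] at d3
  have d5 : M * r * (r / R) ^ k ≤ (k + 1) * (M * r * (r / R) ^ k) := by
    refine le_mul_of_one_le_left (by positivity) ?_
    have : (0:ℝ) ≤ k := Nat.cast_nonneg k
    linarith
  have d6 := d2.trans d3
  simp only [Function.comp] at hV1
  rw [← hkdef] at hV1
  nlinarith

/-- **Case B**: a real zero. -/
theorem WD.caseB (D : WD f B Φ G η) {δ : ℝ} (h0 : 0 < δ) (h1 : δ ≤ 1)
    {σ x R θ : ℝ} {m : ℕ} {Φ1 : ℂ → ℂ} (hσ : s0 δ ≤ σ) (hx3 : x ≤ 3)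
    (hR : σ - x < R) (hRσ : R < σ) (hΦ1 : Differentiable ℂ Φ1)
    (hfac : ∀ z, Φ z = (z - x) ^ m * Φ1 z) (hm : 1 ≤ m)
    (hne : ∀ z ∈ closedBall (σ:ℂ) R, Φ1 z ≠ 0) (hθ : θ < x) :
    ∀ᶠ V : ℝ in atTop, ∃ v, V ≤ v ∧ v ≤ (1 + δ) * V ∧ Real.exp (θ * v) < f v := by
  have hc276 := (s0_ge h0 h1).trans hσ
  have hx : x < σ := by linarith
  set r := σ - x with hr
  have hr0 : 0 < r := by linarith
  have hB := D.gw.B_nonneg
  obtain ⟨C, hC, hlarge⟩ := D.mo_large (by linarith) hR hRσ hΦ1 hfac hm hne hx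
  set ρ := σ - θ with hρ
  have hrρ : r < ρ := by linarith
  have hρ0 : 0 < ρ := by linarith
  have hσ0 : 0 < σ := by linarith
  have hk := kV_tendsto h0 hr0
  have t1 := (lin_pow (q := r / ρ) (by positivity) (by rw [div_lt_one hρ0]; exact hrρ)).comp hk
  have t2 := (lin_pow (q := r / σ) (by positivity) (by rw [div_lt_one hσ0]; linarith)).comp hk
  have t4 := kV_exp h0 hr0
  have t5 := ((t1.const_mul (2 * σ / ρ)).add (t2.const_mul (2 * σ * C))).add
    (t4.const_mul (8 * σ * B / r))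
  simp only [mul_zero, add_zero] at t5
  filter_upwards [t5.eventually (gt_mem_nhds one_pos), eventually_ge_atTop 0,
    hk.eventually hlarge, hk.eventually_ge_atTop 1] with V hV1 hV0 hV2 hV3
  by_contra hcon
  push Not at hcon
  obtain ⟨P1, -⟩ := kV_par h0 h1 hσ (show σ - 3 ≤ r by linarith) (show r ≤ σ by linarith) hV0
  have a1 := win_le D.gw P1 (s := 1) (by simp) (show θ < σ by linarith)
    (fun u a b => by rw [one_mul]; exact hcon u a b)
  set k := kV δ r V with hkdef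
  rw [one_mul, ← hρ] at a1
  have hkf : (0:ℝ) < k.factorial := by exact_mod_cast k.factorial_pos
  have hk1 : (1:ℝ) ≤ k := by exact_mod_cast hV3
  have hk0 : (0:ℝ) < k := by linarith
  have d1 : (k.factorial : ℝ) / r ^ k * (1 / (2 * σ * k)) ≤ k.factorial / ρ ^ (k + 1) +
      B * (4 * Real.exp (-V) * (k.factorial / r ^ (k + 1))) + C * (k.factorial / σ ^ k) := by
    linarith
  have d2 : (1:ℝ) ≤ r ^ k / k.factorial * (2 * σ * k) * (k.factorial / ρ ^ (k + 1) +
      B * (4 * Real.exp (-V) * (k.factorial / r ^ (k + 1))) + C * (k.factorial / σ ^ k)) := by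
    calc (1:ℝ) = r ^ k / k.factorial * (2 * σ * k) * (k.factorial / r ^ k * (1 / (2 * σ * k))) := by
          field_simp
      _ ≤ _ := mul_le_mul_of_nonneg_left d1 (by positivity)
  have d3 : r ^ k / k.factorial * (2 * σ * k) * (k.factorial / ρ ^ (k + 1) +
      B * (4 * Real.exp (-V) * (k.factorial / r ^ (k + 1))) + C * (k.factorial / σ ^ k)) =
      k * (2 * σ / ρ * (r / ρ) ^ k + 2 * σ * C * (r / σ) ^ k + 8 * σ * B / r * Real.exp (-V)) := by
    rw [div_pow, div_pow, pow_succ ρ k, pow_succ r k]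
    field_simp
    ring
  rw [d3] at d2
  have hE : 0 ≤ 2 * σ / ρ * (r / ρ) ^ k + 2 * σ * C * (r / σ) ^ k + 8 * σ * B / r * Real.exp (-V) := by
    positivity
  simp only [Function.comp] at hV1
  rw [← hkdef] at hV1
  nlinarith

end Pool.Agent.V8H22.BSW
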