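import Pool.Agent.V8H22.BSW.A3

/-!
# The position of the zeros, and the theorem on large values in windows
-/

set_option autoImplicit false
set_option maxHeartbeats 1000000

open MeasureTheory Complex Set Filter Topology Metric

namespace Pool.Agent.V8H22.BSW

lemma enat_cancel (n : ℕ) (x : ℕ∞) (h : 1 + (n:ℕ∞) = 1 + x) : x = n := by
  have h1 : x ≠ ⊤ := by
    rintro rfl
    have : (1:ℕ∞) + n ≠ ⊤ := by
      have : ((1 + n : ℕ) : ℕ∞) ≠ ⊤ := ENat.coe_ne_top _
      simpa using this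
    exact this (by rw [h]; simp)
  obtain ⟨k, rfl⟩ := ENat.ne_top_iff_exists.1 h1
  have h2 : ((1 + n : ℕ) : ℕ∞) = ((1 + k : ℕ) : ℕ∞) := by push_cast; exact h
  have h3 : 1 + n = 1 + k := by exact_mod_cast h2
  have : k = n := by omega
  rw [this]

/-- factorisation at a point -/
theorem exists_fac (z1 : ℂ) : ∀ (n : ℕ) (Φ : ℂ → ℂ), Differentiable ℂ Φ → analyticOrderAt Φ z1 = n →
    ∃ Φ1 : ℂ → ℂ, Differentiable ℂ Φ1 ∧ (∀ z, Φ z = (z - z1) ^ n * Φ1 z) ∧ Φ1 z1 ≠ 0 := by
  intro n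
  induction n with
  | zero =>
    intro Φ hΦ h
    refine ⟨Φ, hΦ, fun z => by simp, ?_⟩
    have h2 := (hΦ.analyticAt z1).analyticOrderAt_eq_zero
    exact h2.1 (by simpa using h)
  | succ n ih =>
    intro Φ hΦ h
    have hz : Φ z1 = 0 := by
      by_contra hne
      have h2 := (hΦ.analyticAt z1).analyticOrderAt_eq_zero.2 hne
      rw [h2] at h
      have : (0:ℕ∞) ≠ ((n + 1 : ℕ) : ℕ∞) := by
        intro h3
        have : (0:ℕ) = n + 1 := by exact_mod_cast h3
        omega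
      exact this h
    have hd : Differentiable ℂ (dslope Φ z1) := by
      rw [← differentiableOn_univ]
      exact (Complex.differentiableOn_dslope univ_mem).2 hΦ.differentiableOn
    have hf : ∀ z, Φ z = (z - z1) * dslope Φ z1 z := by
      intro z
      have := sub_smul_dslope Φ z1 z
      rw [smul_eq_mul, hz, sub_zero] at this
      exact this.symm
    have ho : analyticOrderAt (dslope Φ z1) z1 = n := by
      have h2 : Φ = (fun z => z - z1) * dslope Φ z1 := funext hf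
      have h3 : analyticOrderAt Φ z1 = analyticOrderAt (fun z : ℂ => z - z1) z1 +
          analyticOrderAt (dslope Φ z1) z1 := by
        conv_lhs => rw [h2]
        exact analyticOrderAt_mul (by fun_prop) (hd.analyticAt z1)
      have h4 : analyticOrderAt (fun z : ℂ => z - z1) z1 = 1 := by
        have h5 : AnalyticAt ℂ (fun z : ℂ => z - z1) z1 := by fun_prop
        have h6 : analyticOrderAt (fun z : ℂ => z - z1) z1 = ((1:ℕ) : ℕ∞) := by
          rw [h5.analyticOrderAt_eq_natCast]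
          exact ⟨fun _ => 1, analyticAt_const, one_ne_zero, Eventually.of_forall fun z => by simp⟩
        simpa using h6
      rw [h, h4] at h3
      have h7 : ((n + 1 : ℕ) : ℕ∞) = 1 + (n : ℕ∞) := by push_cast; ring
      rw [h7] at h3
      exact enat_cancel n _ h3
    obtain ⟨Φ1, h1, h2, h3⟩ := ih _ hd ho
    refine ⟨Φ1, h1, fun z => ?_, h3⟩
    rw [hf z, h2 z, pow_succ]
    ring

/-- an entire function vanishing near a point vanishes -/
lemma zero_of_ev {Φ : ℂ → ℂ} (hΦ : Differentiable ℂ Φ) {z : ℂ} (h : ∀ᶠ w in 𝓝 z, Φ w = 0) (w : ℂ) :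
    Φ w = 0 := by
  have h1 : AnalyticOnNhd ℂ Φ univ := hΦ.differentiableOn.analyticOnNhd isOpen_univ
  exact h1.eqOn_zero_of_preconnected_of_eventuallyEq_zero isPreconnected_univ (mem_univ z) h (mem_univ w)

theorem exists_fac' {Φ : ℂ → ℂ} (hΦ : Differentiable ℂ Φ) {z2 : ℂ} (h2 : Φ z2 ≠ 0) (z1 : ℂ) :
    ∃ m : ℕ, ∃ Φ1 : ℂ → ℂ, Differentiable ℂ Φ1 ∧ (∀ z, Φ z = (z - z1) ^ m * Φ1 z) ∧ Φ1 z1 ≠ 0 ∧
      (Φ z1 = 0 → 1 ≤ m) := by
  have hne : analyticOrderAt Φ z1 ≠ ⊤ := by
    intro htop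
    rw [analyticOrderAt_eq_top] at htop
    exact h2 (zero_of_ev hΦ htop z2)
  obtain ⟨n, hn⟩ := ENat.ne_top_iff_exists.1 hne
  obtain ⟨Φ1, h3, h4, h5⟩ := exists_fac z1 n Φ hΦ hn.symm
  refine ⟨n, Φ1, h3, h4, h5, fun h0 => ?_⟩
  by_contra hn0
  have : n = 0 := by omega
  subst this
  rw [h4 z1, pow_zero, one_mul] at h0
  exact h5 h0

/-- a little room beyond the radius `r` -/
lemma room {h : ℂ → ℂ} (hc : Continuous h) {c : ℂ} {r b : ℝ} (hrb : r < b)
    (hz : ∀ w, h w = 0 → r < ‖w - c‖) :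
    ∃ R, r < R ∧ R < b ∧ ∀ z ∈ closedBall c R, h z ≠ 0 := by
  set K : Set ℂ := closedBall c b ∩ h ⁻¹' {0} with hK
  have hKc : IsCompact K := (isCompact_closedBall c b).inter_right (isClosed_singleton.preimage hc)
  rcases K.eq_empty_or_nonempty with he | hne
  · refine ⟨(r + b) / 2, by linarith, by linarith, fun z hz1 hz2 => ?_⟩
    have : z ∈ K := ⟨closedBall_subset_closedBall (by linarith) hz1, hz2⟩
    rw [he] at this
    exact this
  · obtain ⟨w, hw, hmin⟩ := hKc.exists_isMinOn hne (f := fun w => ‖w - c‖)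
      (by fun_prop : Continuous fun w : ℂ => ‖w - c‖).continuousOn
    have h1 := hz w hw.2
    have h2 : ‖w - c‖ ≤ b := by
      have := hw.1
      rwa [mem_closedBall, dist_eq_norm] at this
    refine ⟨(r + ‖w - c‖) / 2, by linarith, by linarith, fun z hz1 hz2 => ?_⟩
    rw [mem_closedBall, dist_eq_norm] at hz1
    have h3 : z ∈ K := by
      refine ⟨?_, hz2⟩
      rw [mem_closedBall, dist_eq_norm]
      linarith
    have h4 : ‖w - c‖ ≤ ‖z - c‖ := hmin h3
    linarith

/-- a nearest zero -/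
lemma nearest {h : ℂ → ℂ} (hc : Continuous h) (c : ℂ) {z1 : ℂ} (hz : h z1 = 0) :
    ∃ z', h z' = 0 ∧ ‖z' - c‖ ≤ ‖z1 - c‖ ∧ ∀ w, h w = 0 → ‖z' - c‖ ≤ ‖w - c‖ := by
  set K : Set ℂ := closedBall c ‖z1 - c‖ ∩ h ⁻¹' {0} with hK
  have hKc : IsCompact K := (isCompact_closedBall c _).inter_right (isClosed_singleton.preimage hc)
  have h1 : z1 ∈ K := ⟨by rw [mem_closedBall, dist_eq_norm], hz⟩
  obtain ⟨w, hw, hmin⟩ := hKc.exists_isMinOn ⟨z1, h1⟩ (f := fun w => ‖w - c‖)
    (by fun_prop : Continuous fun w : ℂ => ‖w - c‖).continuousOn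
  refine ⟨w, hw.2, hmin h1, fun z hz2 => ?_⟩
  by_cases h3 : ‖z - c‖ ≤ ‖z1 - c‖
  · exact hmin ⟨by rw [mem_closedBall, dist_eq_norm]; exact h3, hz2⟩
  · push Not at h3
    exact (hmin h1).trans h3.le

/-- moving the centre towards a nearest zero makes it the unique nearest zero -/
lemma perturb {a b : ℂ} {t : ℝ} (ht0 : 0 < t) (ht1 : t < 1) (hab : ‖a‖ ≤ ‖b‖) (hne : b ≠ a) :
    (1 - t) * ‖a‖ < ‖b - t * a‖ := by
  by_contra hcon
  push Not at hcon
  have h1 : ‖b - t * a‖ ^ 2 ≤ ((1 - t) * ‖a‖) ^ 2 := pow_le_pow_left₀ (norm_nonneg _) hcon 2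
  have h2 : ‖a‖ ^ 2 ≤ ‖b‖ ^ 2 := pow_le_pow_left₀ (norm_nonneg _) hab 2
  rw [mul_pow, Complex.sq_norm, Complex.sq_norm, Complex.normSq_apply, Complex.normSq_apply] at h1
  rw [Complex.sq_norm, Complex.sq_norm, Complex.normSq_apply, Complex.normSq_apply] at h2
  simp only [sub_re, mul_re, ofReal_re, ofReal_im, sub_im, mul_im, zero_mul, sub_zero, add_zero] at h1
  have h3 : t * ((b.re - a.re) ^ 2 + (b.im - a.im) ^ 2) ≤ 0 := by
    nlinarith
  have h4 : (b.re - a.re) ^ 2 + (b.im - a.im) ^ 2 ≤ 0 := by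
    by_contra h5
    push Not at h5
    have := mul_pos ht0 h5
    linarith
  apply hne
  have h6 : (b.re - a.re) ^ 2 = 0 := by nlinarith [sq_nonneg (b.re - a.re), sq_nonneg (b.im - a.im)]
  have h7 : (b.im - a.im) ^ 2 = 0 := by nlinarith [sq_nonneg (b.re - a.re), sq_nonneg (b.im - a.im)]
  apply Complex.ext
  · have := pow_eq_zero_iff (two_ne_zero) |>.1 h6; linarith
  · have := pow_eq_zero_iff (two_ne_zero) |>.1 h7; linarith

/-- non-real zeros stay away from a compact piece of the real axis -/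
lemma gap {Φ : ℂ → ℂ} (hΦ : Differentiable ℂ Φ) {z2 : ℂ} (h2 : Φ z2 ≠ 0) (x y : ℝ) :
    ∃ γ : ℝ, 0 < γ ∧ ∀ z, Φ z = 0 → x ≤ z.re → z.re ≤ y → z.im ≠ 0 → γ ≤ |z.im| := by
  set K0 : Set ℂ := Icc x y ×ℂ Icc (-1) 1 with hK0
  have hK0c : IsCompact K0 := isCompact_Icc.reProdIm isCompact_Icc
  set Z' : Set ℂ := {z | z ∈ K0 ∧ Φ z = 0 ∧ z.im ≠ 0} with hZ'
  have hcl : IsClosed Z' := by
    rw [← closure_subset_iff_isClosed]
    intro z hz
    have hK : z ∈ K0 := by
      have h3 : closure Z' ⊆ K0 := closure_minimal (fun w hw => hw.1) hK0c.isClosed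
      exact h3 hz
    have hz0 : Φ z = 0 := by
      have h3 : closure Z' ⊆ Φ ⁻¹' {0} :=
        closure_minimal (fun w hw => hw.2.1) (isClosed_singleton.preimage hΦ.continuous)
      exact h3 hz
    refine ⟨hK, hz0, fun him => ?_⟩
    have h3 : ∃ᶠ w in 𝓝 z, w ∈ Z' := mem_closure_iff_frequently.1 hz
    have h4 : ∃ᶠ w in 𝓝[≠] z, Φ w = 0 := by
      rw [frequently_nhdsWithin_iff]
      refine h3.mono fun w hw => ⟨hw.2.1, ?_⟩
      intro h5
      have h6 : w = z := h5
      exact hw.2.2 (by rw [h6, him])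
    exact h2 (zero_of_ev hΦ ((hΦ.analyticAt z).frequently_zero_iff_eventually_zero.1 h4) z2)
  have hZc : IsCompact Z' := hK0c.of_isClosed_subset hcl fun w hw => hw.1
  have key : ∀ z, Φ z = 0 → x ≤ z.re → z.re ≤ y → z.im ≠ 0 → |z.im| ≤ 1 → z ∈ Z' := by
    intro z h3 h4 h5 h6 h7
    refine ⟨?_, h3, h6⟩
    rw [hK0, Complex.mem_reProdIm]
    exact ⟨⟨h4, h5⟩, abs_le.1 h7⟩
  rcases Z'.eq_empty_or_nonempty with he | hne
  · refine ⟨1, one_pos, fun z h3 h4 h5 h6 => ?_⟩
    by_contra h7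
    push Not at h7
    have := key z h3 h4 h5 h6 h7.le
    rw [he] at this
    exact this
  · obtain ⟨w, hw, hmin⟩ := hZc.exists_isMinOn hne (f := fun w => |w.im|)
      (by fun_prop : Continuous fun w : ℂ => |w.im|).continuousOn
    refine ⟨min 1 |w.im|, lt_min one_pos (abs_pos.2 hw.2.2), fun z h3 h4 h5 h6 => ?_⟩
    by_cases h7 : |z.im| ≤ 1
    · exact (min_le_right _ _).trans (hmin (key z h3 h4 h5 h6 h7))
    · push Not at h7
      exact (min_le_left _ _).trans h7.le

variable {f : ℝ → ℝ} {B : ℝ} {Φ G : ℂ → ℂ} {η : ℝ}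

/-- **Large values in windows.** If `Φ` has a zero `z0` with `Re z0 > 0`, then `s f(v) > exp((Re z0 - ε) v)` for
some `v` in each window `[V, (1 + δ) V]`; for `s = -1` it is assumed that there are no real zeros. -/
theorem WD.large (D : WD f B Φ G η) {δ : ℝ} (h0 : 0 < δ) (h1 : δ ≤ 1) {s : ℝ}
    (hs : s = 1 ∨ (s = -1 ∧ ∀ x : ℝ, 0 < x → Φ x ≠ 0)) {z0 : ℂ} (hz0 : Φ z0 = 0) (hz0r : 0 < z0.re)
    {ε : ℝ} (hε : 0 < ε) :
    ∀ᶠ V : ℝ in atTop, ∃ v, V ≤ v ∧ v ≤ (1 + δ) * V ∧ Real.exp ((z0.re - ε) * v) < s * f v := by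
  have hΦc := D.hΦ.continuous
  have hle2 : ∀ z, Φ z = 0 → z.re ≤ 2 := by
    intro z hz
    by_contra h
    push Not at h
    exact D.ne_zero h hz
  have h3ne : Φ 3 ≠ 0 := D.ne_zero (by norm_num)
  have hsabs : |s| = 1 := by rcases hs with rfl | ⟨rfl, -⟩ <;> simp
  -- the supremum of the real parts
  set S : Set ℝ := {x | ∃ z, Φ z = 0 ∧ z.re = x} with hS
  have hSne : S.Nonempty := ⟨z0.re, z0, hz0, rfl⟩
  have hSb : BddAbove S := ⟨2, by rintro x ⟨z, hz, rfl⟩; exact hle2 z hz⟩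
  set β := sSup S with hβ
  have hβle : ∀ z, Φ z = 0 → z.re ≤ β := fun z hz => le_csSup hSb ⟨z, hz, rfl⟩
  have hβ0 : 0 < β := lt_of_lt_of_le hz0r (hβle z0 hz0)
  have hβ2 : β ≤ 2 := csSup_le hSne (by rintro x ⟨z, hz, rfl⟩; exact hle2 z hz)
  -- parameters
  set σ := s0 δ + 10 with hσ
  have hσ276 : 286 ≤ σ := by have := s0_ge h0 h1; linarith
  obtain ⟨γ, hγ, hgap⟩ := gap D.hΦ h3ne (β / 2) 2
  set ξ : ℝ := min (min (β / 2) 1) (min ε (γ ^ 2 / (4 * σ))) with hξ
  have hξ0 : 0 < ξ := by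
    refine lt_min (lt_min (by linarith) one_pos) (lt_min hε (by positivity))
  have hξ1 : ξ ≤ β / 2 := (min_le_left _ _).trans (min_le_left _ _)
  have hξ2 : ξ ≤ 1 := (min_le_left _ _).trans (min_le_right _ _)
  have hξ3 : ξ ≤ ε := (min_le_right _ _).trans (min_le_left _ _)
  have hξ4 : ξ ≤ γ ^ 2 / (4 * σ) := (min_le_right _ _).trans (min_le_right _ _)
  have hξ5 : 4 * σ * ξ ≤ γ ^ 2 := by
    rw [le_div_iff₀ (by positivity)] at hξ4
    linarith
  -- distance of the non-real zeros from `σ`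
  have hdist : ∀ w : ℂ, Φ w = 0 → w.im ≠ 0 → σ - β + ξ < ‖w - σ‖ := by
    intro w hw him
    have hre : (w - (σ:ℂ)).re = w.re - σ := by simp
    have him' : (w - (σ:ℂ)).im = w.im := by simp
    have hwβ := hβle w hw
    rcases lt_or_ge w.re (β / 2) with h2 | h2
    · have h3 := Complex.abs_re_le_norm (w - σ)
      rw [hre, abs_of_neg (by linarith)] at h3
      linarith
    · have h3 := hgap w hw h2 (hle2 w hw) him
      have h4 : (σ - β + ξ) ^ 2 < ‖w - σ‖ ^ 2 := by
        rw [Complex.sq_norm, Complex.normSq_apply, hre, him']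
        have h5 : γ ^ 2 ≤ w.im * w.im := by
          rw [← abs_mul_abs_self w.im]
          nlinarith [abs_nonneg w.im]
        have h6 : (σ - β) ^ 2 ≤ (w.re - σ) * (w.re - σ) := by nlinarith
        nlinarith
      exact lt_of_pow_lt_pow_left₀ 2 (norm_nonneg _) h4
  by_cases hB : s = 1 ∧ ∃ x0 : ℝ, β - ξ < x0 ∧ Φ x0 = 0
  · -- case B
    obtain ⟨rfl, x0, hx0, hx0z⟩ := hB
    set K : Set ℝ := Icc x0 2 ∩ (fun x : ℝ => Φ x) ⁻¹' {0} with hK
    have hKc : IsCompact K := isCompact_Icc.inter_right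
      (isClosed_singleton.preimage (hΦc.comp Complex.continuous_ofReal))
    have hx02 : x0 ≤ 2 := by simpa using hle2 x0 hx0z
    have hKne : K.Nonempty := ⟨x0, ⟨le_rfl, hx02⟩, hx0z⟩
    obtain ⟨x, hxK, hxmax⟩ := hKc.exists_isGreatest hKne
    have hxx0 : x0 ≤ x := hxK.1.1
    have hx2 : x ≤ 2 := hxK.1.2
    have hxz : Φ x = 0 := hxK.2
    have hxpos : 0 < x := by linarith
    obtain ⟨m, Φ1, hΦ1, hfac, hne1, hm⟩ := exists_fac' D.hΦ h3ne (x:ℂ)
    have hfar : ∀ w, Φ1 w = 0 → σ - x < ‖w - σ‖ := by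
      intro w hw
      have hwz : Φ w = 0 := by rw [hfac w, hw, mul_zero]
      have hwx : w ≠ x := fun h => hne1 (by rw [← h]; exact hw)
      by_cases him : w.im = 0
      · have hwre : w = (w.re : ℂ) := Complex.ext (by simp) (by simp [him])
        have h2 : w.re < x := by
          by_contra h3
          push Not at h3
          have h4 : w.re ∈ K := ⟨⟨by linarith, hle2 w hwz⟩, by
            show Φ (w.re : ℂ) = 0
            rw [← hwre]; exact hwz⟩
          have h5 : w.re = x := le_antisymm (hxmax h4) h3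
          exact hwx (by rw [hwre, h5])
        have h3 := Complex.abs_re_le_norm (w - σ)
        have hre : (w - (σ:ℂ)).re = w.re - σ := by simp
        rw [hre, abs_of_neg (by linarith)] at h3
        linarith
      · have := hdist w hwz him
        linarith
    obtain ⟨R, hR1, hR2, hR3⟩ := room hΦ1.continuous (show σ - x < σ by linarith) hfar
    have := D.caseB h0 h1 (σ := σ) (x := x) (θ := z0.re - ε) (by rw [hσ]; linarith) (by linarith)
      hR1 hR2 hΦ1 hfac (hm hxz) hR3 (by have := hβle z0 hz0; linarith)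
    simpa using this
  · -- case A
    have hreal : ∀ x : ℝ, Φ x = 0 → x ≤ β - ξ := by
      intro x hx
      by_contra hcon
      push Not at hcon
      rcases hs with rfl | ⟨rfl, hno⟩
      · exact hB ⟨rfl, x, hcon, hx⟩
      · exact hno x (by linarith) hx
    have hdist2 : ∀ w : ℂ, Φ w = 0 → σ - β + ξ ≤ ‖w - σ‖ := by
      intro w hw
      by_cases him : w.im = 0
      · have hwre : w = (w.re : ℂ) := Complex.ext (by simp) (by simp [him])
        have h2 := hreal w.re (by rw [← hwre]; exact hw)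
        have h3 := Complex.abs_re_le_norm (w - σ)
        have hre : (w - (σ:ℂ)).re = w.re - σ := by simp
        rw [hre, abs_of_neg (by linarith)] at h3
        linarith
      · exact (hdist w hw him).le
    obtain ⟨x1, ⟨z1, hz1, rfl⟩, hx1⟩ := exists_lt_of_lt_csSup hSne (show β - ξ / 4 < sSup S by linarith)
    set c0 : ℂ := (σ:ℂ) + z1.im * I with hc0
    have hc0re : c0.re = σ := by simp [hc0]
    have hc0im : c0.im = z1.im := by simp [hc0]
    have hz1c : ‖z1 - c0‖ = σ - z1.re := by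
      have e : z1 - c0 = ((z1.re - σ : ℝ) : ℂ) := by
        apply Complex.ext
        · simp [hc0re]
        · simp [hc0im]
      rw [e, Complex.norm_real, Real.norm_eq_abs, abs_of_neg (by have := hle2 z1 hz1; linarith)]
      ring
    obtain ⟨z', hz', hz'1, hz'min⟩ := nearest hΦc c0 hz1
    set r0 := ‖z' - c0‖ with hr0
    have hr0a : r0 < σ - β + ξ / 4 := by rw [hz1c] at hz'1; linarith
    have hr0b : σ - β ≤ r0 := by
      have h3 := Complex.abs_re_le_norm (z' - c0)
      have hre : (z' - c0).re = z'.re - σ := by rw [Complex.sub_re, hc0re]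
      rw [hre, abs_of_neg (by have := hle2 z' hz'; linarith)] at h3
      have := hβle z' hz'
      linarith
    have hr00 : 0 < r0 := by linarith
    set t : ℝ := ξ / (4 * (σ + 1)) with ht
    have ht0 : 0 < t := by rw [ht]; positivity
    have htσ : t * (σ + 1) = ξ / 4 := by rw [ht]; field_simp
    have ht1 : t < 1 := by nlinarith
    have htr : t * r0 ≤ ξ / 4 := by
      have : r0 ≤ σ + 1 := by linarith
      calc t * r0 ≤ t * (σ + 1) := mul_le_mul_of_nonneg_left this ht0.le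
        _ = ξ / 4 := htσ
    set c : ℂ := c0 + t * (z' - c0) with hc
    have hcre : c.re = σ + t * (z'.re - σ) := by
      rw [hc, Complex.add_re, Complex.re_ofReal_mul, Complex.sub_re, hc0re]
    have hz're : z'.re ≤ 2 := hle2 z' hz'
    have hz'abs : σ - z'.re ≤ r0 := by
      have h3 := Complex.abs_re_le_norm (z' - c0)
      have hre : (z' - c0).re = z'.re - σ := by rw [Complex.sub_re, hc0re]
      rw [hre, abs_of_neg (by linarith)] at h3
      linarith
    have hcre1 : c.re ≤ σ := by rw [hcre]; nlinarith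
    have hcre2 : σ - ξ / 4 ≤ c.re := by
      rw [hcre]
      have : t * (σ - z'.re) ≤ t * r0 := mul_le_mul_of_nonneg_left hz'abs ht0.le
      linarith
    have hcc0 : ‖c - c0‖ = t * r0 := by
      rw [hc, add_sub_cancel_left, norm_mul, Complex.norm_real, Real.norm_of_nonneg ht0.le]
    set r := (1 - t) * r0 with hr
    have hrc : ‖c - z'‖ = r := by
      have e : c - z' = ((t - 1 : ℝ) : ℂ) * (z' - c0) := by rw [hc]; push_cast; ring
      rw [e, norm_mul, Complex.norm_real, Real.norm_eq_abs, abs_of_neg (by linarith)]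
      rw [hr]
      ring
    have hrr0 : r ≤ r0 := by rw [hr]; nlinarith
    have hrlow : σ - β - ξ / 4 ≤ r := by rw [hr]; nlinarith
    obtain ⟨m, Φ1, hΦ1, hfac, hne1, hm⟩ := exists_fac' D.hΦ h3ne z'
    have hfar : ∀ w, Φ1 w = 0 → r < ‖w - c‖ := by
      intro w hw
      have hwz : Φ w = 0 := by rw [hfac w, hw, mul_zero]
      have hwx : w ≠ z' := fun h => hne1 (by rw [← h]; exact hw)
      have h2 := perturb (a := z' - c0) (b := w - c0) ht0 ht1 (hz'min w hwz)
        (fun h => hwx (sub_left_inj.1 h))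
      have e : w - c0 - t * (z' - c0) = w - c := by rw [hc]; ring
      rw [e] at h2
      exact h2
    obtain ⟨R, hR1, hR2, hR3⟩ := room hΦ1.continuous (c := c) (show r < c.re by linarith) hfar
    have hfar' : ∀ w, Φ w = 0 → r0 < ‖w - (c.re : ℂ)‖ := by
      intro w hw
      have h2 := hdist2 w hw
      have h3 : ‖w - (σ:ℂ)‖ ≤ ‖w - (c.re : ℂ)‖ + ‖((c.re : ℝ) : ℂ) - (σ:ℂ)‖ := by
        have := norm_add_le (w - (c.re : ℂ)) (((c.re : ℝ) : ℂ) - (σ:ℂ))
        rwa [sub_add_sub_cancel] at this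
      have h4 : ‖((c.re : ℝ) : ℂ) - (σ:ℂ)‖ ≤ ξ / 4 := by
        rw [← Complex.ofReal_sub, Complex.norm_real, Real.norm_eq_abs, abs_le]
        constructor <;> linarith
      linarith
    obtain ⟨R', hR'1, hR'2, hR'3⟩ := room hΦc (c := (c.re : ℂ)) (show r0 < c.re by linarith) hfar'
    have hη := D.hη
    exact D.caseA h0 h1 hsabs (c := c) (z1 := z') (r := r) (R := R) (R' := R') (θ := z0.re - ε)
      (by linarith) hrc (by linarith) (by linarith) hR1 (by linarith) hΦ1 hfac (hm hz') hR3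
      (by linarith) hR'2 hR'3 (by have := hβle z0 hz0; linarith)

end Pool.Agent.V8H22.BSW
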