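import Pool.Agent.V8H22.BSW.A4

/-!
# The behaviour at the centre
-/

set_option autoImplicit false
set_option maxHeartbeats 1000000

open MeasureTheory Complex Set Filter Topology Metric

namespace Pool.Agent.V8H22.BSW

variable {f : ℝ → ℝ} {B : ℝ} {Φ G : ℂ → ℂ} {η : ℝ}

/-- one-sided bound by a constant on the window -/
lemma win_const {f : ℝ → ℝ} {B : ℝ} (h : Gw f B) {δ σ r V : ℝ} {j : ℕ} (P : Par δ σ r V j) {s : ℝ}
    (hs : |s| = 1) {κ : ℝ} (hf : ∀ u, V ≤ u → u ≤ (1 + δ) * V → s * f u ≤ κ) :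
    s * mo f j σ ≤ κ * (j.factorial / σ ^ (j + 1)) +
      (B + |κ|) * (4 * Real.exp (-V) * (j.factorial / r ^ (j + 1))) := by
  have hB := h.B_nonneg
  have hσ2 : 2 < σ := by have := s0_ge P.h0 P.h1; have := P.hσ; linarith
  have h1 : s * mo f j σ = ∫ u in Ioi (0:ℝ), s * (f u * u ^ j * Real.exp (-(σ * u))) := by
    unfold mo; rw [integral_const_mul]
  rw [h1]
  have hi1 := (h.int_real j hσ2).const_mul s
  have hi2 := (gam_int j (show 0 < σ by linarith)).const_mul κ
  have hi3 := (tau_int P.h0 P.h1 P.hσ V j).const_mul (B + |κ|)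
  calc ∫ u in Ioi (0:ℝ), s * (f u * u ^ j * Real.exp (-(σ * u)))
      ≤ ∫ u in Ioi (0:ℝ), (κ * (u ^ j * Real.exp (-(σ * u))) + (B + |κ|) * tau δ σ V j u) := by
        refine setIntegral_mono_on hi1 (hi2.add hi3) measurableSet_Ioi fun u hu => ?_
        have hu' : 0 < u := hu
        have htau := tau_nonneg δ σ V j hu'
        have hwt : 0 ≤ u ^ j * Real.exp (-(σ * u)) := by positivity
        by_cases hw : V ≤ u ∧ u ≤ (1 + δ) * V
        · have h2 := mul_le_mul_of_nonneg_right (hf u hw.1 hw.2) hwt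
          have h5 : 0 ≤ (B + |κ|) * tau δ σ V j u := by positivity
          linarith
        · have hout : u < V ∨ (1 + δ) * V < u := by
            by_contra hcon
            push Not at hcon
            exact hw ⟨hcon.1, hcon.2⟩
          have h2 := tau_ge (σ := σ) P.h0 P.h1 j hu' hout
          have h3 := h.abs_le j σ hu'
          have h4 : s * (f u * u ^ j * Real.exp (-(σ * u))) ≤ |f u| * u ^ j * Real.exp (-(σ * u)) := by
            refine (le_abs_self _).trans (le_of_eq ?_)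
            rw [abs_mul, hs, one_mul, abs_mul, abs_mul, abs_of_nonneg (pow_nonneg hu'.le j),
              abs_of_pos (Real.exp_pos _)]
          have h5 : B * (u ^ j * Real.exp (-((σ - 2) * u))) ≤ B * tau δ σ V j u :=
            mul_le_mul_of_nonneg_left h2 hB
          have h6 : u ^ j * Real.exp (-(σ * u)) ≤ tau δ σ V j u := by
            refine le_trans ?_ h2
            refine mul_le_mul_of_nonneg_left (Real.exp_le_exp.2 ?_) (by positivity)
            linarith
          have h7 : -(|κ| * tau δ σ V j u) ≤ κ * (u ^ j * Real.exp (-(σ * u))) := by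
            have h8 := neg_abs_le κ
            have h9 : -|κ| * (u ^ j * Real.exp (-(σ * u))) ≤ κ * (u ^ j * Real.exp (-(σ * u))) :=
              mul_le_mul_of_nonneg_right h8 hwt
            have h10 := mul_le_mul_of_nonneg_left h6 (abs_nonneg κ)
            linarith
          linarith
    _ = κ * (j.factorial / σ ^ (j + 1)) + (B + |κ|) * ∫ u in Ioi (0:ℝ), tau δ σ V j u := by
        rw [integral_add hi2 hi3, integral_const_mul, integral_const_mul, gam_val j (by linarith)]
    _ ≤ _ := by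
        have := mul_le_mul_of_nonneg_left (tau_val P) (show 0 ≤ B + |κ| by positivity)
        linarith

/-- the limit of the normalised moments -/
theorem WD.T_limit (D : WD f B Φ G η) {σ R : ℝ} {m : ℕ} {Φ1 : ℂ → ℂ} (hσ : 2 < σ) (hR : σ < R)
    (hRσ : R < σ + η) (hΦ1 : Differentiable ℂ Φ1) (hfac : ∀ z, Φ z = z ^ m * Φ1 z)
    (hne : ∀ z ∈ closedBall (σ:ℂ) R, Φ1 z ≠ 0) :
    Tendsto (fun k : ℕ => T f σ k - m * (harmonic k : ℝ)) atTop
      (𝓝 (-(m * Real.log σ) - Real.log ‖Φ1 0‖ + (G 0).re)) := by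
  have hη := D.hη
  have hσ0 : 0 < σ := by linarith
  have hσc : (σ:ℂ) ≠ 0 := by exact_mod_cast hσ0.ne'
  have hfac' : ∀ z, Φ z = (z - ((0:ℝ):ℂ)) ^ m * Φ1 z := fun z => by rw [hfac z]; simp
  have hre : ∀ z ∈ ball (σ:ℂ) R, -η < z.re := by
    intro z hz
    have h1 : ‖z - (σ:ℂ)‖ < R := by rwa [← dist_eq_norm]
    have h2 := Complex.abs_re_le_norm (z - (σ:ℂ))
    rw [Complex.sub_re, Complex.ofReal_re] at h2
    have := neg_abs_le (z.re - σ)
    linarith
  have hdQ : DifferentiableOn ℂ (Q Φ1 G) (ball (σ:ℂ) R) := fun z hz =>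
    (D.analyticAt_Q hΦ1 (hre z hz) (hne z (ball_subset_closedBall hz))).differentiableAt.differentiableWithinAt
  obtain ⟨l, hl⟩ := hdQ.isExactOn_ball
  have hl' : ∀ z ∈ ball (σ:ℂ) R, HasDerivAt l (Q Φ1 G z) z := hl
  have hσmem : (σ:ℂ) ∈ ball (σ:ℂ) R := mem_ball_self (by linarith)
  have h0mem : (0:ℂ) ∈ ball (σ:ℂ) R := by
    rw [mem_ball, dist_eq_norm, zero_sub, norm_neg, Complex.norm_real, Real.norm_of_nonneg hσ0.le]
    exact hR
  have hΦ1σ : Φ1 σ ≠ 0 := hne _ (ball_subset_closedBall hσmem)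
  have hΦ10 : Φ1 0 ≠ 0 := hne _ (ball_subset_closedBall h0mem)
  have hne0 : (σ:ℂ) ≠ ((0:ℝ):ℂ) := by simpa using hσc
  -- the Taylor series of `l` at `σ`, evaluated at `0`
  have hld : DifferentiableOn ℂ l (ball (σ:ℂ) R) := fun z hz => (hl' z hz).differentiableAt.differentiableWithinAt
  have htay := Complex.hasSum_taylorSeries_on_ball hld h0mem
  set a : ℕ → ℝ := fun k => T f σ (k + 1) - T f σ k - m / (k + 1) with ha
  have hterm : ∀ k : ℕ, (((k + 1).factorial : ℂ))⁻¹ • ((0:ℂ) - σ) ^ (k + 1) • iteratedDeriv (k + 1) l σ =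
      -((a k : ℝ) : ℂ) := by
    intro k
    have h1 : iteratedDeriv (k + 1) l σ = iteratedDeriv k (Q Φ1 G) σ := by
      rw [iteratedDeriv_succ']
      refine Filter.EventuallyEq.iteratedDeriv_eq k ?_
      filter_upwards [isOpen_ball.mem_nhds hσmem] with z hz using (hl' z hz).deriv
    rw [h1, D.star_eq (by simpa using hσ) hΦ1 hfac' hΦ1σ hne0 k, U_eq_mo, U_eq_mo, mo_eq hσ0.ne',
      mo_eq hσ0.ne']
    have hk : ((k.factorial : ℕ) : ℂ) ≠ 0 := by exact_mod_cast k.factorial_ne_zero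
    have hk1 : ((k:ℂ) + 1) ≠ 0 := by exact_mod_cast (Nat.succ_ne_zero k)
    rw [ha, Nat.factorial_succ]
    simp only [smul_eq_mul, zero_sub]
    rw [neg_pow (σ:ℂ) (k + 1)]
    push_cast
    rw [sub_zero]
    have e2 : ((-1:ℂ)) ^ (k + 1) * (-1) ^ k = -1 := by
      rw [pow_succ, mul_assoc, mul_comm (-1:ℂ) ((-1) ^ k), ← mul_assoc, ← mul_pow]
      simp
    field_simp
    linear_combination (σ:ℂ) ^ (k + 2) *
      (((k:ℂ) + 1) * (((T f σ (k + 1) : ℝ) : ℂ) - ((T f σ k : ℝ) : ℂ)) - m) * e2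
  have hsum : HasSum a ((l σ - l 0).re) := by
    have h1 := (hasSum_nat_add_iff' 1).2 htay
    have e : (fun n : ℕ => (((n + 1).factorial : ℕ) : ℂ)⁻¹ • ((0:ℂ) - σ) ^ (n + 1) •
        iteratedDeriv (n + 1) l σ) = fun k : ℕ => -((a k : ℝ) : ℂ) := funext hterm
    rw [e] at h1
    simp only [Finset.sum_range_one, Nat.factorial_zero, Nat.cast_one, inv_one, one_smul, pow_zero,
      iteratedDeriv_zero] at h1
    have h3 := h1.neg
    simp only [neg_neg, neg_sub] at h3
    have h4 := Complex.hasSum_re h3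
    simpa using h4
  -- `Φ1 = C exp (l + G)`
  have hconst : Φ1 0 * cexp (-l 0 - G 0) = Φ1 σ * cexp (-l σ - G σ) := by
    have hd : ∀ z ∈ ball (σ:ℂ) R, HasDerivAt (fun z => Φ1 z * cexp (-l z - G z)) 0 z := by
      intro z hz
      have h1 := (hl' z hz).neg.sub (D.hG z (hre z hz)).hasDerivAt
      have h2 := (hΦ1 z).hasDerivAt.mul h1.cexp
      have h3 : deriv Φ1 z * cexp ((-l - G) z) + Φ1 z * (cexp ((-l - G) z) *
          (-Q Φ1 G z - deriv G z)) = 0 := by
        have := hne z (ball_subset_closedBall hz)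
        unfold Q
        field_simp
        ring
      rw [h3] at h2
      exact h2
    have h4 := (convex_ball (σ:ℂ) R).norm_image_sub_le_of_norm_hasDerivWithin_le (C := 0)
      (f := fun z => Φ1 z * cexp (-l z - G z)) (f' := fun _ => 0)
      (fun z hz => (hd z hz).hasDerivWithinAt) (fun z _ => by simp) hσmem h0mem
    rw [zero_mul] at h4
    have h5 := norm_le_zero_iff.1 h4
    exact sub_eq_zero.1 h5
  have hn0 : 0 < ‖Φ1 0‖ := norm_pos_iff.2 hΦ10
  have hnσ : 0 < ‖Φ1 σ‖ := norm_pos_iff.2 hΦ1σ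
  have hlog : Real.log ‖Φ1 0‖ - (l 0).re - (G 0).re = Real.log ‖Φ1 σ‖ - (l σ).re - (G σ).re := by
    have h1 := congrArg (fun z : ℂ => Real.log ‖z‖) hconst
    simp only [norm_mul, Complex.norm_exp] at h1
    rw [Real.log_mul hn0.ne' (Real.exp_pos _).ne', Real.log_mul hnσ.ne' (Real.exp_pos _).ne',
      Real.log_exp, Real.log_exp] at h1
    simp only [Complex.sub_re, Complex.neg_re] at h1
    linarith
  -- the moment of order `0`
  have hT0 : T f σ 0 = (G σ).re - Real.log ‖Φ1 σ‖ - m * Real.log σ := by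
    have h1 := D.eq (σ:ℂ) (by simpa using hσ)
    have h2 := congrArg (fun z : ℂ => Real.log ‖z‖) h1
    rw [hfac, norm_mul, norm_pow, Complex.norm_real, Real.norm_of_nonneg hσ0.le, Complex.norm_exp,
      Real.log_exp, U_eq_mo, Real.log_mul (by positivity) hnσ.ne', Real.log_pow, ← Complex.ofReal_mul,
      Complex.sub_re, Complex.ofReal_re] at h2
    unfold T
    simp only [zero_add, pow_one, Nat.factorial_zero, Nat.cast_one, div_one]
    linarith
  -- partial sums
  have hpart : ∀ K : ℕ, ∑ k ∈ Finset.range K, a k = T f σ K - T f σ 0 - m * (harmonic K : ℝ) := by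
    intro K
    induction K with
    | zero => simp
    | succ K ih =>
      rw [Finset.sum_range_succ, ih, harmonic_succ, ha]
      push_cast
      field_simp
      ring
  have h1 := hsum.tendsto_sum_nat
  simp_rw [hpart] at h1
  have h2 := h1.add_const (T f σ 0)
  have e : (l σ - l 0).re + T f σ 0 = -(m * Real.log σ) - Real.log ‖Φ1 0‖ + (G 0).re := by
    rw [hT0, Complex.sub_re]
    linarith
  rw [e] at h2
  refine h2.congr fun k => by ring

/-- the order of vanishing and the leading coefficient -/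
lemma lead_unique {Φ Φ1 : ℂ → ℂ} (hΦ1 : Differentiable ℂ Φ1) {m r : ℕ} {c0 : ℝ}
    (hfac : ∀ z, Φ z = z ^ m * Φ1 z) (h1 : Φ1 0 ≠ 0) (hc0 : 0 < c0)
    (hc : Tendsto (fun w : ℝ => ‖Φ w‖ / w ^ r) (𝓝[>] 0) (𝓝 c0)) : m = r ∧ ‖Φ1 0‖ = c0 := by
  have hn0 : 0 < ‖Φ1 0‖ := norm_pos_iff.2 h1
  have t1 : Tendsto (fun w : ℝ => ‖Φ1 w‖) (𝓝[>] 0) (𝓝 ‖Φ1 0‖) := by
    have h2 : Continuous fun w : ℝ => ‖Φ1 w‖ :=
      (hΦ1.continuous.comp Complex.continuous_ofReal).norm
    have h3 := h2.tendsto 0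
    rw [Complex.ofReal_zero] at h3
    exact tendsto_nhdsWithin_of_tendsto_nhds h3
  have hpow : ∀ n : ℕ, 1 ≤ n → Tendsto (fun w : ℝ => w ^ n) (𝓝[>] 0) (𝓝 0) := by
    intro n hn
    have h2 : Continuous fun w : ℝ => w ^ n := by fun_prop
    have h3 := h2.tendsto 0
    rw [zero_pow (by omega)] at h3
    exact tendsto_nhdsWithin_of_tendsto_nhds h3
  have hmr : m = r := by
    rcases lt_trichotomy m r with h | h | h
    · exfalso
      have t2 := hc.mul (hpow (r - m) (by omega))
      rw [mul_zero] at t2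
      have t3 : Tendsto (fun w : ℝ => ‖Φ1 w‖) (𝓝[>] 0) (𝓝 0) := by
        refine t2.congr' ?_
        filter_upwards [self_mem_nhdsWithin] with w hw
        have hw' : (0:ℝ) < w := hw
        rw [hfac, norm_mul, norm_pow, Complex.norm_real, Real.norm_of_nonneg hw'.le]
        have e : w ^ r = w ^ m * w ^ (r - m) := by rw [← pow_add]; congr 1; omega
        rw [e]
        field_simp
      exact hn0.ne' (tendsto_nhds_unique t1 t3)
    · exact h
    · exfalso
      have t2 := t1.mul (hpow (m - r) (by omega))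
      rw [mul_zero] at t2
      have t3 : Tendsto (fun w : ℝ => ‖Φ w‖ / w ^ r) (𝓝[>] 0) (𝓝 0) := by
        refine t2.congr' ?_
        filter_upwards [self_mem_nhdsWithin] with w hw
        have hw' : (0:ℝ) < w := hw
        rw [hfac, norm_mul, norm_pow, Complex.norm_real, Real.norm_of_nonneg hw'.le]
        have e : w ^ m = w ^ r * w ^ (m - r) := by rw [← pow_add]; congr 1; omega
        rw [e]
        field_simp
      exact hc0.ne' (tendsto_nhds_unique hc t3)
  subst hmr
  refine ⟨rfl, ?_⟩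
  refine tendsto_nhds_unique ?_ hc
  refine t1.congr' ?_
  filter_upwards [self_mem_nhdsWithin] with w hw
  have hw' : (0:ℝ) < w := hw
  rw [hfac, norm_mul, norm_pow, Complex.norm_real, Real.norm_of_nonneg hw'.le]
  field_simp

end Pool.Agent.V8H22.BSW
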