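import Pool.Agent.V8H22.BSW.A5

/-!
# The theorem on the behaviour at the centre, in windows
-/

set_option autoImplicit false
set_option maxHeartbeats 1000000

open MeasureTheory Complex Set Filter Topology Metric

namespace Pool.Agent.V8H22.BSW

variable {f : ℝ → ℝ} {B : ℝ} {Φ G : ℂ → ℂ} {η : ℝ}

/-- the constant -/
noncomputable def LL (G : ℂ → ℂ) (r : ℕ) (c0 : ℝ) : ℝ :=
  r * Real.eulerMascheroniConstant - Real.log c0 + (G 0).re

lemma log_exp_le (A L c : ℝ) (hc : 0 < c) :
    ∀ᶠ V : ℝ in atTop, A * Real.log V + L ≤ Real.exp (c * V) := by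
  have h1 : Tendsto (fun V : ℝ => (|A| * Real.log V + |L|) / Real.exp (c * V)) atTop (𝓝 0) := by
    have t1 : Tendsto (fun V : ℝ => V * Real.exp (-(c * V))) atTop (𝓝 0) := by
      have := Real.tendsto_pow_mul_exp_neg_atTop_nhds_zero 1
      have h2 : Tendsto (fun V : ℝ => c * V) atTop atTop := tendsto_id.const_mul_atTop hc
      have h3 := (this.comp h2).const_mul (1 / c)
      rw [mul_zero] at h3
      refine h3.congr fun V => ?_
      simp only [Function.comp, pow_one]
      field_simp
    have t2 : Tendsto (fun V : ℝ => Real.exp (-(c * V))) atTop (𝓝 0) := by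
      have h2 : Tendsto (fun V : ℝ => c * V) atTop atTop := tendsto_id.const_mul_atTop hc
      exact Real.tendsto_exp_neg_atTop_nhds_zero.comp h2
    have t3 := (t1.const_mul |A|).add (t2.const_mul |L|)
    simp only [mul_zero, add_zero] at t3
    refine squeeze_zero' ?_ ?_ t3
    · filter_upwards [eventually_ge_atTop 1] with V hV
      have := Real.log_nonneg hV
      positivity
    · filter_upwards [eventually_ge_atTop 1] with V hV
      have h4 : Real.log V ≤ V := (Real.log_le_sub_one_of_pos (by linarith)).trans (by linarith)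
      rw [Real.exp_neg, ← div_eq_mul_inv, ← div_eq_mul_inv, mul_div_assoc', ← add_div]
      gcongr
  filter_upwards [h1.eventually (gt_mem_nhds one_pos), eventually_ge_atTop 1] with V h2 h3
  rw [div_lt_one (Real.exp_pos _)] at h2
  have h4 : A * Real.log V ≤ |A| * Real.log V :=
    mul_le_mul_of_nonneg_right (le_abs_self A) (Real.log_nonneg h3)
  have h5 := le_abs_self L
  linarith

/-- the case without zeros to the right of the imaginary axis -/
theorem WD.centre_free (D : WD f B Φ G η) {δ : ℝ} (h0 : 0 < δ) (h1 : δ ≤ 1) {s : ℝ} (hs : |s| = 1)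
    (hfree : ∀ z, 0 < z.re → Φ z ≠ 0) {r : ℕ} {c0 : ℝ} (hc0 : 0 < c0)
    (hc : Tendsto (fun w : ℝ => ‖Φ w‖ / w ^ r) (𝓝[>] 0) (𝓝 c0)) {ε : ℝ} (hε : 0 < ε)
    (hδε : 8 * (r * δ) ≤ ε) :
    ∀ᶠ V : ℝ in atTop, ∃ v, V ≤ v ∧ v ≤ (1 + δ) * V ∧ s * (r * Real.log v + LL G r c0) - ε < s * f v := by
  have hη := D.hη
  have h3ne : Φ 3 ≠ 0 := D.ne_zero (by norm_num)
  set σ := s0 δ with hσ
  have hσ276 : 276 ≤ σ := s0_ge h0 h1
  have hσ0 : 0 < σ := by linarith
  obtain ⟨m, Φ1, hΦ1, hfac, hne1, -⟩ := exists_fac' D.hΦ h3ne 0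
  have hfac' : ∀ z, Φ z = z ^ m * Φ1 z := fun z => by rw [hfac z, sub_zero]
  obtain ⟨hmr, hcc⟩ := lead_unique hΦ1 hfac' hne1 hc0 hc
  subst hmr
  have hfar : ∀ w, Φ1 w = 0 → σ < ‖w - σ‖ := by
    intro w hw
    have hwz : Φ w = 0 := by rw [hfac' w, hw, mul_zero]
    have hw0 : w ≠ 0 := fun h => hne1 (by rw [h] at hw; exact hw)
    have hre : w.re ≤ 0 := by
      by_contra h
      push Not at h
      exact hfree w h hwz
    have h4 : σ ^ 2 < ‖w - σ‖ ^ 2 := by
      rw [Complex.sq_norm, Complex.normSq_apply]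
      have e1 : (w - (σ:ℂ)).re = w.re - σ := by simp
      have e2 : (w - (σ:ℂ)).im = w.im := by simp
      rw [e1, e2]
      have h5 : 0 < w.re ^ 2 + w.im ^ 2 := by
        by_contra h6
        push Not at h6
        apply hw0
        have h7 : w.re ^ 2 = 0 := by nlinarith [sq_nonneg w.re, sq_nonneg w.im]
        have h8 : w.im ^ 2 = 0 := by nlinarith [sq_nonneg w.re, sq_nonneg w.im]
        exact Complex.ext (by simpa using h7) (by simpa using h8)
      nlinarith
    exact lt_of_pow_lt_pow_left₀ 2 (norm_nonneg _) h4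
  obtain ⟨R, hR1, hR2, hR3⟩ := room hΦ1.continuous (c := (σ:ℂ)) (show σ < σ + η by linarith) hfar
  have hT := D.T_limit (by linarith) hR1 hR2 hΦ1 hfac' hR3
  have hharm := Real.tendsto_harmonic_sub_log
  have hT2 := hT.add (hharm.const_mul (m:ℝ))
  have hT3 : Tendsto (fun k : ℕ => T f σ k - m * Real.log k) atTop
      (𝓝 (LL G m c0 - m * Real.log σ)) := by
    have e : -(m * Real.log σ) - Real.log ‖Φ1 0‖ + (G 0).re + m * Real.eulerMascheroniConstant =
        LL G m c0 - m * Real.log σ := by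
      unfold LL; rw [hcc]; ring
    rw [e] at hT2
    refine hT2.congr fun k => by ring
  have hk := kV_tendsto (δ := δ) (r := σ) h0 hσ0
  -- the error term
  set κ0 : ℝ := |s * LL G m c0| + m + |ε| with hκ0
  have hB := D.gw.B_nonneg
  have hlim : Tendsto (fun V : ℝ => 4 * (B + (m * Real.log V + κ0)) * Real.exp (-V)) atTop (𝓝 0) := by
    have t1 : Tendsto (fun V : ℝ => V * Real.exp (-V)) atTop (𝓝 0) := by
      have := Real.tendsto_pow_mul_exp_neg_atTop_nhds_zero 1
      simpa using this
    have t2 := Real.tendsto_exp_neg_atTop_nhds_zero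
    have t3 := (t1.const_mul (4 * (m:ℝ))).add (t2.const_mul (4 * (B + κ0)))
    simp only [mul_zero, add_zero] at t3
    refine squeeze_zero' ?_ ?_ t3
    · filter_upwards [eventually_ge_atTop 1] with V hV
      have := Real.log_nonneg hV
      positivity
    · filter_upwards [eventually_ge_atTop 1] with V hV
      have h4 : Real.log V ≤ V := (Real.log_le_sub_one_of_pos (by linarith)).trans (by linarith)
      have h5 : (m:ℝ) * Real.log V ≤ m * V := mul_le_mul_of_nonneg_left h4 (Nat.cast_nonneg m)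
      have h6 := Real.exp_pos (-V)
      nlinarith
  have hTe := hT3.comp hk
  filter_upwards [hTe.eventually (Metric.ball_mem_nhds _ (show 0 < ε / 8 by linarith)),
    hlim.eventually (gt_mem_nhds (show 0 < ε / 8 by linarith)), eventually_ge_atTop 1,
    eventually_ge_atTop (2 / (σ * δ))] with V hV1 hV2 hV3 hV4
  by_contra hcon
  push Not at hcon
  have hVpos : 0 < V := by linarith
  obtain ⟨P, -⟩ := kV_par (σ := σ) (r := σ) h0 h1 le_rfl (by linarith) le_rfl hVpos.le
  set k := kV δ σ V with hkdef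
  have hlogV := Real.log_nonneg hV3
  have hmc : (0:ℝ) ≤ m := Nat.cast_nonneg m
  have hs2 : s = 1 ∨ s = -1 := by
    rcases abs_cases s with ⟨h, _⟩ | ⟨h, _⟩
    · left; linarith
    · right; linarith
  set κ : ℝ := s * (m * Real.log V + LL G m c0) + m * δ - ε with hκ
  have hlog_up : Real.log ((1 + δ) * V) ≤ Real.log V + δ := by
    rw [Real.log_mul (by linarith) hVpos.ne']
    have := Real.log_le_sub_one_of_pos (show 0 < 1 + δ by linarith)
    linarith
  have hf : ∀ u, V ≤ u → u ≤ (1 + δ) * V → s * f u ≤ κ := by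
    intro u hu1 hu2
    refine (hcon u hu1 hu2).trans ?_
    have hu0 : 0 < u := by linarith
    have h4 : Real.log V ≤ Real.log u := Real.log_le_log hVpos hu1
    have h5 : Real.log u ≤ Real.log V + δ := (Real.log_le_log hu0 hu2).trans hlog_up
    rw [hκ]
    rcases hs2 with rfl | rfl
    · have := mul_le_mul_of_nonneg_left h5 hmc
      linarith
    · have := mul_le_mul_of_nonneg_left h4 hmc
      have h6 : 0 ≤ m * δ := by positivity
      linarith
  have h6 := win_const D.gw P hs hf
  have hkf : (0:ℝ) < k.factorial := by exact_mod_cast k.factorial_pos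
  have h7 : s * T f σ k ≤ κ + 4 * (B + |κ|) * Real.exp (-V) := by
    have e : s * T f σ k = σ ^ (k + 1) / k.factorial * (s * mo f k σ) := by
      unfold T; field_simp
    rw [e]
    refine (mul_le_mul_of_nonneg_left h6 (by positivity)).trans (le_of_eq ?_)
    field_simp
  have hκabs : |κ| ≤ m * Real.log V + κ0 := by
    have h8 : κ = s * (m * Real.log V) + s * LL G m c0 + m * δ + -ε := by rw [hκ]; ring
    rw [h8]
    refine (abs_add_le _ _).trans ?_
    have h9 : |s * (m * Real.log V)| = m * Real.log V := by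
      rw [abs_mul, hs, one_mul, abs_of_nonneg (by positivity)]
    have h10 : |(m:ℝ) * δ| ≤ m := by
      rw [abs_of_nonneg (by positivity)]
      exact mul_le_of_le_one_right hmc h1
    have h11 := abs_add_le (s * (m * Real.log V) + s * LL G m c0) (m * δ)
    have h12 := abs_add_le (s * (m * Real.log V)) (s * LL G m c0)
    rw [abs_neg, hκ0]
    linarith
  have h8 : 4 * (B + |κ|) * Real.exp (-V) < ε / 8 := by
    refine lt_of_le_of_lt ?_ hV2
    gcongr
  -- the position of `k`
  have hkpos : (0:ℝ) < k := by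
    have := P.hj1
    have h9 : 0 < σ * V * (1 + δ / 2) := by positivity
    linarith
  have hk1 : Real.log V + Real.log σ ≤ Real.log k := by
    rw [← Real.log_mul hVpos.ne' hσ0.ne']
    refine Real.log_le_log (by positivity) ?_
    have := P.hj1
    have h9 : 0 ≤ σ * V * (δ / 2) := by positivity
    linarith
  have hk2 : Real.log k ≤ Real.log V + Real.log σ + δ := by
    have h9 : (k:ℝ) ≤ σ * ((1 + δ) * V) := by
      have h10 := kV_le (δ := δ) (r := σ) (V := V) (by positivity)
      have h11 : 2 ≤ V * (σ * δ) := by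
        rwa [div_le_iff₀ (by positivity)] at hV4
      have : (k:ℝ) = kV δ σ V := rfl
      linarith
    calc Real.log k ≤ Real.log (σ * ((1 + δ) * V)) := Real.log_le_log hkpos h9
      _ = Real.log σ + Real.log ((1 + δ) * V) := Real.log_mul hσ0.ne' (by positivity)
      _ ≤ _ := by linarith
  rw [Real.dist_eq, abs_lt] at hV1
  simp only [Function.comp_apply] at hV1
  rw [← hkdef] at hV1
  obtain ⟨h9, h10⟩ := hV1
  have h11 : s * (m * Real.log V + LL G m c0) - m * δ - ε / 8 ≤ s * T f σ k := by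
    have a1 := mul_le_mul_of_nonneg_left hk1 hmc
    have a2 := mul_le_mul_of_nonneg_left hk2 hmc
    rcases hs2 with rfl | rfl
    · have : 0 ≤ m * δ := by positivity
      linarith
    · linarith
  linarith

/-- **The centre, in windows.** If `‖Φ w‖ ~ c0 w^r` for `w → 0+`, then each window `[V, (1 + δ) V]` contains a
`v` with `s f(v) > s (r log v + L) - ε`; for `s = -1` it is assumed that there are no real zeros. -/
theorem WD.centre (D : WD f B Φ G η) {δ : ℝ} (h0 : 0 < δ) {s : ℝ}
    (hs : s = 1 ∨ (s = -1 ∧ ∀ x : ℝ, 0 < x → Φ x ≠ 0)) {r : ℕ} {c0 : ℝ} (hc0 : 0 < c0)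
    (hc : Tendsto (fun w : ℝ => ‖Φ w‖ / w ^ r) (𝓝[>] 0) (𝓝 c0)) {ε : ℝ} (hε : 0 < ε) :
    ∀ᶠ V : ℝ in atTop, ∃ v, V ≤ v ∧ v ≤ (1 + δ) * V ∧
      s * (r * Real.log v + LL G r c0) - ε < s * f v := by
  have hsabs : |s| = 1 := by rcases hs with rfl | ⟨rfl, -⟩ <;> simp
  set δ' := min (min δ 1) (ε / (8 * (r + 1))) with hδ'
  have hd0 : 0 < δ' := lt_min (lt_min h0 one_pos) (by positivity)
  have hd1 : δ' ≤ 1 := (min_le_left _ _).trans (min_le_right _ _)
  have hd2 : δ' ≤ δ := (min_le_left _ _).trans (min_le_left _ _)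
  have hd3 : 8 * (r * δ') ≤ ε := by
    have h1 : δ' ≤ ε / (8 * (r + 1)) := min_le_right _ _
    rw [le_div_iff₀ (by positivity)] at h1
    nlinarith
  by_cases hfree : ∀ z, 0 < z.re → Φ z ≠ 0
  · filter_upwards [D.centre_free hd0 hd1 hsabs hfree hc0 hc hε hd3, eventually_ge_atTop 0]
      with V ⟨v, h1, h2, h3⟩ hV
    exact ⟨v, h1, h2.trans (mul_le_mul_of_nonneg_right (by linarith) hV), h3⟩
  · push Not at hfree
    obtain ⟨z0, hz1, hz2⟩ := hfree
    have h1 := D.large hd0 hd1 hs hz2 hz1 (ε := z0.re / 2) (by linarith)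
    have h2 := log_exp_le (s * r) (s * LL G r c0) (z0.re / 2) (by linarith)
    obtain ⟨V0, hV0⟩ := eventually_atTop.1 h2
    filter_upwards [h1, eventually_ge_atTop (max V0 0)] with V ⟨v, h3, h4, h5⟩ hV
    have hV' : V0 ≤ V := (le_max_left _ _).trans hV
    have hV0' : 0 ≤ V := (le_max_right _ _).trans hV
    refine ⟨v, h3, h4.trans (mul_le_mul_of_nonneg_right (by linarith) hV0'), ?_⟩
    have h6 := hV0 v (by linarith)
    have e : z0.re - z0.re / 2 = z0.re / 2 := by ring
    rw [e] at h5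
    linarith

end Pool.Agent.V8H22.BSW
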