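import Pool.Agent.V8H22.BSW.A6
import Pool.Agent.W263.BSD.Lead8

/-!
# The data of an Euler product, continued slightly beyond the centre
-/

set_option autoImplicit false
set_option maxHeartbeats 1000000

open MeasureTheory Complex Set Filter Topology Metric
open Pool.Agent.W263.BSD

namespace Pool.Agent.V8H22.BSW

variable {S : Set ℕ} {A : ℕ → ℝ}

/-- the third order terms -/
noncomputable def g4 (S : Set ℕ) (A : ℕ → ℝ) (p : ℕ) (w : ℂ) : ℂ :=
  gterm S A p w - mc S A p * (xp p w - xp p w ^ 2)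

/-- their sum -/
noncomputable def G4 (S : Set ℕ) (A : ℕ → ℝ) (w : ℂ) : ℂ := ∑' p, g4 S A p w

lemma ge29 (E : EData S A) {p : ℕ} (hp : p ∈ S) : 29 ≤ p := by
  have h1 := E.big p hp
  have h2 := E.prime p hp
  by_contra h
  push Not at h
  interval_cases p <;> revert h2 <;> norm_num

/-- `p^(1/100) / √p ≤ 1/5` -/
lemma dl_small {p : ℕ} (hp : 29 ≤ p) : dl p * (p:ℝ) ^ (1 / 100 : ℝ) ≤ 1 / 5 := by
  have hp' : (29:ℝ) ≤ p := by exact_mod_cast hp
  have hp0 : (0:ℝ) < p := by linarith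
  have e : dl p * (p:ℝ) ^ (1 / 100 : ℝ) = (p:ℝ) ^ (-(49 / 100) : ℝ) := by
    unfold dl
    rw [Real.sqrt_eq_rpow, one_div, ← Real.rpow_neg hp0.le, ← Real.rpow_add hp0]
    norm_num
  rw [e]
  have h1 : (p:ℝ) ^ (-(49 / 100) : ℝ) ≤ (29:ℝ) ^ (-(49 / 100) : ℝ) :=
    Real.rpow_le_rpow_of_nonpos (by norm_num) hp' (by norm_num)
  refine h1.trans ?_
  rw [Real.rpow_neg (by norm_num), one_div, inv_le_inv₀ (by positivity) (by norm_num)]
  have h2 : (5:ℝ) = ((5:ℝ) ^ (100:ℕ)) ^ (1 / 100 : ℝ) := by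
    rw [← Real.rpow_natCast, ← Real.rpow_mul (by norm_num)]
    norm_num
  have h3 : (29:ℝ) ^ (49 / 100 : ℝ) = ((29:ℝ) ^ (49:ℕ)) ^ (1 / 100 : ℝ) := by
    rw [← Real.rpow_natCast, ← Real.rpow_mul (by norm_num)]
    norm_num
  rw [h3]
  calc (5:ℝ) = ((5:ℝ) ^ (100:ℕ)) ^ (1 / 100 : ℝ) := h2
    _ ≤ ((29:ℝ) ^ (49:ℕ)) ^ (1 / 100 : ℝ) :=
        Real.rpow_le_rpow (by positivity) (by norm_num) (by norm_num)

lemma norm_xp' {p : ℕ} (hp : 29 ≤ p) {w : ℂ} (hw : -(1 / 100) < w.re) :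
    ‖xp p w‖ ≤ (p:ℝ) ^ (1 / 100 : ℝ) := by
  rw [norm_xp (by omega)]
  exact Real.rpow_le_rpow_of_exponent_le (by exact_mod_cast (by omega : 1 ≤ p)) (by linarith)

/-- rescaling -/
lemma rescale (E : EData S A) {p : ℕ} (hp : p ∈ S) {w : ℂ} (hw : -(1 / 100) < w.re) :
    ∃ (t δ : ℝ) (X : ℂ), 0 ≤ δ ∧ δ ≤ 1 / 5 ∧ |t| ≤ 2 * δ ∧ ‖X‖ ≤ 1 ∧
      δ ^ 3 ≤ (p:ℝ) ^ (-(5 / 4) : ℝ) ∧
      fac A p (xp p w) = 1 - t * X + δ ^ 2 * X ^ 2 ∧
      -(tt A p) * xp p w + mm A p * xp p w ^ 2 = -t * X + (δ ^ 2 - t ^ 2 / 2) * X ^ 2 := by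
  have h29 := ge29 E hp
  have hp1 : (1:ℝ) ≤ p := by exact_mod_cast (by omega : 1 ≤ p)
  have hp0 : (0:ℝ) < p := by linarith
  set y : ℝ := (p:ℝ) ^ (1 / 100 : ℝ) with hy
  have hy0 : 0 < y := by positivity
  have hyc : (y:ℂ) ≠ 0 := by exact_mod_cast hy0.ne'
  refine ⟨tt A p * y, dl p * y, xp p w / y, mul_nonneg (dl_nonneg p) hy0.le, dl_small h29, ?_, ?_, ?_,
    ?_, ?_⟩
  · rw [abs_mul, abs_of_pos hy0]
    have := mul_le_mul_of_nonneg_right (E.tt_le hp) hy0.le
    linarith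
  · rw [norm_div, Complex.norm_real, Real.norm_of_nonneg hy0.le, div_le_one hy0]
    exact norm_xp' h29 hw
  · have e : dl p * y = (p:ℝ) ^ (-(49 / 100) : ℝ) := by
      rw [hy]
      unfold dl
      rw [Real.sqrt_eq_rpow, one_div, ← Real.rpow_neg hp0.le, ← Real.rpow_add hp0]
      norm_num
    rw [e, ← Real.rpow_natCast, ← Real.rpow_mul hp0.le]
    exact Real.rpow_le_rpow_of_exponent_le hp1 (by norm_num)
  · unfold fac
    push_cast
    field_simp
  · unfold mm
    push_cast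
    field_simp

lemma mc_of_mem {p : ℕ} (hp : p ∈ S) : mc S A p = mm A p := by
  unfold mc; rw [if_pos hp]

lemma g4_norm (E : EData S A) (p : ℕ) {w : ℂ} (hw : -(1 / 100) < w.re) :
    ‖g4 S A p w‖ ≤ 60 * (p:ℝ) ^ (-(5 / 4) : ℝ) := by
  by_cases hp : p ∈ S
  · have h29 := ge29 E hp
    have hp1 : (1:ℝ) ≤ p := by exact_mod_cast (by omega : 1 ≤ p)
    have hp0 : (0:ℝ) < p := by linarith
    obtain ⟨t, δ, X, h1, h2, h3, h4, h5, h6, h7⟩ := rescale E hp hw
    have h8 := log_expand h1 h2 h3 h4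
    rw [← h6, ← h7] at h8
    have h9 := E.log_fac hp (X := 1) (by simp)
    rw [← E.cc_eq hp] at h9
    have h10 := norm_xp' h29 hw
    unfold g4 gterm
    rw [if_pos hp, mc_of_mem hp]
    have e : (cc A p * xp p w - Complex.log (fac A p (xp p w)) - mm A p * (xp p w - xp p w ^ 2) : ℂ) =
        ((cc A p : ℂ) - (-(tt A p) * 1 + mm A p * 1 ^ 2)) * xp p w -
        (Complex.log (fac A p (xp p w)) - (-(tt A p) * xp p w + mm A p * xp p w ^ 2)) := by ring
    rw [e]
    refine (norm_sub_le _ _).trans ?_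
    rw [norm_mul]
    have h11 : ‖(cc A p : ℂ) - (-(tt A p) * 1 + mm A p * 1 ^ 2)‖ * ‖xp p w‖ ≤
        30 * (p:ℝ) ^ (-(5 / 4) : ℝ) := by
      calc ‖(cc A p : ℂ) - (-(tt A p) * 1 + mm A p * 1 ^ 2)‖ * ‖xp p w‖
          ≤ (30 * dl p ^ 3) * (p:ℝ) ^ (1 / 100 : ℝ) :=
            mul_le_mul h9 h10 (norm_nonneg _) (by have := dl_nonneg p; positivity)
        _ = 30 * (p:ℝ) ^ (-(149 / 100) : ℝ) := by
            rw [dl_cube (by omega), mul_assoc, ← Real.rpow_add hp0]
            norm_num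
        _ ≤ _ := mul_le_mul_of_nonneg_left
            (Real.rpow_le_rpow_of_exponent_le hp1 (by norm_num)) (by norm_num)
    have h12 : 30 * δ ^ 3 ≤ 30 * (p:ℝ) ^ (-(5 / 4) : ℝ) := by linarith
    linarith
  · unfold g4 gterm mc
    rw [if_neg hp, if_neg hp]
    simp
    positivity

lemma g4_summable : Summable fun p : ℕ => 60 * (p:ℝ) ^ (-(5 / 4) : ℝ) :=
  Summable.mul_left _ (Real.summable_nat_rpow.mpr (by norm_num))

lemma xp_diff {p : ℕ} (hp : 1 ≤ p) : Differentiable ℂ (xp p) := by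
  unfold xp
  intro w
  refine DifferentiableAt.const_cpow differentiable_neg.differentiableAt (Or.inl ?_)
  exact_mod_cast (show p ≠ 0 by omega)

lemma g4_diff (E : EData S A) (p : ℕ) {w : ℂ} (hw : -(1 / 100) < w.re) :
    DifferentiableAt ℂ (g4 S A p) w := by
  by_cases hp : p ∈ S
  · have h29 := ge29 E hp
    have hX := xp_diff (show 1 ≤ p by omega) w
    have h1 : g4 S A p = fun w => cc A p * xp p w - Complex.log (fac A p (xp p w)) -
        mm A p * (xp p w - xp p w ^ 2) := by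
      funext w; unfold g4 gterm; rw [if_pos hp, mc_of_mem hp]
    rw [h1]
    refine ((hX.const_mul _).sub (DifferentiableAt.clog ?_ ?_)).sub ((hX.sub (hX.pow 2)).const_mul _)
    · unfold fac
      exact ((differentiableAt_const _).sub (hX.const_mul _)).add ((hX.pow 2).const_mul _)
    · obtain ⟨t, δ, X, h1, h2, h3, h4, h5, h6, h7⟩ := rescale E hp hw
      rw [h6]
      exact factor_slit h1 h2 h3 h4
  · have h1 : g4 S A p = fun _ => 0 := by
      funext w; unfold g4 gterm mc; rw [if_neg hp, if_neg hp]; simp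
    rw [h1]
    exact differentiableAt_const _

theorem G4_diff (E : EData S A) {w : ℂ} (hw : -(1 / 100) < w.re) : DifferentiableAt ℂ (G4 S A) w := by
  have hd : DifferentiableOn ℂ (G4 S A) {z : ℂ | -(1 / 100) < z.re} := by
    refine Complex.differentiableOn_tsum_of_summable_norm g4_summable ?_
      (isOpen_re _) ?_
    · intro p z hz
      exact (g4_diff E p hz).differentiableWithinAt
    · intro p z hz
      exact g4_norm E p hz
  exact hd.differentiableAt ((isOpen_re _).mem_nhds hw)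

theorem G4_zero (E : EData S A) : G4 S A 0 = 0 := by
  unfold G4
  have : ∀ p, g4 S A p 0 = 0 := by
    intro p
    unfold g4 gterm
    by_cases hp : p ∈ S
    · rw [if_pos hp, xp_zero, E.cc_eq hp]
      ring
    · unfold mc
      rw [if_neg hp, if_neg hp]
      simp
  simp [this]

/-- the main part on the real axis -/
lemma sc_real (E : EData S A) {w : ℝ} (hw : 0 < w) :
    HasSum (fun p : ℕ => mc S A p * ((p:ℝ) ^ (-w) - (p:ℝ) ^ (-(2 * w)))) (w * lap (sc S A) w) := by
  have h1 := E.mc_hasSum hw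
  have h2 := E.mc_hasSum (w := 2 * w) (by linarith)
  have h3 := h1.sub h2
  have e : w * lap (sc S A) w = w * lap (stp (mc S A)) w - 2 * w * lap (stp (mc S A)) (2 * w) := by
    rw [← lap_half]
    have h4 : lap (sc S A) w = lap (stp (mc S A)) w - lap (fun u => stp (mc S A) (u / 2)) w :=
      lap_sub (E.mc_LInt hw) (LInt_half (E.mc_LInt (by linarith)))
    rw [h4]
    ring
  rw [e]
  have e2 : (fun p : ℕ => mc S A p * ((p:ℝ) ^ (-w) - (p:ℝ) ^ (-(2 * w)))) =
      fun n : ℕ => mc S A n * (n:ℝ) ^ (-w) - mc S A n * (n:ℝ) ^ (-(2 * w)) := by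
    funext p; ring
  rw [e2]
  exact h3

lemma split_real (E : EData S A) {w : ℝ} (hw : 0 < w) :
    (w:ℂ) * lapC (sc S A) w = GG S A w - G4 S A w := by
  rw [lapC_ofReal, ← Complex.ofReal_mul]
  have h1 := (Complex.hasSum_ofReal.2 (sc_real E hw))
  have h2 : Summable fun p => gterm S A p w := E.gterm_summable (by simpa using hw)
  have h3 : Summable fun p => g4 S A p w :=
    Summable.of_norm_bounded g4_summable fun p => g4_norm E p (by
      rw [Complex.ofReal_re]; linarith)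
  have h4 := h2.hasSum.sub h3.hasSum
  have e : (fun p => gterm S A p w - g4 S A p w) =
      fun p : ℕ => ((mc S A p * ((p:ℝ) ^ (-w) - (p:ℝ) ^ (-(2 * w))) : ℝ) : ℂ) := by
    funext p
    unfold g4
    rw [xp_real]
    push_cast
    have e3 : ((((p:ℝ) ^ (-w) : ℝ) : ℂ)) ^ 2 = (((p:ℝ) ^ (-(2 * w)) : ℝ) : ℂ) := by
      rw [← Complex.ofReal_pow]
      congr 1
      rw [← Real.rpow_natCast, ← Real.rpow_mul (Nat.cast_nonneg p)]
      congr 1
      push_cast
      ring
    rw [sub_sub_cancel]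
    congr 1
    rw [e3]
  rw [e] at h4
  exact h1.unique h4

/-- the main part in the half plane -/
theorem split (E : EData S A) {z : ℂ} (hz : 0 < z.re) :
    z * lapC (sc S A) z = GG S A z - G4 S A z := by
  have hA : AnalyticOnNhd ℂ (fun z => z * lapC (sc S A) z) {z : ℂ | 0 < z.re} := by
    refine DifferentiableOn.analyticOnNhd (fun w hw => ?_) (isOpen_re 0)
    exact (differentiableAt_id.mul (lapC_differentiableAt sc_meas
      (fun x hx => E.sc_LInt hx) hw)).differentiableWithinAt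
  have hB : AnalyticOnNhd ℂ (fun z => GG S A z - G4 S A z) {z : ℂ | 0 < z.re} := by
    refine DifferentiableOn.analyticOnNhd (fun w hw => ?_) (isOpen_re 0)
    have hw' : 0 < w.re := hw
    exact ((E.GG_differentiable hw).sub (G4_diff E (by linarith))).differentiableWithinAt
  have hpre : IsPreconnected {z : ℂ | 0 < z.re} := (convex_halfSpace_re_gt 0).isPreconnected
  have h1mem : (1:ℂ) ∈ {z : ℂ | 0 < z.re} := by simp
  refine hA.eqOn_of_preconnected_of_frequently_eq hB hpre h1mem ?_ hz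
  -- the real points accumulate at `1`
  have hseq : Tendsto (fun n : ℕ => ((1 + 1 / ((n:ℝ) + 1) : ℝ) : ℂ)) atTop (𝓝[≠] 1) := by
    rw [tendsto_nhdsWithin_iff]
    constructor
    · have h2 : Tendsto (fun n : ℕ => (1 + 1 / ((n:ℝ) + 1) : ℝ)) atTop (𝓝 (1 + 0)) :=
        tendsto_one_div_add_atTop_nhds_zero_nat.const_add 1
      rw [add_zero] at h2
      have h3 := (Complex.continuous_ofReal.tendsto 1).comp h2
      rw [Complex.ofReal_one] at h3
      exact h3
    · refine Eventually.of_forall fun n => ?_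
      intro h
      have h2 : ((1 + 1 / ((n:ℝ) + 1) : ℝ) : ℂ) = ((1:ℝ) : ℂ) := by simpa using h
      have h3 : 1 + 1 / ((n:ℝ) + 1) = 1 := by exact_mod_cast h2
      have h4 : 0 < 1 / ((n:ℝ) + 1) := by positivity
      linarith
  refine hseq.frequently (Frequently.of_forall fun n => ?_)
  have h4 : 0 < 1 / ((n:ℝ) + 1) := by positivity
  exact split_real E (by linarith)

/-- the function `log P* `, up to a constant -/
noncomputable def f4 (S : Set ℕ) (A : ℕ → ℝ) (u : ℝ) : ℝ := aak S A 0 u - sc S A u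

/-- **The data.** -/
theorem wd (E : EData S A) {Φ : ℂ → ℂ} (D : Data 1 (aak S A 0) Φ (GG S A) 2) :
    ∃ B : ℝ, WD (f4 S A) B Φ (G4 S A) (1 / 100) := by
  obtain ⟨M, hM⟩ := E.sc_bounded
  refine ⟨2 + |M|, ⟨⟨(aak_measurable 0).sub sc_meas, fun u hu => ?_⟩, by norm_num, D.hΦ,
    fun z hz => G4_diff E hz, fun z hz => ?_⟩⟩
  · have h1 := E.aak_abs 0 u
    have h2 := hM u hu
    have h3 : Real.exp u ≤ Real.exp (2 * u) := Real.exp_le_exp.2 (by linarith)
    have h4 : 1 ≤ Real.exp (2 * u) := Real.one_le_exp (by linarith)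
    have h5 : |sc S A u| ≤ |M| * Real.exp (2 * u) := by
      have := le_abs_self M
      nlinarith [abs_nonneg M]
    unfold f4
    refine (abs_sub _ _).trans ?_
    nlinarith
  · rw [D.eq z hz]
    congr 1
    have h1 := split E (z := z) (by linarith)
    have h2 : U (f4 S A) 0 z = lapC (aak S A 0) z - lapC (sc S A) z := by
      unfold U lapC
      rw [← integral_sub (LInt.complex (aak_measurable 0) (E.aak_LInt 0 hz))
        (LInt.complex sc_meas (E.sc_LInt (by linarith)))]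
      congr 1
      funext u
      unfold f4
      push_cast
      ring
    rw [h2, pow_one]
    linear_combination (-1) * h1

end Pool.Agent.V8H22.BSW
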