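import Pool.Agent.V8H22.BSW.A7
import Pool.Agent.N586.BP.Core

/-!
# The product of Birch and Swinnerton-Dyer in windows
-/

set_option autoImplicit false
set_option maxHeartbeats 1000000

open MeasureTheory Complex Set Filter Topology Metric
open Pool.Agent.W263.BSD hiding TT
open Pool.Agent.N586.BP (TT)

namespace Pool.Agent.V8H22.BSW

variable {a b : ℤ}

lemma sc_lim (hΔ : 4 * a ^ 3 + 27 * b ^ 2 ≠ 0) (hrs : Tendsto (rsSum a b) atTop (𝓝 0)) :
    Tendsto (sc (SS a b) (Ap a b)) atTop (𝓝 (Real.log 2 / 2)) := by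
  have h1 := (corr_tendsto hΔ hrs).comp Real.tendsto_exp_atTop
  have h2 := h1.neg
  rw [neg_neg] at h2
  refine h2.congr' ?_
  filter_upwards [eventually_ge_atTop 8] with u hu
  simp only [Function.comp_apply]
  rw [corr_eq hu, neg_neg]

lemma log_P {u : ℝ} (hu : 8 ≤ u) : Real.log (bsdProduct a b (Real.exp u)) =
    f4 (SS a b) (Ap a b) u + sc (SS a b) (Ap a b) u + kap a b := by
  rw [log_bsd_eq (by linarith)]
  unfold f4
  ring

lemma log_TT {F : ℂ → ℂ} {r : ℕ} (h : 0 < leadAbs F r) :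
    LL (G4 (SS a b) (Ap a b)) r (leadAbs F r * ‖small a b 0‖) + Real.log 2 / 2 + kap a b =
      Real.log (TT F r) := by
  have h2 : Real.log (TT F r) = Real.log (√2) +
      Real.log (Real.exp (r * Real.eulerMascheroniConstant) / leadAbs F r) := by
    unfold TT
    exact Real.log_mul (by positivity) (by positivity)
  rw [h2, ← target_eq (a := a) (b := b) h, Real.log_sqrt (by norm_num)]
  unfold LL
  rw [G4_zero (eData a b), Complex.zero_re]
  ring

/-- no real zeros on the right of `1` -/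
def NRZ (F : ℂ → ℂ) : Prop := ∀ s : ℝ, 1 < s → F s ≠ 0

/-- the centre, logarithmic form -/
theorem centre_log (hΔ : 4 * a ^ 3 + 27 * b ^ 2 ≠ 0) (hrs : Tendsto (rsSum a b) atTop (𝓝 0))
    {F : ℂ → ℂ} (hF : IsLSeries a b F) {r : ℕ} (hr : analyticOrderAt F 1 = r) {s : ℝ}
    (hs : s = 1 ∨ (s = -1 ∧ NRZ F)) {δ : ℝ} (hδ : 0 < δ) {ε : ℝ} (hε : 0 < ε) :
    ∀ᶠ V : ℝ in atTop, ∃ v, V ≤ v ∧ v ≤ (1 + δ) * V ∧
      s * (r * Real.log v + Real.log (TT F r)) - ε < s * Real.log (bsdProduct a b (Real.exp v)) := by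
  obtain ⟨B, D⟩ := wd (eData a b) (data 0 hF)
  obtain ⟨hlead, -⟩ := lead_limit hF.1 hr
  have hc0 : 0 < leadAbs F r * ‖small a b 0‖ := mul_pos hlead small_norm_pos
  have hs' : s = 1 ∨ (s = -1 ∧ ∀ x : ℝ, 0 < x → PhiF a b F x ≠ 0) :=
    hs.imp id fun h => ⟨h.1, fun x hx => phi_ne h.2 x hx⟩
  have h1 := D.centre hδ hs' hc0 (phi_limit hF hr) (ε := ε / 2) (by linarith)
  obtain ⟨u0, hu0⟩ := eventually_atTop.1 ((Metric.tendsto_nhds.1 (sc_lim hΔ hrs)) (ε / 2) (by linarith))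
  have hsabs : |s| = 1 := by rcases hs with rfl | ⟨rfl, -⟩ <;> simp
  filter_upwards [h1, eventually_ge_atTop (max u0 8)] with V ⟨v, h2, h3, h4⟩ hV
  have hv8 : 8 ≤ v := ((le_max_right _ _).trans hV).trans h2
  have hvu : u0 ≤ v := ((le_max_left _ _).trans hV).trans h2
  refine ⟨v, h2, h3, ?_⟩
  rw [log_P hv8, ← log_TT (a := a) (b := b) hlead]
  have h5 := hu0 v hvu
  rw [Real.dist_eq] at h5
  have h6 : |s * (sc (SS a b) (Ap a b) v - Real.log 2 / 2)| < ε / 2 := by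
    rw [abs_mul, hsabs, one_mul]; exact h5
  have h7 := (abs_lt.1 h6).1
  linarith

/-- zeros off the line, logarithmic form -/
theorem large_log {F : ℂ → ℂ} (hF : IsLSeries a b F) {s : ℝ} (hs : s = 1 ∨ (s = -1 ∧ NRZ F))
    {s0 : ℂ} (h0 : F s0 = 0) (h01 : 1 < s0.re) {δ : ℝ} (hδ : 0 < δ) {ε : ℝ} (hε : 0 < ε) :
    ∀ᶠ V : ℝ in atTop, ∃ v, V ≤ v ∧ v ≤ (1 + δ) * V ∧
      Real.exp ((s0.re - 1 - ε) * v) ≤ s * Real.log (bsdProduct a b (Real.exp v)) := by
  obtain ⟨B, D⟩ := wd (eData a b) (data 0 hF)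
  set β := s0.re - 1 with hβ
  have hβ0 : 0 < β := by linarith
  have hz : PhiF a b F (s0 - 1) = 0 := by
    unfold PhiF
    rw [add_sub_cancel, h0, zero_mul]
  have hre : (s0 - 1).re = β := by simp [hβ]
  set ε' := min ε β with hε'
  have hε'0 : 0 < ε' := lt_min hε hβ0
  have hε'1 : ε' ≤ ε := min_le_left _ _
  have hε'2 : ε' ≤ β := min_le_right _ _
  set δ' := min δ 1 with hδ'
  have hs' : s = 1 ∨ (s = -1 ∧ ∀ x : ℝ, 0 < x → PhiF a b F x ≠ 0) :=
    hs.imp id fun h => ⟨h.1, fun x hx => phi_ne h.2 x hx⟩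
  have h1 := D.large (δ := δ') (lt_min hδ one_pos) (min_le_right _ _) hs' hz (by rw [hre]; exact hβ0)
    (ε := ε' / 2) (by linarith)
  rw [hre] at h1
  obtain ⟨M, hM⟩ := (eData a b).sc_bounded
  have hsabs : |s| = 1 := by rcases hs with rfl | ⟨rfl, -⟩ <;> simp
  set c := β - ε' / 2 with hc
  have hc0 : 0 < c := by linarith
  -- `exp (c v) - C ≥ exp ((β - ε) v)`
  have hlim : Tendsto (fun v : ℝ => Real.exp (-(ε' / 2 * v)) + (|M| + |kap a b|) * Real.exp (-(c * v)))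
      atTop (𝓝 0) := by
    have t1 : Tendsto (fun V : ℝ => Real.exp (-(ε' / 2 * V))) atTop (𝓝 0) :=
      Real.tendsto_exp_neg_atTop_nhds_zero.comp (tendsto_id.const_mul_atTop (by linarith))
    have t2 : Tendsto (fun V : ℝ => Real.exp (-(c * V))) atTop (𝓝 0) :=
      Real.tendsto_exp_neg_atTop_nhds_zero.comp (tendsto_id.const_mul_atTop hc0)
    have t3 := t1.add (t2.const_mul (|M| + |kap a b|))
    simpa using t3
  obtain ⟨v0, hv0⟩ := eventually_atTop.1 (hlim.eventually (gt_mem_nhds one_pos))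
  filter_upwards [h1, eventually_ge_atTop (max v0 8)] with V ⟨v, h2, h3, h4⟩ hV
  have hv8 : 8 ≤ v := ((le_max_right _ _).trans hV).trans h2
  have hvu : v0 ≤ v := ((le_max_left _ _).trans hV).trans h2
  have hV0 : 0 ≤ V := by have := (le_max_right v0 8).trans hV; linarith
  refine ⟨v, h2, h3.trans (mul_le_mul_of_nonneg_right (by
    have := min_le_left δ 1
    linarith) hV0), ?_⟩
  rw [log_P hv8]
  have h5 := hv0 v hvu
  have h6 := hM v (by linarith)
  have h7 : |s * (sc (SS a b) (Ap a b) v + kap a b)| ≤ |M| + |kap a b| := by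
    rw [abs_mul, hsabs, one_mul]
    have := abs_add_le (sc (SS a b) (Ap a b) v) (kap a b)
    have := le_abs_self M
    linarith
  have h8 := (abs_le.1 h7).1
  have h9 : Real.exp ((β - ε) * v) ≤ Real.exp (c * v) * Real.exp (-(ε' / 2 * v)) := by
    rw [← Real.exp_add]
    refine Real.exp_le_exp.2 ?_
    rw [hc]
    nlinarith
  have h10 := Real.exp_pos (c * v)
  have h11 : Real.exp (c * v) * Real.exp (-(c * v)) = 1 := by
    rw [← Real.exp_add]; simp
  have h12 := mul_lt_mul_of_pos_left h5 h10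
  have h13 : Real.exp (c * v) * (Real.exp (-(ε' / 2 * v)) + (|M| + |kap a b|) * Real.exp (-(c * v))) =
      Real.exp (c * v) * Real.exp (-(ε' / 2 * v)) + (|M| + |kap a b|) := by
    linear_combination (|M| + |kap a b|) * h11
  rw [h13, mul_one] at h12
  linarith

/-- from the logarithmic scale to windows `[X, X^(1+δ)]` -/
lemma to_window {δ : ℝ} (R : ℝ → Prop)
    (h : ∀ᶠ V : ℝ in atTop, ∃ v, V ≤ v ∧ v ≤ (1 + δ) * V ∧ R (Real.exp v)) :
    ∀ᶠ X : ℝ in atTop, ∃ x ∈ Icc X (X ^ (1 + δ)), R x := by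
  filter_upwards [Real.tendsto_log_atTop.eventually h, eventually_gt_atTop 0] with X ⟨v, h1, h2, h3⟩ hX
  refine ⟨Real.exp v, ⟨?_, ?_⟩, h3⟩
  · rwa [Real.log_le_iff_le_exp hX] at h1
  · rw [Real.rpow_def_of_pos hX, mul_comm]
    exact Real.exp_le_exp.2 h2

lemma TT_pos {F : ℂ → ℂ} {r : ℕ} (h : 0 < leadAbs F r) : 0 < TT F r := by
  unfold TT
  positivity

/-- (A) and (B) -/
theorem centre_win (hΔ : 4 * a ^ 3 + 27 * b ^ 2 ≠ 0) (hrs : Tendsto (rsSum a b) atTop (𝓝 0))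
    {F : ℂ → ℂ} (hF : IsLSeries a b F) {r : ℕ} (hr : analyticOrderAt F 1 = r) {δ : ℝ} (hδ : 0 < δ)
    {ε : ℝ} (hε : 0 < ε) :
    (∀ᶠ X : ℝ in atTop, ∃ x ∈ Icc X (X ^ (1 + δ)),
      (TT F r - ε) * Real.log x ^ r ≤ bsdProduct a b x) ∧
    (NRZ F → ∀ᶠ X : ℝ in atTop, ∃ x ∈ Icc X (X ^ (1 + δ)),
      bsdProduct a b x ≤ (TT F r + ε) * Real.log x ^ r) := by
  obtain ⟨hlead, -⟩ := lead_limit hF.1 hr
  have hT := TT_pos hlead
  set ε1 := Real.log (1 + ε / TT F r) with hε1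
  have hq : 1 < 1 + ε / TT F r := by
    have : 0 < ε / TT F r := by positivity
    linarith
  have hε10 : 0 < ε1 := Real.log_pos hq
  have hexp : Real.exp ε1 = 1 + ε / TT F r := Real.exp_log (by linarith)
  constructor
  · refine to_window (fun x => (TT F r - ε) * Real.log x ^ r ≤ bsdProduct a b x) ?_
    filter_upwards [centre_log hΔ hrs hF hr (s := 1) (Or.inl rfl) hδ hε10, eventually_gt_atTop 0]
      with V ⟨v, h1, h2, h3⟩ hV
    refine ⟨v, h1, h2, ?_⟩
    have hv : 0 < v := by linarith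
    rw [Real.log_exp]
    have hP := bsdProduct_pos (a := a) (b := b) (Real.exp v)
    have h4 : Real.log (v ^ r * TT F r * Real.exp (-ε1)) ≤ Real.log (bsdProduct a b (Real.exp v)) := by
      rw [Real.log_mul (by positivity) (Real.exp_pos _).ne', Real.log_mul (by positivity) hT.ne',
        Real.log_pow, Real.log_exp]
      linarith
    have h5 := (Real.log_le_log_iff (by positivity) hP).1 h4
    refine le_trans ?_ h5
    have h6 : TT F r - ε ≤ TT F r * Real.exp (-ε1) := by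
      rw [Real.exp_neg, hexp, ← div_eq_mul_inv, le_div_iff₀ (by positivity)]
      have : (TT F r - ε) * (1 + ε / TT F r) = TT F r - ε * (ε / TT F r) := by field_simp; ring
      rw [this]
      have : 0 ≤ ε * (ε / TT F r) := by positivity
      linarith
    calc (TT F r - ε) * v ^ r ≤ (TT F r * Real.exp (-ε1)) * v ^ r :=
          mul_le_mul_of_nonneg_right h6 (by positivity)
      _ = _ := by ring
  · intro hn
    refine to_window (fun x => bsdProduct a b x ≤ (TT F r + ε) * Real.log x ^ r) ?_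
    filter_upwards [centre_log hΔ hrs hF hr (s := -1) (Or.inr ⟨rfl, hn⟩) hδ hε10, eventually_gt_atTop 0]
      with V ⟨v, h1, h2, h3⟩ hV
    refine ⟨v, h1, h2, ?_⟩
    have hv : 0 < v := by linarith
    rw [Real.log_exp]
    have hP := bsdProduct_pos (a := a) (b := b) (Real.exp v)
    have h4 : Real.log (bsdProduct a b (Real.exp v)) ≤ Real.log (v ^ r * TT F r * Real.exp ε1) := by
      rw [Real.log_mul (by positivity) (Real.exp_pos _).ne', Real.log_mul (by positivity) hT.ne',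
        Real.log_pow, Real.log_exp]
      linarith
    have h5 := (Real.log_le_log_iff hP (by positivity)).1 h4
    refine h5.trans (le_of_eq ?_)
    rw [hexp]
    field_simp

/-- (C) -/
theorem large_win {F : ℂ → ℂ} (hF : IsLSeries a b F) {s0 : ℂ} (h0 : F s0 = 0) (h01 : 1 < s0.re)
    {δ : ℝ} (hδ : 0 < δ) {ε : ℝ} (hε : 0 < ε) :
    (∀ᶠ X : ℝ in atTop, ∃ x ∈ Icc X (X ^ (1 + δ)),
      Real.exp (x ^ (s0.re - 1 - ε)) ≤ bsdProduct a b x) ∧
    (NRZ F → ∀ᶠ X : ℝ in atTop, ∃ x ∈ Icc X (X ^ (1 + δ)),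
      bsdProduct a b x ≤ Real.exp (-x ^ (s0.re - 1 - ε))) := by
  constructor
  · refine to_window (fun x => Real.exp (x ^ (s0.re - 1 - ε)) ≤ bsdProduct a b x) ?_
    filter_upwards [large_log hF (s := 1) (Or.inl rfl) h0 h01 hδ hε] with V ⟨v, h1, h2, h3⟩
    refine ⟨v, h1, h2, ?_⟩
    rw [← Real.exp_mul, mul_comm v, ← Real.le_log_iff_exp_le (bsdProduct_pos _)]
    linarith
  · intro hn
    refine to_window (fun x => bsdProduct a b x ≤ Real.exp (-x ^ (s0.re - 1 - ε))) ?_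
    filter_upwards [large_log hF (s := -1) (Or.inr ⟨rfl, hn⟩) h0 h01 hδ hε] with V ⟨v, h1, h2, h3⟩
    refine ⟨v, h1, h2, ?_⟩
    rw [← Real.exp_mul, mul_comm v, ← Real.log_le_iff_le_exp (bsdProduct_pos _)]
    linarith

/-- (D): bounds in sparse windows exclude zeros off the line -/
theorem rh_of_windows {F : ℂ → ℂ} (hF : IsLSeries a b F)
    (h : ∀ ε : ℝ, 0 < ε → ∃ δ : ℝ, 0 < δ ∧ ∃ᶠ X : ℝ in atTop, ∀ x ∈ Icc X (X ^ (1 + δ)),
      bsdProduct a b x ≤ Real.exp (x ^ ε)) {s : ℂ} (hs : 1 < s.re) : F s ≠ 0 := by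
  intro h0
  set β := s.re - 1 with hβ
  have hβ0 : 0 < β := by linarith
  obtain ⟨δ, hδ, h1⟩ := h (β / 2) (by linarith)
  have h2 := (large_win hF h0 hs hδ (ε := β / 4) (by linarith)).1
  obtain ⟨X, h3, h4, h5⟩ := (h1.and_eventually (h2.and (eventually_gt_atTop (1:ℝ)))).exists
  obtain ⟨x, hx, h6⟩ := h4
  have h7 := h6.trans (h3 x hx)
  rw [Real.exp_le_exp] at h7
  have hx1 : 1 < x := lt_of_lt_of_le h5 hx.1
  rw [Real.rpow_le_rpow_left_iff hx1] at h7
  linarith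

/-- powers of the logarithm are small -/
lemma logpow_small (C ρ : ℝ) {ε : ℝ} (hε : 0 < ε) :
    ∀ᶠ x : ℝ in atTop, C * Real.log x ^ ρ ≤ Real.exp (x ^ ε) := by
  have h1 : ∀ᶠ x : ℝ in atTop, Real.log x ^ (|ρ| + 1) ≤ x ^ ε := by
    have h := (isLittleO_log_rpow_rpow_atTop (|ρ| + 1) hε).bound one_pos
    filter_upwards [h, eventually_ge_atTop 1] with x h1 h2
    have hx0 : 0 < x := by linarith
    rw [one_mul, Real.norm_of_nonneg (Real.rpow_nonneg (Real.log_nonneg h2) _),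
      Real.norm_of_nonneg (Real.rpow_nonneg hx0.le ε)] at h1
    exact h1
  filter_upwards [h1, Real.tendsto_log_atTop.eventually_ge_atTop (max 1 |C|)] with x h2 h3
  have h4 : 1 ≤ Real.log x := (le_max_left _ _).trans h3
  have h5 : |C| ≤ Real.log x := (le_max_right _ _).trans h3
  calc C * Real.log x ^ ρ ≤ |C| * Real.log x ^ |ρ| := by
        refine mul_le_mul (le_abs_self C) (Real.rpow_le_rpow_of_exponent_le h4 (le_abs_self ρ))
          (by positivity) (abs_nonneg C)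
    _ ≤ Real.log x * Real.log x ^ |ρ| := by gcongr
    _ = Real.log x ^ (|ρ| + 1) := by rw [Real.rpow_add (by linarith), Real.rpow_one]; ring
    _ ≤ x ^ ε := h2
    _ ≤ Real.exp (x ^ ε) := by
        have := Real.add_one_le_exp (x ^ ε)
        linarith

/-- comparison of powers of the logarithm -/
lemma rho_le {ρ σ c C : ℝ} (hc : 0 < c)
    (h : ∃ᶠ x : ℝ in atTop, c * Real.log x ^ ρ ≤ C * Real.log x ^ σ) : ρ ≤ σ := by
  by_contra hlt
  push Not at hlt
  have h5 : Tendsto (fun x : ℝ => Real.log x ^ (ρ - σ)) atTop atTop :=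
    (tendsto_rpow_atTop (by linarith)).comp Real.tendsto_log_atTop
  obtain ⟨x, h6, h8, h9⟩ := (h.and_eventually ((h5.eventually_gt_atTop (C / c)).and
    (eventually_gt_atTop 1))).exists
  have hl : 0 < Real.log x := Real.log_pos h9
  rw [Real.rpow_sub hl, lt_div_iff₀ (Real.rpow_pos_of_pos hl _), div_mul_eq_mul_div,
    div_lt_iff₀ hc] at h8
  linarith

/-- a frequent property of windows and an eventual point -/
lemma freq_point {δ : ℝ} {R Q : ℝ → Prop} (h1 : ∃ᶠ X : ℝ in atTop, ∀ x ∈ Icc X (X ^ (1 + δ)), R x)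
    (h2 : ∀ᶠ X : ℝ in atTop, ∃ x ∈ Icc X (X ^ (1 + δ)), Q x) : ∃ᶠ x : ℝ in atTop, R x ∧ Q x := by
  rw [frequently_atTop]
  intro N
  obtain ⟨X, h3, ⟨x, hx, h4⟩, h5⟩ := (h1.and_eventually (h2.and (eventually_ge_atTop N))).exists
  exact ⟨x, h5.trans hx.1, h3 x hx, h4⟩

/-- (E) the exact order in sparse windows -/
theorem order_of_windows (hΔ : 4 * a ^ 3 + 27 * b ^ 2 ≠ 0) (hrs : Tendsto (rsSum a b) atTop (𝓝 0))
    {F : ℂ → ℂ} (hF : IsLSeries a b F) {r : ℕ} (hr : analyticOrderAt F 1 = r) {ρ δ c C : ℝ}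
    (hδ : 0 < δ) (hc : 0 < c)
    (h : ∃ᶠ X : ℝ in atTop, ∀ x ∈ Icc X (X ^ (1 + δ)), c * Real.log x ^ ρ ≤ bsdProduct a b x ∧
      bsdProduct a b x ≤ C * Real.log x ^ ρ) : (∀ s : ℂ, 1 < s.re → F s ≠ 0) ∧ ρ = r := by
  have hrh : ∀ s : ℂ, 1 < s.re → F s ≠ 0 := by
    intro s hs
    refine rh_of_windows hF (fun ε hε => ⟨δ, hδ, ?_⟩) hs
    obtain ⟨x0, hx0⟩ := eventually_atTop.1 (logpow_small C ρ hε)
    refine (h.and_eventually (eventually_ge_atTop x0)).mono fun X hX x hx => ?_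
    exact (hX.1 x hx).2.trans (hx0 x (hX.2.trans hx.1))
  obtain ⟨hlead, -⟩ := lead_limit hF.1 hr
  have hT := TT_pos hlead
  refine ⟨hrh, le_antisymm ?_ ?_⟩
  · have h1 := (centre_win hΔ hrs hF hr hδ hT).2 fun s hs => hrh s (by simpa using hs)
    have h2 := freq_point h h1
    refine rho_le hc (C := 2 * TT F r) (h2.mono fun x hx => ?_)
    rw [Real.rpow_natCast]
    exact hx.1.1.trans (hx.2.trans (le_of_eq (by ring)))
  · have h1 := (centre_win hΔ hrs hF hr hδ (half_pos hT)).1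
    have h2 := freq_point h h1
    refine rho_le (half_pos hT) (C := C) (h2.mono fun x hx => ?_)
    rw [Real.rpow_natCast]
    exact (le_of_eq (by ring)).trans (hx.2.trans hx.1.2)

/-- (F) the asymptotic formula in sparse windows -/
theorem asy_of_windows (hΔ : 4 * a ^ 3 + 27 * b ^ 2 ≠ 0) (hrs : Tendsto (rsSum a b) atTop (𝓝 0))
    {F : ℂ → ℂ} (hF : IsLSeries a b F) {r : ℕ} (hr : analyticOrderAt F 1 = r) {ρ A : ℝ}
    (hA : 0 < A)
    (h : ∀ ε : ℝ, 0 < ε → ∃ δ : ℝ, 0 < δ ∧ ∃ᶠ X : ℝ in atTop, ∀ x ∈ Icc X (X ^ (1 + δ)),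
      |bsdProduct a b x / Real.log x ^ ρ - A| ≤ ε) :
    (∀ s : ℂ, 1 < s.re → F s ≠ 0) ∧ ρ = r ∧ A = TT F r := by
  have key : ∀ ε : ℝ, 0 < ε → ∃ δ : ℝ, 0 < δ ∧ ∃ᶠ X : ℝ in atTop, ∀ x ∈ Icc X (X ^ (1 + δ)),
      (A - ε) * Real.log x ^ ρ ≤ bsdProduct a b x ∧ bsdProduct a b x ≤ (A + ε) * Real.log x ^ ρ := by
    intro ε hε
    obtain ⟨δ, hδ, h1⟩ := h ε hε
    refine ⟨δ, hδ, (h1.and_eventually (eventually_gt_atTop 1)).mono fun X hX x hx => ?_⟩
    have h2 := abs_le.1 (hX.1 x hx)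
    have hx1 : 1 < x := lt_of_lt_of_le hX.2 hx.1
    have hl : 0 < Real.log x ^ ρ := Real.rpow_pos_of_pos (Real.log_pos hx1) _
    constructor
    · rw [← le_div_iff₀ hl]; linarith [h2.1]
    · rw [← div_le_iff₀ hl]; linarith [h2.2]
  obtain ⟨δ, hδ, h1⟩ := key (A / 2) (by linarith)
  obtain ⟨hrh, hρ⟩ := order_of_windows hΔ hrs hF hr hδ (show 0 < A - A / 2 by linarith) h1
  refine ⟨hrh, hρ, ?_⟩
  subst hρ
  obtain ⟨hlead, -⟩ := lead_limit hF.1 hr
  have hT := TT_pos hlead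
  have hn : NRZ F := fun s hs => hrh s (by simpa using hs)
  refine le_antisymm ?_ ?_
  · refine le_of_forall_pos_le_add fun ε hε => ?_
    obtain ⟨δ, hδ, h1⟩ := key (ε / 2) (by linarith)
    have h2 := freq_point h1 ((centre_win hΔ hrs hF hr hδ (half_pos hε)).2 hn)
    obtain ⟨x, h3, h4⟩ := (h2.and_eventually (eventually_gt_atTop 1)).exists
    have hl : 0 < Real.log x ^ r := pow_pos (Real.log_pos h4) _
    have h5 := h3.1.1
    rw [Real.rpow_natCast] at h5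
    have h6 := le_of_mul_le_mul_right (h5.trans h3.2) hl
    linarith
  · refine le_of_forall_pos_le_add fun ε hε => ?_
    obtain ⟨δ, hδ, h1⟩ := key (ε / 2) (by linarith)
    have h2 := freq_point h1 ((centre_win hΔ hrs hF hr hδ (half_pos hε)).1)
    obtain ⟨x, h3, h4⟩ := (h2.and_eventually (eventually_gt_atTop 1)).exists
    have hl : 0 < Real.log x ^ r := pow_pos (Real.log_pos h4) _
    have h5 := h3.1.2
    rw [Real.rpow_natCast] at h5
    have h6 := le_of_mul_le_mul_right (h3.2.trans h5) hl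
    linarith

end Pool.Agent.V8H22.BSW
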