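import Pool.Agent.V8H22.BSW.A8

/-!
# Points of each window at which the asymptotic formula holds
-/

set_option autoImplicit false
set_option maxHeartbeats 1000000

open MeasureTheory Complex Set Filter Topology Metric
open Pool.Agent.W263.BSD hiding TT
open Pool.Agent.N586.BP (TT Hasse log_sub one_factor)

namespace Pool.Agent.V8H22.BSW

variable {a b : ℤ}

/-- a discrete intermediate value theorem -/
lemma ivt {h : ℕ → ℝ} {lo hi : ℕ} {ε : ℝ} (hs : ∀ k, lo ≤ k → |h (k + 1) - h k| ≤ ε)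
    {m n : ℕ} (hm : lo ≤ m) (hm' : m ≤ hi) (hn : lo ≤ n) (hn' : n ≤ hi) (h1 : -ε ≤ h m) (h2 : h n ≤ ε) :
    ∃ k, lo ≤ k ∧ k ≤ hi ∧ |h k| ≤ ε := by
  have hε0 : 0 ≤ ε := (abs_nonneg _).trans (hs lo le_rfl)
  by_contra hcon
  push Not at hcon
  have ham := hcon m hm hm'
  have han := hcon n hn hn'
  have hm1 : ε < h m := by
    rcases lt_abs.1 ham with h3 | h3
    · exact h3
    · linarith
  have hn1 : h n < -ε := by
    rcases lt_abs.1 han with h3 | h3
    · linarith
    · linarith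
  rcases le_total m n with h3 | h3
  · have key : ∀ j, m + j ≤ hi → ε < h (m + j) := by
      intro j
      induction j with
      | zero => intro _; simpa using hm1
      | succ j ih =>
        intro h4
        have h5 := ih (by omega)
        have h6 := (abs_le.1 (hs (m + j) (by omega))).1
        rcases lt_abs.1 (hcon (m + (j + 1)) (by omega) h4) with h7 | h7
        · exact h7
        · rw [← add_assoc] at h7
          linarith
    have h8 := key (n - m) (by omega)
    rw [Nat.add_sub_cancel' h3] at h8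
    linarith
  · have key : ∀ j, n + j ≤ hi → h (n + j) < -ε := by
      intro j
      induction j with
      | zero => intro _; simpa using hn1
      | succ j ih =>
        intro h4
        have h5 := ih (by omega)
        have h6 := (abs_le.1 (hs (n + j) (by omega))).2
        rcases lt_abs.1 (hcon (n + (j + 1)) (by omega) h4) with h7 | h7
        · rw [← add_assoc] at h7
          linarith
        · linarith
    have h8 := key (m - n) (by omega)
    rw [Nat.add_sub_cancel' h3] at h8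
    linarith

/-- the steps of the logarithm of the product tend to `0` -/
lemma step_small (hH : Hasse a b) {η : ℝ} (hη : 0 < η) : ∀ᶠ n : ℕ in atTop,
    |Real.log (bsdProduct a b ((n + 1 : ℕ) : ℝ)) - Real.log (bsdProduct a b (n : ℝ))| ≤ η := by
  obtain ⟨D, hD⟩ := hH
  have hlim : Tendsto (fun n : ℕ => 22 / √((n : ℝ) + 1)) atTop (𝓝 0) := by
    refine Tendsto.div_atTop tendsto_const_nhds (Real.tendsto_sqrt_atTop.comp ?_)
    exact tendsto_atTop_add_const_right _ _ tendsto_natCast_atTop_atTop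
  filter_upwards [hlim.eventually (gt_mem_nhds hη), eventually_ge_atTop (max 100 D)] with n h1 h2
  have hn100 : 100 ≤ n := (le_max_left _ _).trans h2
  have hnD : D ≤ n := (le_max_right _ _).trans h2
  rw [log_sub (by push_cast; linarith)]
  have h3 : (Finset.Ioc ⌊(n : ℝ)⌋₊ ⌊((n + 1 : ℕ) : ℝ)⌋₊) = {n + 1} := by
    rw [Nat.floor_natCast, Nat.floor_natCast]
    ext p
    simp only [Finset.mem_Ioc, Finset.mem_singleton]
    omega
  rw [h3, Finset.filter_singleton]
  split_ifs with h4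
  · rw [Finset.sum_singleton]
    have h5 := hD (n + 1) h4.1 (by omega)
    have h6 := one_factor (a := a) (b := b) (p := n + 1) (by omega) h5
    have hp0 : (0 : ℝ) < ((n + 1 : ℕ) : ℝ) := by positivity
    set s := √(((n + 1 : ℕ) : ℝ)) with hs
    have hs2 : s * s = ((n + 1 : ℕ) : ℝ) := Real.mul_self_sqrt hp0.le
    have hs1 : 1 ≤ s := by
      rw [hs, Real.one_le_sqrt]
      push_cast
      have : (0 : ℝ) ≤ n := Nat.cast_nonneg n
      linarith
    have h7 : |(((n + 1 : ℕ) : ℝ) - pointCount a b (n + 1)) / ((n + 1 : ℕ) : ℝ)| ≤ 2 / s := by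
      rw [abs_div, abs_of_pos hp0, div_le_div_iff₀ hp0 (by linarith)]
      have h8 := mul_le_mul_of_nonneg_right h5 (by linarith : 0 ≤ s)
      calc _ ≤ 2 * s * s := h8
        _ = 2 * ((n + 1 : ℕ) : ℝ) := by rw [mul_assoc, hs2]
    have h8 : (20 : ℝ) / ((n + 1 : ℕ) : ℝ) ≤ 20 / s := by
      refine div_le_div_of_nonneg_left (by norm_num) (by linarith) ?_
      rw [← hs2]; nlinarith
    have h9 : s = √((n : ℝ) + 1) := by rw [hs]; push_cast; rfl
    have h10 : 2 / s + 20 / s = 22 / s := by ring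
    have h11 : |Real.log (((pointCount a b (n + 1) : ℝ) + 1) / ((n + 1 : ℕ) : ℝ))| ≤ 20 / s + 2 / s := by
      have := abs_sub_abs_le_abs_sub (Real.log (((pointCount a b (n + 1) : ℝ) + 1) / ((n + 1 : ℕ) : ℝ)))
        (-((((n + 1 : ℕ) : ℝ) - pointCount a b (n + 1)) / ((n + 1 : ℕ) : ℝ)))
      rw [abs_neg, sub_neg_eq_add] at this
      linarith
    rw [h9] at h11 h10
    linarith
  · rw [Finset.sum_empty, abs_zero]
    exact hη.le

/-- the steps of `log log n` tend to `0` -/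
lemma loglog_step (r : ℕ) {η : ℝ} (hη : 0 < η) : ∀ᶠ n : ℕ in atTop,
    |(r : ℝ) * Real.log (Real.log ((n + 1 : ℕ) : ℝ)) - r * Real.log (Real.log (n : ℝ))| ≤ η := by
  have h1 : Tendsto (fun n : ℕ => (r : ℝ) * (Real.log ((n : ℝ) + 1) - Real.log n)) atTop (𝓝 0) := by
    have := Real.tendsto_log_nat_add_one_sub_log.const_mul (r : ℝ)
    rwa [mul_zero] at this
  filter_upwards [h1.eventually (gt_mem_nhds hη), eventually_ge_atTop 3] with n h2 h3
  have hn3 : (3 : ℝ) ≤ n := by exact_mod_cast h3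
  have hl1 : 1 ≤ Real.log (n : ℝ) := by
    rw [Real.le_log_iff_exp_le (by linarith)]
    linarith [Real.exp_one_lt_three]
  have hl2 : Real.log (n : ℝ) ≤ Real.log ((n : ℝ) + 1) := Real.log_le_log (by linarith) (by linarith)
  push_cast
  have h4 : Real.log (Real.log (n : ℝ)) ≤ Real.log (Real.log ((n : ℝ) + 1)) :=
    Real.log_le_log (by linarith) hl2
  have h5 : Real.log (Real.log ((n : ℝ) + 1)) - Real.log (Real.log (n : ℝ)) ≤
      Real.log ((n : ℝ) + 1) - Real.log n := by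
    rw [← Real.log_div (by linarith) (by linarith)]
    refine (Real.log_le_sub_one_of_pos (div_pos (by linarith) (by linarith))).trans ?_
    rw [div_sub_one (by linarith)]
    exact div_le_self (by linarith) hl1
  have hr : (0 : ℝ) ≤ r := Nat.cast_nonneg r
  rw [← mul_sub, abs_of_nonneg (mul_nonneg hr (by linarith))]
  exact (mul_le_mul_of_nonneg_left h5 hr).trans h2.le

/-- the logarithmic error -/
noncomputable def er (a b : ℤ) (F : ℂ → ℂ) (r : ℕ) (n : ℕ) : ℝ :=
  Real.log (bsdProduct a b (n : ℝ)) - (r * Real.log (Real.log (n : ℝ)) + Real.log (TT F r))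

lemma bsd_floor (x : ℝ) : bsdProduct a b ((⌊x⌋₊ : ℕ) : ℝ) = bsdProduct a b x := by
  unfold bsdProduct
  rw [Nat.floor_natCast]

lemma er_step (hH : Hasse a b) (F : ℂ → ℂ) (r : ℕ) {η : ℝ} (hη : 0 < η) : ∀ᶠ n : ℕ in atTop,
    |er a b F r (n + 1) - er a b F r n| ≤ η := by
  filter_upwards [step_small hH (half_pos hη), loglog_step r (half_pos hη)] with n h1 h2
  have e : er a b F r (n + 1) - er a b F r n =
      (Real.log (bsdProduct a b ((n + 1 : ℕ) : ℝ)) - Real.log (bsdProduct a b (n : ℝ))) -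
      ((r : ℝ) * Real.log (Real.log ((n + 1 : ℕ) : ℝ)) - r * Real.log (Real.log (n : ℝ))) := by
    unfold er; ring
  rw [e]
  exact (abs_sub _ _).trans (by linarith)

/-- the centre: integers of each window with a small error -/
theorem er_small (hΔ : 4 * a ^ 3 + 27 * b ^ 2 ≠ 0) (hrs : Tendsto (rsSum a b) atTop (𝓝 0))
    (hH : Hasse a b) {F : ℂ → ℂ} (hF : IsLSeries a b F) {r : ℕ} (hr : analyticOrderAt F 1 = r)
    (hn : NRZ F) {δ : ℝ} (hδ : 0 < δ) {ε : ℝ} (hε : 0 < ε) :
    ∀ᶠ X : ℝ in atTop, ∃ n : ℕ, X ≤ n ∧ (n : ℝ) ≤ X ^ (1 + δ) ∧ |er a b F r n| ≤ ε := by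
  have hδ2 : 0 < δ / 2 := by positivity
  have hp := centre_log hΔ hrs hF hr (s := 1) (Or.inl rfl) hδ2 (half_pos hε)
  have hm := centre_log hΔ hrs hF hr (s := -1) (Or.inr ⟨rfl, hn⟩) hδ2 (half_pos hε)
  obtain ⟨n0, hn0⟩ := eventually_atTop.1 ((er_step hH F r hε).and (loglog_step r (half_pos hε)))
  have hlog : Tendsto (fun X : ℝ => Real.log (X + 1)) atTop atTop :=
    Real.tendsto_log_atTop.comp (tendsto_atTop_add_const_right _ _ tendsto_id)
  have hwin : ∀ᶠ X : ℝ in atTop, (X + 1) ^ (1 + δ / 2) ≤ X ^ (1 + δ) := by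
    have h1 : Tendsto (fun X : ℝ => X ^ (δ / 2)) atTop atTop := tendsto_rpow_atTop hδ2
    filter_upwards [h1.eventually_ge_atTop (2 ^ (1 + δ / 2)), eventually_ge_atTop 1] with X h2 h3
    calc (X + 1) ^ (1 + δ / 2) ≤ (2 * X) ^ (1 + δ / 2) :=
          Real.rpow_le_rpow (by linarith) (by linarith) (by linarith)
      _ = 2 ^ (1 + δ / 2) * X ^ (1 + δ / 2) := Real.mul_rpow (by norm_num) (by linarith)
      _ ≤ X ^ (δ / 2) * X ^ (1 + δ / 2) := mul_le_mul_of_nonneg_right h2 (by positivity)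
      _ = X ^ (1 + δ) := by
          rw [← Real.rpow_add (by linarith)]
          congr 1; ring
  filter_upwards [hlog.eventually hp, hlog.eventually hm, hwin, eventually_ge_atTop (max 3 (n0 : ℝ))]
    with X ⟨v, v1, v2, v3⟩ ⟨u, u1, u2, u3⟩ hw hX
  have hX3 : 3 ≤ X := (le_max_left _ _).trans hX
  have hXn : (n0 : ℝ) ≤ X := (le_max_right _ _).trans hX
  have hX1 : 0 < X + 1 := by linarith
  -- the integer parts
  have key : ∀ t : ℝ, Real.log (X + 1) ≤ t → t ≤ (1 + δ / 2) * Real.log (X + 1) →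
      ⌈X⌉₊ ≤ ⌊Real.exp t⌋₊ ∧ ⌊Real.exp t⌋₊ ≤ ⌊X ^ (1 + δ)⌋₊ := by
    intro t h1 h2
    constructor
    · rw [Nat.le_floor_iff (Real.exp_pos _).le]
      have h3 := Nat.ceil_lt_add_one (show 0 ≤ X by linarith)
      have h4 := Real.exp_le_exp.2 h1
      rw [Real.exp_log hX1] at h4
      linarith
    · refine Nat.floor_le_floor ?_
      refine le_trans ?_ hw
      rw [Real.rpow_def_of_pos hX1, mul_comm]
      exact Real.exp_le_exp.2 h2
  have hlo : n0 ≤ ⌈X⌉₊ := by
    have := Nat.le_ceil X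
    exact_mod_cast hXn.trans this
  have hlog1 : 1 ≤ Real.log (X + 1) := by
    rw [Real.le_log_iff_exp_le hX1]
    linarith [Real.exp_one_lt_three]
  have fl : ∀ t : ℝ, Real.log (X + 1) ≤ t → (3 : ℝ) ≤ (⌊Real.exp t⌋₊ : ℝ) := by
    intro t h1
    have h4 := Real.exp_le_exp.2 h1
    rw [Real.exp_log hX1] at h4
    have h5 : 3 ≤ ⌊Real.exp t⌋₊ := Nat.le_floor (by push_cast; linarith)
    exact_mod_cast h5
  have ll1 : ∀ t : ℝ, Real.log (X + 1) ≤ t →
      Real.log (Real.log (⌊Real.exp t⌋₊ : ℝ)) ≤ Real.log t := by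
    intro t h1
    have h3 := fl t h1
    have h6 : 0 < Real.log (⌊Real.exp t⌋₊ : ℝ) := Real.log_pos (by linarith)
    refine Real.log_le_log h6 ?_
    have h7 := Real.log_le_log (by linarith : (0 : ℝ) < (⌊Real.exp t⌋₊ : ℝ)) (Nat.floor_le (Real.exp_pos t).le)
    rwa [Real.log_exp] at h7
  have ll2 : ∀ t : ℝ, Real.log (X + 1) ≤ t → n0 ≤ ⌊Real.exp t⌋₊ →
      r * Real.log t ≤ r * Real.log (Real.log (⌊Real.exp t⌋₊ : ℝ)) + ε / 2 := by
    intro t h1 h2
    have h3 := fl t h1
    have h4 := (abs_le.1 (hn0 _ h2).2).2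
    have h5 : t ≤ Real.log ((⌊Real.exp t⌋₊ + 1 : ℕ) : ℝ) := by
      rw [Real.le_log_iff_exp_le (by positivity)]
      push_cast
      exact (Nat.lt_floor_add_one _).le
    have h6 : Real.log t ≤ Real.log (Real.log ((⌊Real.exp t⌋₊ + 1 : ℕ) : ℝ)) :=
      Real.log_le_log (by linarith) h5
    have h7 := mul_le_mul_of_nonneg_left h6 (Nat.cast_nonneg r : (0 : ℝ) ≤ r)
    linarith
  obtain ⟨kv1, kv2⟩ := key v v1 v2
  obtain ⟨ku1, ku2⟩ := key u u1 u2
  have hr0 : (0 : ℝ) ≤ r := Nat.cast_nonneg r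
  have e1 : -ε ≤ er a b F r ⌊Real.exp v⌋₊ := by
    unfold er
    rw [bsd_floor]
    have h1 := mul_le_mul_of_nonneg_left (ll1 v v1) hr0
    linarith
  have e2 : er a b F r ⌊Real.exp u⌋₊ ≤ ε := by
    unfold er
    rw [bsd_floor]
    have h1 := ll2 u u1 (hlo.trans ku1)
    linarith
  obtain ⟨k, h1, h2, h3⟩ := ivt (h := er a b F r) (lo := ⌈X⌉₊) (hi := ⌊X ^ (1 + δ)⌋₊) (ε := ε)
    (fun k hk => (hn0 k (hlo.trans hk)).1) kv1 kv2 ku1 ku2 e1 e2
  refine ⟨k, (Nat.le_ceil X).trans (by exact_mod_cast h1), ?_, h3⟩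
  have h4 : ((k : ℕ) : ℝ) ≤ (⌊X ^ (1 + δ)⌋₊ : ℝ) := by exact_mod_cast h2
  exact h4.trans (Nat.floor_le (by positivity))

/-- **The asymptotic formula at some point of each window**, if there are no real zeros. -/
theorem exact_win (hΔ : 4 * a ^ 3 + 27 * b ^ 2 ≠ 0) (hrs : Tendsto (rsSum a b) atTop (𝓝 0))
    (hH : Hasse a b) {F : ℂ → ℂ} (hF : IsLSeries a b F) {r : ℕ} (hr : analyticOrderAt F 1 = r)
    (hn : NRZ F) {δ : ℝ} (hδ : 0 < δ) {ε : ℝ} (hε : 0 < ε) :
    ∀ᶠ X : ℝ in atTop, ∃ x ∈ Icc X (X ^ (1 + δ)),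
      |bsdProduct a b x / Real.log x ^ r - TT F r| ≤ ε := by
  obtain ⟨hlead, -⟩ := lead_limit hF.1 hr
  have hT := TT_pos hlead
  set ε1 := Real.log (1 + ε / TT F r) with hε1
  have hq : 1 < 1 + ε / TT F r := by
    have : 0 < ε / TT F r := by positivity
    linarith
  have hε10 : 0 < ε1 := Real.log_pos hq
  have hexp : Real.exp ε1 = 1 + ε / TT F r := Real.exp_log (by linarith)
  filter_upwards [er_small hΔ hrs hH hF hr hn hδ hε10, eventually_ge_atTop 3] with X ⟨n, h1, h2, h3⟩ hX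
  refine ⟨n, ⟨h1, h2⟩, ?_⟩
  have hn3 : (3 : ℝ) ≤ n := hX.trans h1
  have hl : 0 < Real.log (n : ℝ) := Real.log_pos (by linarith)
  have hP := bsdProduct_pos (a := a) (b := b) (n : ℝ)
  have e1 : bsdProduct a b n / Real.log n ^ r = TT F r * Real.exp (er a b F r n) := by
    have h4 : Real.log (bsdProduct a b n / Real.log n ^ r) = Real.log (TT F r) + er a b F r n := by
      rw [Real.log_div hP.ne' (by positivity), Real.log_pow]
      unfold er; ring
    rw [← Real.exp_log (show 0 < bsdProduct a b n / Real.log n ^ r by positivity), h4, Real.exp_add,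
      Real.exp_log hT]
  rw [e1]
  have h5 : |Real.exp (er a b F r n) - 1| ≤ ε / TT F r := by
    obtain ⟨h6, h7⟩ := abs_le.1 h3
    have h8 := Real.exp_le_exp.2 h7
    have h9 := Real.exp_le_exp.2 h6
    have h10 : Real.exp (-ε1) = (1 + ε / TT F r)⁻¹ := by rw [Real.exp_neg, hexp]
    have h11 : 1 - ε / TT F r ≤ (1 + ε / TT F r)⁻¹ := by
      have h12 : 0 < 1 + ε / TT F r := by linarith
      rw [← one_div, le_div_iff₀ h12]
      nlinarith [sq_nonneg (ε / TT F r)]
    rw [abs_le]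
    constructor
    · linarith
    · linarith
  have h6 : TT F r * Real.exp (er a b F r n) - TT F r = TT F r * (Real.exp (er a b F r n) - 1) := by ring
  rw [h6, abs_mul, abs_of_pos hT]
  calc TT F r * |Real.exp (er a b F r n) - 1| ≤ TT F r * (ε / TT F r) :=
        mul_le_mul_of_nonneg_left h5 hT.le
    _ = ε := by field_simp

end Pool.Agent.V8H22.BSW
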