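import Pool.Agent.V8H22.BSW.A9

/-!
# One-sided bounds in sparse windows
-/

set_option autoImplicit false
set_option maxHeartbeats 1000000

open MeasureTheory Complex Set Filter Topology Metric
open Pool.Agent.W263.BSD hiding TT
open Pool.Agent.N586.BP (TT Hasse)

namespace Pool.Agent.V8H22.BSW

variable {a b : ℤ}

/-- equality of the exponents gives an inequality of the constants -/
lemma const_le {r : ℕ} {A B : ℝ} (h : ∃ᶠ x : ℝ in atTop, A * Real.log x ^ r ≤ B * Real.log x ^ r) :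
    A ≤ B := by
  obtain ⟨x, h1, h2⟩ := (h.and_eventually (eventually_gt_atTop (1:ℝ))).exists
  exact le_of_mul_le_mul_right h1 (pow_pos (Real.log_pos h2) _)

/-- a lower bound is at least `exp (- x^ε)` -/
lemma logpow_ge {A : ℝ} (hA : 0 < A) (ρ : ℝ) {ε : ℝ} (hε : 0 < ε) :
    ∀ᶠ x : ℝ in atTop, Real.exp (-x ^ ε) ≤ A * Real.log x ^ ρ := by
  filter_upwards [logpow_small A⁻¹ (-ρ) hε, eventually_gt_atTop 1] with x h1 h2
  have hl : 0 < Real.log x := Real.log_pos h2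
  have h3 : 0 < Real.log x ^ ρ := Real.rpow_pos_of_pos hl _
  rw [Real.rpow_neg hl.le, ← mul_inv] at h1
  rw [Real.exp_neg]
  exact inv_le_of_inv_le₀ (by positivity) h1

/-- one-sided upper bounds -/
theorem upper_win (hΔ : 4 * a ^ 3 + 27 * b ^ 2 ≠ 0) (hrs : Tendsto (rsSum a b) atTop (𝓝 0))
    {F : ℂ → ℂ} (hF : IsLSeries a b F) {r : ℕ} (hr : analyticOrderAt F 1 = r) {ρ δ A : ℝ}
    (hδ : 0 < δ)
    (h : ∃ᶠ X : ℝ in atTop, ∀ x ∈ Icc X (X ^ (1 + δ)), bsdProduct a b x ≤ A * Real.log x ^ ρ) :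
    (∀ s : ℂ, 1 < s.re → F s ≠ 0) ∧ (r : ℝ) ≤ ρ ∧ ((r : ℝ) = ρ → TT F r ≤ A) := by
  have hrh : ∀ s : ℂ, 1 < s.re → F s ≠ 0 := by
    intro s hs
    refine rh_of_windows hF (fun ε hε => ⟨δ, hδ, ?_⟩) hs
    obtain ⟨x0, hx0⟩ := eventually_atTop.1 (logpow_small A ρ hε)
    refine (h.and_eventually (eventually_ge_atTop x0)).mono fun X hX x hx => ?_
    exact (hX.1 x hx).trans (hx0 x (hX.2.trans hx.1))
  obtain ⟨hlead, -⟩ := lead_limit hF.1 hr
  have hT := TT_pos hlead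
  refine ⟨hrh, ?_, fun he => ?_⟩
  · have h1 := (centre_win hΔ hrs hF hr hδ (half_pos hT)).1
    have h2 := freq_point h h1
    refine rho_le (half_pos hT) (C := A) (h2.mono fun x hx => ?_)
    rw [Real.rpow_natCast]
    exact (le_of_eq (by ring)).trans (hx.2.trans hx.1)
  · refine le_of_forall_pos_le_add fun ε hε => ?_
    have h2 := freq_point h (centre_win hΔ hrs hF hr hδ hε).1
    have h3 : TT F r - ε ≤ A := const_le (r := r) (h2.mono fun x hx => by
      have h4 := hx.2.trans hx.1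
      rwa [← he, Real.rpow_natCast] at h4)
    linarith

/-- one-sided lower bounds -/
theorem lower_win (hΔ : 4 * a ^ 3 + 27 * b ^ 2 ≠ 0) (hrs : Tendsto (rsSum a b) atTop (𝓝 0))
    {F : ℂ → ℂ} (hF : IsLSeries a b F) {r : ℕ} (hr : analyticOrderAt F 1 = r) (hn : NRZ F)
    {ρ δ A : ℝ} (hδ : 0 < δ) (hA : 0 < A)
    (h : ∃ᶠ X : ℝ in atTop, ∀ x ∈ Icc X (X ^ (1 + δ)), A * Real.log x ^ ρ ≤ bsdProduct a b x) :
    (∀ s : ℂ, 1 < s.re → F s ≠ 0) ∧ ρ ≤ r ∧ ((r : ℝ) = ρ → A ≤ TT F r) := by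
  have hrh : ∀ s : ℂ, 1 < s.re → F s ≠ 0 := by
    intro s hs h0
    set β := s.re - 1 with hβ
    have hβ0 : 0 < β := by linarith
    have h2 := (large_win hF h0 hs hδ (ε := β / 4) (by linarith)).2 hn
    obtain ⟨x0, hx0⟩ := eventually_atTop.1 (logpow_ge hA ρ (show 0 < β / 2 by linarith))
    obtain ⟨x, ⟨h3, h4⟩, h5⟩ := ((freq_point h h2).and_eventually
      (eventually_ge_atTop (max x0 2))).exists
    have h6 := (hx0 x ((le_max_left _ _).trans h5)).trans (h3.trans h4)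
    have hx1 : 1 < x := by have := (le_max_right x0 2).trans h5; linarith
    rw [Real.exp_le_exp, neg_le_neg_iff, Real.rpow_le_rpow_left_iff hx1] at h6
    linarith
  obtain ⟨hlead, -⟩ := lead_limit hF.1 hr
  have hT := TT_pos hlead
  refine ⟨hrh, ?_, fun he => ?_⟩
  · have h2 := freq_point h ((centre_win hΔ hrs hF hr hδ hT).2 hn)
    refine rho_le hA (C := 2 * TT F r) (h2.mono fun x hx => ?_)
    rw [Real.rpow_natCast]
    exact hx.1.trans (hx.2.trans (le_of_eq (by ring)))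
  · refine le_of_forall_pos_le_add fun ε hε => ?_
    have h2 := freq_point h ((centre_win hΔ hrs hF hr hδ hε).2 hn)
    exact const_le (r := r) (h2.mono fun x hx => by
      have h4 := hx.1.trans hx.2
      rwa [← he, Real.rpow_natCast] at h4)

end Pool.Agent.V8H22.BSW
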